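import Mathlib

/-! Hilbert basis theorem for normalising extensions, and Ore localisation at `1 - t B`. -/

set_option autoImplicit false

namespace Pool.Agent.P.MP_049749_al

open MulOpposite

section HBT

variable {E : Type*} [Ring E] (Λ : Subring E) (x : E)

/-- the span of `1, x, ..., x ^ (n - 1)` -/
def filt (n : ℕ) : Submodule Λ E := Submodule.span Λ {y | ∃ i < n, y = x ^ i}

variable {Λ x}

lemma filt_mono {m n : ℕ} (h : m ≤ n) : filt Λ x m ≤ filt Λ x n :=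
  Submodule.span_mono fun _ ⟨i, hi, hy⟩ => ⟨i, lt_of_lt_of_le hi h, hy⟩

lemma x_mul_mem (h1 : ∀ r ∈ Λ, ∃ r' ∈ Λ, x * r = r' * x) {n : ℕ} {y : E} (hy : y ∈ filt Λ x n) :
    x * y ∈ filt Λ x (n + 1) := by
  induction hy using Submodule.span_induction with
  | mem y hy =>
    obtain ⟨i, hi, rfl⟩ := hy
    exact Submodule.subset_span ⟨i + 1, by omega, (pow_succ' x i).symm⟩
  | zero => rw [mul_zero]; exact Submodule.zero_mem _
  | add y z _ _ hy hz => rw [mul_add]; exact Submodule.add_mem _ hy hz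
  | smul a y _ hy =>
    obtain ⟨r', hr', h⟩ := h1 a a.2
    have : x * (a • y) = (⟨r', hr'⟩ : Λ) • (x * y) := by
      change x * (a * y) = r' * (x * y)
      rw [← mul_assoc, h, mul_assoc]
    rw [this]
    exact Submodule.smul_mem _ _ hy

lemma pow_mul_mem (h1 : ∀ r ∈ Λ, ∃ r' ∈ Λ, x * r = r' * x) {n : ℕ} {y : E} (hy : y ∈ filt Λ x n)
    (i : ℕ) : x ^ i * y ∈ filt Λ x (n + i) := by
  induction i with
  | zero => simpa using hy
  | succ i ih => rw [pow_succ', mul_assoc]; exact x_mul_mem h1 ih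

lemma filt_mul_mem (h1 : ∀ r ∈ Λ, ∃ r' ∈ Λ, x * r = r' * x) {m n : ℕ} {y z : E}
    (hy : y ∈ filt Λ x m) (hz : z ∈ filt Λ x n) : y * z ∈ filt Λ x (n + m) := by
  induction hy using Submodule.span_induction with
  | mem y hy =>
    obtain ⟨i, hi, rfl⟩ := hy
    exact filt_mono (by omega) (pow_mul_mem h1 hz i)
  | zero => rw [zero_mul]; exact Submodule.zero_mem _
  | add y z _ _ hy hz => rw [add_mul]; exact Submodule.add_mem _ hy hz
  | smul a y _ hy => rw [smul_mul_assoc]; exact Submodule.smul_mem _ _ hy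

lemma exists_mem_filt (h1 : ∀ r ∈ Λ, ∃ r' ∈ Λ, x * r = r' * x) {y : E}
    (hy : y ∈ Subring.closure ((Λ : Set E) ∪ {x})) : ∃ n, y ∈ filt Λ x n := by
  have hone : (1 : E) ∈ filt Λ x 1 := Submodule.subset_span ⟨0, one_pos, (pow_zero x).symm⟩
  induction hy using Subring.closure_induction with
  | mem y hy =>
    rcases hy with hy | hy
    · refine ⟨1, ?_⟩
      have := Submodule.smul_mem _ (⟨y, hy⟩ : Λ) hone
      change y * 1 ∈ _ at this
      rwa [mul_one] at this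
    · exact ⟨2, Submodule.subset_span ⟨1, one_lt_two, by rw [pow_one]; exact hy⟩⟩
  | zero => exact ⟨0, Submodule.zero_mem _⟩
  | one => exact ⟨1, hone⟩
  | add y z _ _ hy hz =>
    obtain ⟨m, hm⟩ := hy
    obtain ⟨n, hn⟩ := hz
    exact ⟨m + n, Submodule.add_mem _ (filt_mono (by omega) hm) (filt_mono (by omega) hn)⟩
  | neg y _ hy =>
    obtain ⟨m, hm⟩ := hy
    exact ⟨m, Submodule.neg_mem _ hm⟩
  | mul y z _ _ hy hz =>
    obtain ⟨m, hm⟩ := hy
    obtain ⟨n, hn⟩ := hz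
    exact ⟨_, filt_mul_mem h1 hm hn⟩

lemma pow_normal_left (h1 : ∀ r ∈ Λ, ∃ r' ∈ Λ, x * r = r' * x) (n : ℕ) :
    ∀ r ∈ Λ, ∃ r' ∈ Λ, x ^ n * r = r' * x ^ n := by
  induction n with
  | zero => exact fun r hr => ⟨r, hr, by simp⟩
  | succ n ih =>
    intro r hr
    obtain ⟨r', hr', h⟩ := ih r hr
    obtain ⟨r'', hr'', h'⟩ := h1 r' hr'
    exact ⟨r'', hr'', by rw [pow_succ', mul_assoc, h, ← mul_assoc, h', mul_assoc]⟩

lemma pow_normal_right (h2 : ∀ r ∈ Λ, ∃ r' ∈ Λ, r * x = x * r') (n : ℕ) :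
    ∀ r ∈ Λ, ∃ r' ∈ Λ, r * x ^ n = x ^ n * r' := by
  induction n with
  | zero => exact fun r hr => ⟨r, hr, by simp⟩
  | succ n ih =>
    intro r hr
    obtain ⟨r', hr', h⟩ := ih r hr
    obtain ⟨r'', hr'', h'⟩ := h2 r' hr'
    exact ⟨r'', hr'', by rw [pow_succ, ← mul_assoc, h, mul_assoc, h', mul_assoc]⟩

lemma filt_succ (h2 : ∀ r ∈ Λ, ∃ r' ∈ Λ, r * x = x * r') {n : ℕ} {y : E}
    (hy : y ∈ filt Λ x (n + 1)) : ∃ r ∈ Λ, y - x ^ n * r ∈ filt Λ x n := by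
  induction hy using Submodule.span_induction with
  | mem y hy =>
    obtain ⟨i, hi, rfl⟩ := hy
    rcases Nat.lt_succ_iff_lt_or_eq.1 hi with hi | rfl
    · exact ⟨0, Λ.zero_mem, by
        rw [mul_zero, sub_zero]; exact Submodule.subset_span ⟨i, hi, rfl⟩⟩
    · exact ⟨1, Λ.one_mem, by rw [mul_one, sub_self]; exact Submodule.zero_mem _⟩
  | zero => exact ⟨0, Λ.zero_mem, by simp⟩
  | add y z _ _ hy hz =>
    obtain ⟨r, hr, h⟩ := hy
    obtain ⟨r', hr', h'⟩ := hz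
    refine ⟨r + r', Λ.add_mem hr hr', ?_⟩
    convert Submodule.add_mem _ h h' using 1
    rw [mul_add]; abel
  | smul a y _ hy =>
    obtain ⟨r, hr, h⟩ := hy
    obtain ⟨a', ha', h'⟩ := pow_normal_right h2 n a a.2
    refine ⟨a' * r, Λ.mul_mem ha' hr, ?_⟩
    convert Submodule.smul_mem _ a h using 1
    change a * y - _ = a * (y - x ^ n * r)
    rw [mul_sub, ← mul_assoc, ← mul_assoc, h']

/-- leading coefficient ideals -/
def lead (h1 : ∀ r ∈ Λ, ∃ r' ∈ Λ, x * r = r' * x)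
    (I : Ideal (Subring.closure ((Λ : Set E) ∪ {x}))) (n : ℕ) : Ideal Λ where
  carrier := {r | ∃ y ∈ I, (y : E) - x ^ n * r ∈ filt Λ x n}
  add_mem' := by
    rintro r r' ⟨y, hy, h⟩ ⟨y', hy', h'⟩
    refine ⟨y + y', I.add_mem hy hy', ?_⟩
    convert Submodule.add_mem _ h h' using 1
    push_cast
    rw [mul_add]; abel
  zero_mem' := ⟨0, I.zero_mem, by simp⟩
  smul_mem' := by
    rintro a r ⟨y, hy, h⟩
    obtain ⟨a', ha', h'⟩ := pow_normal_left h1 n a a.2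
    refine ⟨⟨a', Subring.subset_closure (Or.inl ha')⟩ * y, I.mul_mem_left _ hy, ?_⟩
    convert Submodule.smul_mem _ (⟨a', ha'⟩ : Λ) h using 1
    change a' * y - x ^ n * (a * r) = a' * (y - x ^ n * r)
    rw [mul_sub, ← mul_assoc, ← mul_assoc, h']

lemma lead_mono_ideal (h1 : ∀ r ∈ Λ, ∃ r' ∈ Λ, x * r = r' * x)
    {I J : Ideal (Subring.closure ((Λ : Set E) ∪ {x}))} (h : I ≤ J) (n : ℕ) :
    lead h1 I n ≤ lead h1 J n := fun _ ⟨y, hy, h'⟩ => ⟨y, h hy, h'⟩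

lemma lead_mono (h1 : ∀ r ∈ Λ, ∃ r' ∈ Λ, x * r = r' * x)
    (I : Ideal (Subring.closure ((Λ : Set E) ∪ {x}))) : Monotone (lead h1 I) := by
  refine monotone_nat_of_le_succ fun n r ⟨y, hy, h⟩ => ?_
  refine ⟨⟨x, Subring.subset_closure (Or.inr rfl)⟩ * y, I.mul_mem_left _ hy, ?_⟩
  convert x_mul_mem h1 h using 1
  change x * y - _ = _
  rw [mul_sub, pow_succ', mul_assoc]

theorem hbt (h1 : ∀ r ∈ Λ, ∃ r' ∈ Λ, x * r = r' * x) (h2 : ∀ r ∈ Λ, ∃ r' ∈ Λ, r * x = x * r')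
    [hΛ : IsNoetherianRing Λ] : IsNoetherianRing (Subring.closure ((Λ : Set E) ∪ {x})) := by
  refine (isNoetherianRing_iff_ideal_fg _).2 fun I => ?_
  obtain ⟨N, hN⟩ := monotone_stabilizes_iff_noetherian.2 hΛ ⟨lead h1 I, lead_mono h1 I⟩
  have key1 : ∀ n (P : Ideal Λ), P.FG → P ≤ lead h1 I n →
      ∃ J ≤ I, J.FG ∧ P ≤ lead h1 J n := by
    intro n P hP
    induction P, hP using Submodule.fg_induction with
    | singleton r =>
      intro h
      obtain ⟨y, hy, h'⟩ := h (Submodule.mem_span_singleton_self r)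
      refine ⟨Ideal.span {y}, (Ideal.span_singleton_le_iff_mem _).2 hy,
        Submodule.fg_span_singleton y, ?_⟩
      rw [Submodule.span_singleton_le_iff_mem]
      exact ⟨y, Ideal.subset_span rfl, h'⟩
    | sup P Q _ _ ihP ihQ =>
      intro h
      obtain ⟨J, h3, h4, h5⟩ := ihP (le_sup_left.trans h)
      obtain ⟨J', h3', h4', h5'⟩ := ihQ (le_sup_right.trans h)
      exact ⟨J ⊔ J', sup_le h3 h3', Submodule.FG.sup h4 h4', sup_le (h5.trans (lead_mono_ideal h1 le_sup_left n))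
        (h5'.trans (lead_mono_ideal h1 le_sup_right n))⟩
  have key2 : ∀ M : ℕ, ∃ J ≤ I, J.FG ∧ ∀ n < M, lead h1 I n ≤ lead h1 J n := by
    intro M
    induction M with
    | zero => exact ⟨⊥, bot_le, Submodule.fg_bot, fun n hn => absurd hn (Nat.not_lt_zero n)⟩
    | succ M ih =>
      obtain ⟨J, h3, h4, h5⟩ := ih
      obtain ⟨J', h3', h4', h5'⟩ := key1 M _ (IsNoetherian.noetherian _) le_rfl
      refine ⟨J ⊔ J', sup_le h3 h3', Submodule.FG.sup h4 h4', fun n hn => ?_⟩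
      rcases Nat.lt_succ_iff_lt_or_eq.1 hn with hn | rfl
      · exact (h5 n hn).trans (lead_mono_ideal h1 le_sup_left n)
      · exact h5'.trans (lead_mono_ideal h1 le_sup_right n)
  obtain ⟨J, hJI, hJ, hL⟩ := key2 (N + 1)
  have hL' : ∀ n, lead h1 I n ≤ lead h1 J n := by
    intro n
    by_cases hn : n ≤ N
    · exact hL n (by omega)
    · have := hN n (by omega)
      change lead h1 I N = lead h1 I n at this
      rw [← this]
      exact (hL N (by omega)).trans (lead_mono h1 J (by omega))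
  have key3 : ∀ n, ∀ y ∈ I, (y : E) ∈ filt Λ x n → y ∈ J := by
    intro n
    induction n with
    | zero =>
      intro y _ hy
      have : filt Λ x 0 = ⊥ := by
        rw [filt, Submodule.span_eq_bot]
        rintro _ ⟨i, hi, -⟩
        exact absurd hi (Nat.not_lt_zero i)
      rw [this, Submodule.mem_bot] at hy
      rw [show y = 0 from Subtype.ext hy]
      exact J.zero_mem
    | succ n ih =>
      intro y hyI hy
      obtain ⟨r, hr, h⟩ := filt_succ h2 hy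
      obtain ⟨y', hy', h'⟩ := hL' n (show (⟨r, hr⟩ : Λ) ∈ lead h1 I n from ⟨y, hyI, h⟩)
      have h3 := ih (y - y') (I.sub_mem hyI (hJI hy')) (by
        convert Submodule.sub_mem _ h h' using 1
        push_cast
        abel)
      simpa using J.add_mem h3 hy'
  have : I = J := le_antisymm (fun y hy => by
    obtain ⟨n, hn⟩ := exists_mem_filt h1 y.2
    exact key3 n y hy hn) hJI
  rwa [this]

theorem hbt_op (h1 : ∀ r ∈ Λ, ∃ r' ∈ Λ, x * r = r' * x) (h2 : ∀ r ∈ Λ, ∃ r' ∈ Λ, r * x = x * r')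
    [hΛ : IsNoetherianRing Λ.op] : IsNoetherianRing (Subring.closure ((Λ : Set E) ∪ {x})).op := by
  have h := hbt (Λ := Λ.op) (x := op x) (fun r hr => by
    obtain ⟨r', hr', h⟩ := h2 _ hr
    exact ⟨op r', hr', unop_injective h⟩) (fun r hr => by
    obtain ⟨r', hr', h⟩ := h1 _ hr
    exact ⟨op r', hr', unop_injective h⟩)
  have h3 : (Subring.closure ((Λ : Set E) ∪ {x})).op =
      Subring.closure ((Λ.op : Set Eᵐᵒᵖ) ∪ {op x}) := by
    rw [Subring.op_closure]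
    congr 1
    ext y
    simp only [Set.preimage_union, Set.mem_union, Set.mem_preimage, SetLike.mem_coe,
      Set.mem_singleton_iff, Subring.mem_op]
    exact or_congr Iff.rfl ⟨fun h => by rw [← h, op_unop], fun h => by rw [h, unop_op]⟩
  rwa [h3]

end HBT

section Ore

lemma ore_left {R : Type*} [Ring R] [hR : IsNoetherianRing R] (t : R)
    (h1 : ∀ b, ∃ b', t * b = b' * t) (h2 : ∀ b, ∃ b', b * t = t * b') (a r : R) :
    ∃ a' r', (1 - t * a') * r = r' * (1 - t * a) := by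
  have h1' : ∀ (n : ℕ) b, ∃ b', t ^ n * b = b' * t ^ n := fun n b => by
    obtain ⟨b', -, h⟩ := pow_normal_left (Λ := ⊤) (x := t)
      (fun r _ => (h1 r).imp fun _ h => ⟨trivial, h⟩) n b trivial
    exact ⟨b', h⟩
  have h2' : ∀ (n : ℕ) b, ∃ b', b * t ^ n = t ^ n * b' := fun n b => by
    obtain ⟨b', -, h⟩ := pow_normal_right (Λ := ⊤) (x := t)
      (fun r _ => (h2 r).imp fun _ h => ⟨trivial, h⟩) n b trivial
    exact ⟨b', h⟩
  set K : Ideal R := Submodule.span R {r, 1 - t * a} with hK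
  let Kn : ℕ → Ideal R := fun n =>
    { carrier := {b | t ^ n * b ∈ K}
      add_mem' := fun {b c} hb hc => by
        change t ^ n * (b + c) ∈ K
        rw [mul_add]; exact K.add_mem hb hc
      zero_mem' := by
        change t ^ n * 0 ∈ K
        rw [mul_zero]; exact K.zero_mem
      smul_mem' := fun c b hb => by
        change t ^ n * (c * b) ∈ K
        obtain ⟨c', h⟩ := h1' n c
        rw [← mul_assoc, h, mul_assoc]
        exact K.mul_mem_left _ hb }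
  have hmono : Monotone Kn := monotone_nat_of_le_succ fun n b hb => by
    change t ^ (n + 1) * b ∈ K
    rw [pow_succ', mul_assoc]
    exact K.mul_mem_left _ hb
  obtain ⟨N, hN⟩ := monotone_stabilizes_iff_noetherian.2 hR ⟨Kn, hmono⟩
  have h3 : ∀ n : ℕ, ∃ b, (t * a) ^ n = t ^ n * b := by
    intro n
    induction n with
    | zero => exact ⟨1, by simp⟩
    | succ n ih =>
      obtain ⟨b, hb⟩ := ih
      obtain ⟨b', hb'⟩ := h2 b
      exact ⟨b' * a, by rw [pow_succ, hb, mul_assoc, ← mul_assoc b, hb', pow_succ]; noncomm_ring⟩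
  obtain ⟨b, hb⟩ := h3 (N + 1)
  obtain ⟨r', hr'⟩ := h2' (N + 1) r
  have h4 := geom_sum_mul_neg (t * a) (N + 1)
  set g := ∑ i ∈ Finset.range (N + 1), (t * a) ^ i with hg
  have h5 : r * (t * a) ^ (N + 1) = r - (r * g) * (1 - t * a) := by
    rw [mul_assoc, h4, mul_sub, mul_one, sub_sub_cancel]
  have h6 : r' * b ∈ Kn (N + 1) := by
    change t ^ (N + 1) * (r' * b) ∈ K
    rw [← mul_assoc, ← hr', mul_assoc, ← hb, h5]
    exact K.sub_mem (Submodule.subset_span (Or.inl rfl))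
      (K.mul_mem_left _ (Submodule.subset_span (Or.inr rfl)))
  have h7 : r' * b ∈ Kn N := by
    have := hN (N + 1) (Nat.le_succ N)
    change Kn N = Kn (N + 1) at this
    rwa [this]
  obtain ⟨u, v, huv⟩ := Submodule.mem_span_pair.1 h7
  rw [smul_eq_mul, smul_eq_mul] at huv
  refine ⟨u, r * g + t * v, ?_⟩
  have h8 : t * (u * r + v * (1 - t * a)) = r - (r * g) * (1 - t * a) := by
    rw [huv, ← mul_assoc, ← pow_succ', ← mul_assoc, ← hr', mul_assoc, ← hb, h5]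
  rw [mul_add, eq_sub_iff_add_eq] at h8
  rw [sub_mul, one_mul, add_mul, mul_assoc t u, mul_assoc t v, sub_eq_iff_eq_add]
  exact h8.symm.trans (by abel)

lemma noeth_of_denominators {E : Type*} [Ring E] {B₁ B : Subring E} (hle : B₁ ≤ B)
    (h : ∀ x ∈ B, ∃ s ∈ B₁, ∃ s' ∈ B, s' * s = 1 ∧ s * x ∈ B₁) [IsNoetherianRing B₁] :
    IsNoetherianRing B := by
  refine (isNoetherianRing_iff_ideal_fg _).2 fun I => ?_
  have h1 : I = (I.comap (Subring.inclusion hle)).map (Subring.inclusion hle) := by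
    refine le_antisymm (fun x hx => ?_) Ideal.map_comap_le
    obtain ⟨s, hs, s', hs', h2, h3⟩ := h x x.2
    have h4 : x = ⟨s', hs'⟩ * Subring.inclusion hle ⟨s * x, h3⟩ := by
      refine Subtype.ext ?_
      change (x : E) = s' * (s * x)
      rw [← mul_assoc, h2, one_mul]
    rw [h4]
    refine Ideal.mul_mem_left _ _ (Ideal.mem_map_of_mem _ ?_)
    exact I.mul_mem_left ⟨s, hle hs⟩ hx
  rw [h1]
  exact Ideal.FG.map (IsNoetherian.noetherian _) _

variable {E : Type*} [Ring E]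

/-- hypotheses for localising `B₁` at `1 - t B₁` inside `E` -/
structure OreData (B₁ : Subring E) (t : E) : Prop where
  mem : t ∈ B₁
  n1 : ∀ b ∈ B₁, ∃ b' ∈ B₁, t * b = b' * t
  n2 : ∀ b ∈ B₁, ∃ b' ∈ B₁, b * t = t * b'
  unit : ∀ a ∈ B₁, IsUnit (1 - t * a)
  left : IsNoetherianRing B₁
  right : IsNoetherianRing B₁.op

variable {B₁ : Subring E} {t : E}

lemma OreData.oreL (h : OreData B₁ t) {a r : E} (ha : a ∈ B₁) (hr : r ∈ B₁) :
    ∃ a' ∈ B₁, ∃ r' ∈ B₁, (1 - t * a') * r = r' * (1 - t * a) := by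
  have := h.left
  obtain ⟨a', r', h1⟩ := ore_left (R := B₁) ⟨t, h.mem⟩ (fun b => by
    obtain ⟨b', hb', h2⟩ := h.n1 b b.2
    exact ⟨⟨b', hb'⟩, Subtype.ext h2⟩) (fun b => by
    obtain ⟨b', hb', h2⟩ := h.n2 b b.2
    exact ⟨⟨b', hb'⟩, Subtype.ext h2⟩) ⟨a, ha⟩ ⟨r, hr⟩
  exact ⟨a', a'.2, r', r'.2, congrArg Subtype.val h1⟩

lemma OreData.oreR (h : OreData B₁ t) {a r : E} (ha : a ∈ B₁) (hr : r ∈ B₁) :
    ∃ a' ∈ B₁, ∃ r' ∈ B₁, r * (1 - t * a') = (1 - t * a) * r' := by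
  have := h.right
  obtain ⟨a₁, ha₁, h0⟩ := h.n1 a ha
  obtain ⟨a', r', h1⟩ := ore_left (R := B₁.op) ⟨op t, h.mem⟩ (fun b => by
    obtain ⟨b', hb', h2⟩ := h.n2 _ b.2
    exact ⟨⟨op b', hb'⟩, Subtype.ext (unop_injective h2)⟩) (fun b => by
    obtain ⟨b', hb', h2⟩ := h.n1 _ b.2
    exact ⟨⟨op b', hb'⟩, Subtype.ext (unop_injective h2)⟩) ⟨op a₁, ha₁⟩ ⟨op r, hr⟩
  obtain ⟨a₂, ha₂, h2⟩ := h.n2 _ a'.2
  refine ⟨a₂, ha₂, unop r'.1, r'.2, ?_⟩
  rw [h0, ← h2]
  exact congrArg (fun y : B₁.op => unop y.1) h1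

lemma OreData.denom_mul (h : OreData B₁ t) {a a' : E} (ha : a ∈ B₁) (ha' : a' ∈ B₁) :
    ∃ a'' ∈ B₁, (1 - t * a) * (1 - t * a') = 1 - t * a'' :=
  ⟨a + a' - a * t * a', B₁.sub_mem (B₁.add_mem ha ha') (B₁.mul_mem (B₁.mul_mem ha h.mem) ha'),
    by noncomm_ring⟩

lemma OreData.denom_mem (h : OreData B₁ t) {a : E} (ha : a ∈ B₁) : 1 - t * a ∈ B₁ :=
  B₁.sub_mem B₁.one_mem (B₁.mul_mem h.mem ha)

/-- the localisation -/
def OreData.loc (h : OreData B₁ t) : Subring E where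
  carrier := {x | ∃ a ∈ B₁, (1 - t * a) * x ∈ B₁}
  mul_mem' := by
    rintro x y ⟨a, ha, hx⟩ ⟨a', ha', hy⟩
    obtain ⟨c, hc, r, hr, h1⟩ := h.oreL ha' hx
    obtain ⟨d, hd, h2⟩ := h.denom_mul hc ha
    refine ⟨d, hd, ?_⟩
    rw [← h2, mul_assoc, ← mul_assoc _ x, ← mul_assoc, h1, mul_assoc]
    exact B₁.mul_mem hr hy
  one_mem' := ⟨0, B₁.zero_mem, by simp⟩
  add_mem' := by
    rintro x y ⟨a, ha, hx⟩ ⟨a', ha', hy⟩
    obtain ⟨c, hc, r, hr, h1⟩ := h.oreL ha' (h.denom_mem ha)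
    obtain ⟨d, hd, h2⟩ := h.denom_mul hc ha
    refine ⟨d, hd, ?_⟩
    rw [← h2, mul_add]
    refine B₁.add_mem ?_ ?_
    · rw [mul_assoc]; exact B₁.mul_mem (h.denom_mem hc) hx
    · rw [h1, mul_assoc]; exact B₁.mul_mem hr hy
  zero_mem' := ⟨0, B₁.zero_mem, by simp⟩
  neg_mem' := by
    rintro x ⟨a, ha, hx⟩
    exact ⟨a, ha, by rw [mul_neg]; exact B₁.neg_mem hx⟩

lemma OreData.mem_loc (h : OreData B₁ t) {x : E} :
    x ∈ h.loc ↔ ∃ a ∈ B₁, (1 - t * a) * x ∈ B₁ := Iff.rfl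

lemma OreData.le_loc (h : OreData B₁ t) : B₁ ≤ h.loc := fun x hx =>
  ⟨0, B₁.zero_mem, by simpa using hx⟩

lemma OreData.right_form (h : OreData B₁ t) {x : E} (hx : x ∈ h.loc) :
    ∃ a ∈ B₁, x * (1 - t * a) ∈ B₁ := by
  obtain ⟨a, ha, hr⟩ := hx
  obtain ⟨a', ha', r', hr', h1⟩ := h.oreR ha hr
  refine ⟨a', ha', ?_⟩
  rw [mul_assoc] at h1
  rw [(h.unit a ha).mul_left_cancel h1]
  exact hr'

lemma OreData.exists_inv (h : OreData B₁ t) {a : E} (ha : a ∈ B₁) :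
    ∃ z ∈ h.loc, z * (1 - t * a) = 1 ∧ (1 - t * a) * z = 1 := by
  obtain ⟨u, hu⟩ := h.unit a ha
  refine ⟨↑u⁻¹, ⟨a, ha, ?_⟩, ?_, ?_⟩
  · rw [← hu, Units.mul_inv]; exact B₁.one_mem
  · rw [← hu, Units.inv_mul]
  · rw [← hu, Units.mul_inv]

lemma OreData.loc_left (h : OreData B₁ t) : IsNoetherianRing h.loc := by
  have := h.left
  refine noeth_of_denominators h.le_loc fun x ⟨a, ha, hx⟩ => ?_
  obtain ⟨z, hz, h1, -⟩ := h.exists_inv ha
  exact ⟨_, h.denom_mem ha, z, hz, h1, hx⟩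

lemma OreData.loc_right (h : OreData B₁ t) : IsNoetherianRing h.loc.op := by
  have := h.right
  refine noeth_of_denominators (B₁ := B₁.op) (fun x hx => h.le_loc hx) fun x hx => ?_
  obtain ⟨a, ha, hx'⟩ := h.right_form hx
  obtain ⟨z, hz, -, h1⟩ := h.exists_inv ha
  exact ⟨op _, h.denom_mem ha, op z, hz, unop_injective h1, hx'⟩

lemma OreData.loc_n2 (h : OreData B₁ t) {x : E} (hx : x ∈ h.loc) :
    ∃ y ∈ h.loc, x * t = t * y := by
  obtain ⟨a, ha, hr⟩ := hx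
  obtain ⟨r', hr', h1⟩ := h.n2 _ hr
  obtain ⟨a', ha', h2⟩ := h.n2 a ha
  obtain ⟨z, hz, -, h3⟩ := h.exists_inv ha'
  refine ⟨z * r', h.loc.mul_mem hz (h.le_loc hr'), (h.unit a ha).mul_left_cancel ?_⟩
  have h4 : (1 - t * a) * t = t * (1 - t * a') := by
    rw [sub_mul, mul_sub, mul_assoc, h2, one_mul, mul_one]
  rw [← mul_assoc, h1, ← mul_assoc, h4, mul_assoc, ← mul_assoc _ z, h3, one_mul]

lemma OreData.loc_inv (h : OreData B₁ t) {x : E} (hx : x ∈ h.loc) :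
    ∃ z ∈ h.loc, z * (1 - x * t) = 1 ∧ (1 - x * t) * z = 1 := by
  obtain ⟨y, hy, h1⟩ := h.loc_n2 hx
  obtain ⟨a, ha, hr⟩ := h.right_form hy
  obtain ⟨z, hz, h2, h3⟩ := h.exists_inv (B₁.add_mem ha hr)
  have h4 : (1 - t * y) * (1 - t * a) = 1 - t * (a + y * (1 - t * a)) := by noncomm_ring
  have h5 : (1 - t * y) * ((1 - t * a) * z) = 1 := by rw [← mul_assoc, h4, h3]
  refine ⟨(1 - t * a) * z, h.loc.mul_mem (h.le_loc (h.denom_mem ha)) hz, ?_, by rw [h1, h5]⟩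
  refine (h.unit a ha).mul_right_cancel ?_
  rw [h1, mul_assoc, h4, mul_assoc, h2, mul_one, one_mul]

end Ore

end Pool.Agent.P.MP_049749_al
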