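import Pool.Agent.P.MP_049749_al.KFacts
import Pool.Agent.P.MP_049749_al.Noeth

/-! The abstract setup and the ambient ring of operators. -/

set_option autoImplicit false

namespace Pool.Agent.P.MP_049749_al

open MulOpposite TrivSqZeroExt

/-- the three translation lengths -/
noncomputable def cc : Fin 3 → ℂ := ![1, Complex.I, (√2 : ℝ)]

/-- the first deformation direction -/
def vU : Fin 3 → ℂ := ![0, 1, 0]

/-- the second deformation direction -/
def vZ : Fin 3 → ℂ := ![0, 0, 1]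

/-- The properties of the Gevrey ring that are used. -/
structure Setup (K : Type) [CommRing K] [Algebra ℂ K] where
  t : K
  tau : ℂ → K →ₐ[ℂ] K
  ev : K →ₗ[ℂ] ℂ
  tau_tau : ∀ c d u, tau c (tau d u) = tau (c + d) u
  tau_zero : ∀ u, tau 0 u = u
  exists_tau_t : ∀ c, ∃ u, tau c t = t * u
  one_sub : ∀ c : ℂ, (1 - c • t) * tau c t = t
  ev_tau : ∀ c u, ev (tau c u) = Complex.exp c * ev u
  nondeg : ∀ u, (∀ z, ev (u * z) = 0) → u = 0
  cof : ∀ (s : Finset (Fin 3 → ℕ)) (f : (Fin 3 → ℕ) → K) (lam : (Fin 3 → ℕ) → ℂ),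
    Function.Injective lam → (∃ i ∈ s, f i ≠ 0) → ∀ T : Module.End ℂ K,
      (∀ u, T u = ∑ i ∈ s, f i * tau (lam i) u) → Cof T
  volt : ∀ (s : Finset (Fin 3 → ℕ)) (f : (Fin 3 → ℕ) → K) (lam : (Fin 3 → ℕ) → ℂ) (F : K),
    ∃ u, u - t * ∑ i ∈ s, f i * tau (lam i) u = F
  decomp : ∀ u, ∃ (a b : ℂ) (w : K), u = a • 1 + b • t + w * t ^ 2
  cocycle : ∀ N : ℕ, ∃ g : Fin 3 → K,
    (∀ i j, tau (cc j) (t ^ N * g i) - Complex.exp (cc j) • (t ^ N * g i) =
      tau (cc i) (t ^ N * g j) - Complex.exp (cc i) • (t ^ N * g j)) ∧ ev (t ^ N * g 0) ≠ 0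
  noeth : IsNoetherianRing K
  notfin : ¬ Module.Finite ℂ K
  eps : K →ₗ[ℂ] ℂ
  eps_one : eps 1 = 1

/-- the Gevrey ring satisfies the axioms -/
noncomputable def setupKK : Setup KK where
  t := tK
  tau := tauK
  ev := evK
  tau_tau := tauK_tauK
  tau_zero := tauK_zero
  exists_tau_t := exists_tauK_tK
  one_sub := one_sub_mul_tauK
  ev_tau := evK_tauK
  nondeg := fun _ h => evK_nondeg h
  cof := fun s f lam h1 h2 T hT => by
    have : T = dop s f lam := LinearMap.ext fun u => by rw [hT, dop_apply]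
    rw [this]
    exact cof_dop s f lam h1 h2
  volt := fun s f lam F => by
    obtain ⟨u, hu⟩ := volterra s f lam F
    exact ⟨u, by rw [← dop_apply]; exact hu⟩
  decomp := exists_decomp
  cocycle := exists_cocycle cc rfl
  noeth := inferInstance
  notfin := not_finite_KK
  eps := PowerSeries.coeff 0 ∘ₗ K0.val.toLinearMap
  eps_one := by simp

variable {K : Type} [CommRing K] [Algebra ℂ K]

lemma Setup.tau_neg_tau (S : Setup K) (c : ℂ) (u : K) : S.tau (-c) (S.tau c u) = u := by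
  rw [S.tau_tau, neg_add_cancel, S.tau_zero]

lemma Setup.tau_tau_neg (S : Setup K) (c : ℂ) (u : K) : S.tau c (S.tau (-c) u) = u := by
  rw [S.tau_tau, add_neg_cancel, S.tau_zero]

/-- An ambient ring acting on two deformed copies of `K`. -/
structure Ops (S : Setup K) (E : Type) [Ring E] [Algebra ℂ E] where
  aU : E →ₗ[ℂ] Module.End ℂ K
  bU : E →ₗ[ℂ] Module.End ℂ K
  aZ : E →ₗ[ℂ] Module.End ℂ K
  bZ : E →ₗ[ℂ] Module.End ℂ K
  iota : K →ₐ[ℂ] E
  TT : Fin 3 → E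
  aU_mul : ∀ x y u, aU (x * y) u = aU y (aU x u)
  aZ_mul : ∀ x y u, aZ (x * y) u = aZ x (aZ y u)
  bU_mul : ∀ x y u, bU (x * y) u = bU y (aU x u) + aU y (bU x u)
  bZ_mul : ∀ x y u, bZ (x * y) u = aZ x (bZ y u) + bZ x (aZ y u)
  ext : ∀ x y, (∀ u, aU x u = aU y u) → (∀ u, bU x u = bU y u) → (∀ u, aZ x u = aZ y u) →
    (∀ u, bZ x u = bZ y u) → x = y
  isUnit : ∀ x, Function.Bijective (aU x) → Function.Bijective (aZ x) → IsUnit x
  aU_iota : ∀ f u, aU (iota f) u = f * u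
  aZ_iota : ∀ f u, aZ (iota f) u = f * u
  bU_iota : ∀ f u, bU (iota f) u = 0
  bZ_iota : ∀ f u, bZ (iota f) u = 0
  aU_TT : ∀ i u, aU (TT i) u = S.tau (cc i) u
  bU_TT : ∀ i u, bU (TT i) u = vU i • S.tau (cc i) u
  aZ_TT : ∀ i u, aZ (TT i) u = Complex.exp (cc i) • S.tau (-cc i) u
  bZ_TT : ∀ i u, bZ (TT i) u = vZ i • Complex.exp (cc i) • S.tau (-cc i) u

lemma isUnit_dual {R : Type} [Ring R] {x : DualNumber R} (h : IsUnit x.fst) : IsUnit x :=
  isUnit_iff_isUnit_fst.2 h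

/-- the ambient ring -/
abbrev Amb (K : Type) [CommRing K] [Algebra ℂ K] : Type :=
  DualNumber (Module.End ℂ K)ᵐᵒᵖ × DualNumber (Module.End ℂ K)

/-- the ambient ring carries the required operators -/
noncomputable def opsAmb (S : Setup K) : Ops S (Amb K) where
  aU := { toFun x := unop x.1.fst, map_add' _ _ := rfl, map_smul' _ _ := rfl }
  bU := { toFun x := unop x.1.snd, map_add' _ _ := rfl, map_smul' _ _ := rfl }
  aZ := { toFun x := x.2.fst, map_add' _ _ := rfl, map_smul' _ _ := rfl }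
  bZ := { toFun x := x.2.snd, map_add' _ _ := rfl, map_smul' _ _ := rfl }
  iota := ((inlAlgHom ℂ (Module.End ℂ K)ᵐᵒᵖ (Module.End ℂ K)ᵐᵒᵖ).comp
    ((Algebra.lmul ℂ K).toOpposite fun x y => (Commute.all x y).map _)).prod
      ((inlAlgHom ℂ (Module.End ℂ K) (Module.End ℂ K)).comp (Algebra.lmul ℂ K))
  TT i := (⟨op (S.tau (cc i)).toLinearMap, op (vU i • (S.tau (cc i)).toLinearMap)⟩,
    ⟨Complex.exp (cc i) • (S.tau (-cc i)).toLinearMap,
      vZ i • Complex.exp (cc i) • (S.tau (-cc i)).toLinearMap⟩)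
  aU_mul _ _ _ := rfl
  aZ_mul _ _ _ := rfl
  bU_mul _ _ _ := rfl
  bZ_mul _ _ _ := rfl
  ext _ _ h1 h2 h3 h4 :=
    Prod.ext (TrivSqZeroExt.ext (unop_injective (LinearMap.ext h1)) (unop_injective (LinearMap.ext h2)))
      (TrivSqZeroExt.ext (LinearMap.ext h3) (LinearMap.ext h4))
  isUnit _ h1 h2 := Prod.isUnit_iff.2
    ⟨isUnit_dual (isUnit_unop.1 ((Module.End.isUnit_iff _).2 h1)),
      isUnit_dual ((Module.End.isUnit_iff _).2 h2)⟩
  aU_iota _ _ := rfl
  aZ_iota _ _ := rfl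
  bU_iota _ _ := rfl
  bZ_iota _ _ := rfl
  aU_TT _ _ := rfl
  bU_TT _ _ := rfl
  aZ_TT _ _ := rfl
  bZ_TT _ _ := rfl

section Normal

variable {E : Type*} [Ring E]

lemma normL_closure {Λ : Subring E} {x y : E} (h : ∀ r ∈ Λ, ∃ r' ∈ Λ, x * r = r' * x)
    (hy : ∃ r' ∈ Subring.closure ((Λ : Set E) ∪ {y}), x * y = r' * x) :
    ∀ r ∈ Subring.closure ((Λ : Set E) ∪ {y}),
      ∃ r' ∈ Subring.closure ((Λ : Set E) ∪ {y}), x * r = r' * x := by
  intro r hr
  induction hr using Subring.closure_induction with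
  | mem r hr =>
    rcases hr with hr | rfl
    · obtain ⟨r', hr', h1⟩ := h r hr
      exact ⟨r', Subring.subset_closure (Or.inl hr'), h1⟩
    · exact hy
  | zero => exact ⟨0, Subring.zero_mem _, by simp⟩
  | one => exact ⟨1, Subring.one_mem _, by simp⟩
  | add a b _ _ ha hb =>
    obtain ⟨a', ha', h1⟩ := ha
    obtain ⟨b', hb', h2⟩ := hb
    exact ⟨a' + b', Subring.add_mem _ ha' hb', by rw [mul_add, add_mul, h1, h2]⟩
  | neg a _ ha =>
    obtain ⟨a', ha', h1⟩ := ha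
    exact ⟨-a', Subring.neg_mem _ ha', by rw [mul_neg, neg_mul, h1]⟩
  | mul a b _ _ ha hb =>
    obtain ⟨a', ha', h1⟩ := ha
    obtain ⟨b', hb', h2⟩ := hb
    exact ⟨a' * b', Subring.mul_mem _ ha' hb', by rw [← mul_assoc, h1, mul_assoc, h2, mul_assoc]⟩

lemma normR_closure {Λ : Subring E} {x y : E} (h : ∀ r ∈ Λ, ∃ r' ∈ Λ, r * x = x * r')
    (hy : ∃ r' ∈ Subring.closure ((Λ : Set E) ∪ {y}), y * x = x * r') :
    ∀ r ∈ Subring.closure ((Λ : Set E) ∪ {y}),
      ∃ r' ∈ Subring.closure ((Λ : Set E) ∪ {y}), r * x = x * r' := by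
  intro r hr
  induction hr using Subring.closure_induction with
  | mem r hr =>
    rcases hr with hr | rfl
    · obtain ⟨r', hr', h1⟩ := h r hr
      exact ⟨r', Subring.subset_closure (Or.inl hr'), h1⟩
    · exact hy
  | zero => exact ⟨0, Subring.zero_mem _, by simp⟩
  | one => exact ⟨1, Subring.one_mem _, by simp⟩
  | add a b _ _ ha hb =>
    obtain ⟨a', ha', h1⟩ := ha
    obtain ⟨b', hb', h2⟩ := hb
    exact ⟨a' + b', Subring.add_mem _ ha' hb', by rw [mul_add, add_mul, h1, h2]⟩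
  | neg a _ ha =>
    obtain ⟨a', ha', h1⟩ := ha
    exact ⟨-a', Subring.neg_mem _ ha', by rw [mul_neg, neg_mul, h1]⟩
  | mul a b _ _ ha hb =>
    obtain ⟨a', ha', h1⟩ := ha
    obtain ⟨b', hb', h2⟩ := hb
    exact ⟨a' * b', Subring.mul_mem _ ha' hb', by rw [mul_assoc, h2, ← mul_assoc, h1, mul_assoc]⟩

end Normal

end Pool.Agent.P.MP_049749_al
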