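import Pool.Agent.P.MP_049749_al.Fact

/-! The Borel transform, the substitutions `t ↦ t / (1 - c t)` and the Gevrey ring `K0`. -/

set_option autoImplicit false

namespace Pool.Agent.P.MP_049749_al

open PowerSeries
open scoped ENNReal NNReal Nat

/-- factorial weights -/
noncomputable def wN (R : ℝ≥0) (n : ℕ) : ℝ≥0∞ := (R : ℝ≥0∞) ^ n * ((n ! : ℕ) : ℝ≥0∞)⁻¹

lemma fact_ne_zero' (n : ℕ) : ((n ! : ℕ) : ℝ≥0∞) ≠ 0 := by exact_mod_cast n.factorial_ne_zero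

lemma wN_ne_top (R : ℝ≥0) (n : ℕ) : wN R n ≠ ⊤ :=
  ENNReal.mul_ne_top (ENNReal.pow_ne_top ENNReal.coe_ne_top) (ENNReal.inv_ne_top.2 (fact_ne_zero' n))

lemma wN_ne_zero {R : ℝ≥0} (hR : R ≠ 0) (n : ℕ) : wN R n ≠ 0 :=
  mul_ne_zero (pow_ne_zero _ (by exact_mod_cast hR)) (ENNReal.inv_ne_zero.2 (ENNReal.natCast_ne_top _))

lemma wN_mono {R R' : ℝ≥0} (h : R ≤ R') (n : ℕ) : wN R n ≤ wN R' n := by
  unfold wN; gcongr

lemma wN_add (R : ℝ≥0) (m n : ℕ) : wN R (m + n) ≤ wN R m * wN R n := by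
  unfold wN
  have h1 : ((m ! : ℕ) : ℝ≥0∞) * ((n ! : ℕ) : ℝ≥0∞) ≤ (((m + n)! : ℕ) : ℝ≥0∞) := by
    exact_mod_cast Nat.le_of_dvd (Nat.factorial_pos _) (Nat.factorial_mul_factorial_dvd_factorial_add m n)
  have h2 : (((m + n)! : ℕ) : ℝ≥0∞)⁻¹ ≤ ((m ! : ℕ) : ℝ≥0∞)⁻¹ * ((n ! : ℕ) : ℝ≥0∞)⁻¹ := by
    rw [← ENNReal.mul_inv (Or.inl (fact_ne_zero' m)) (Or.inl (ENNReal.natCast_ne_top _))]
    exact ENNReal.inv_le_inv.2 h1
  calc (R : ℝ≥0∞) ^ (m + n) * (((m + n)! : ℕ) : ℝ≥0∞)⁻¹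
      ≤ (R : ℝ≥0∞) ^ (m + n) * (((m ! : ℕ) : ℝ≥0∞)⁻¹ * ((n ! : ℕ) : ℝ≥0∞)⁻¹) := by gcongr
    _ = _ := by rw [pow_add]; ring

lemma wN_succ (R : ℝ≥0) (n : ℕ) : wN R (n + 1) = (R : ℝ≥0∞) * ((n + 1 : ℕ) : ℝ≥0∞)⁻¹ * wN R n := by
  unfold wN
  rw [Nat.factorial_succ, Nat.cast_mul,
    ENNReal.mul_inv (Or.inr (ENNReal.natCast_ne_top _)) (Or.inl (ENNReal.natCast_ne_top _)), pow_succ]
  ring

/-- the Borel transform -/
noncomputable def bor : PS ≃ₗ[ℂ] PS where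
  toFun u := mk fun n => coeff n u / (n ! : ℂ)
  invFun a := mk fun n => (n ! : ℂ) * coeff n a
  map_add' u v := by ext n; simp [add_div]
  map_smul' c u := by ext n; simp [mul_div_assoc]
  left_inv u := by
    ext n
    have : (n ! : ℂ) ≠ 0 := by exact_mod_cast n.factorial_ne_zero
    simp only [coeff_mk]
    field_simp
  right_inv u := by
    ext n
    have : (n ! : ℂ) ≠ 0 := by exact_mod_cast n.factorial_ne_zero
    simp only [coeff_mk]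
    field_simp

lemma coeff_bor (u : PS) (n : ℕ) : coeff n (bor u) = coeff n u / (n ! : ℂ) :=
  coeff_mk n fun n => coeff n u / (n ! : ℂ)

lemma coeff_bor_symm (u : PS) (n : ℕ) : coeff n (bor.symm u) = (n ! : ℂ) * coeff n u :=
  coeff_mk n fun n => (n ! : ℂ) * coeff n u

lemma wn_bor (R : ℝ≥0) (u : PS) : wn (wW R) (bor u) = wn (wN R) u := by
  refine tsum_congr fun n => ?_
  rw [coeff_bor, wW, wN, div_eq_mul_inv, enorm_mul, enorm_inv (by exact_mod_cast n.factorial_ne_zero)]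
  have : ‖(n ! : ℂ)‖ₑ = ((n ! : ℕ) : ℝ≥0∞) := by
    rw [← ofReal_norm, Complex.norm_natCast, ENNReal.ofReal_natCast]
  rw [this]
  ring

lemma wn_bor_symm (R : ℝ≥0) (a : PS) : wn (wN R) (bor.symm a) = wn (wW R) a := by
  rw [← wn_bor, LinearEquiv.apply_symm_apply]

lemma Low.bor {n : ℕ} {u : PS} (h : Low n u) : Low n (bor u) := fun m hm => by
  rw [coeff_bor, h m hm, zero_div]

lemma Low.bor_symm {n : ℕ} {u : PS} (h : Low n u) : Low n (P.MP_049749_al.bor.symm u) :=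
  fun m hm => by rw [coeff_bor_symm, h m hm, mul_zero]

/-- multiplication by `P` on the Borel side -/
noncomputable def pop (P : PS) : PS →ₗ[ℂ] PS :=
  bor.symm.toLinearMap ∘ₗ LinearMap.mulLeft ℂ P ∘ₗ bor.toLinearMap

lemma pop_apply (P u : PS) : pop P u = bor.symm (P * bor u) := rfl

lemma bor_pop (P u : PS) : bor (pop P u) = P * bor u := by
  rw [pop_apply, LinearEquiv.apply_symm_apply]

lemma lowTri_pop (P : PS) : LowTri (pop P) := fun _ _ hu => (hu.bor.mul_left P).bor_symm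

lemma wn_pop_le (R : ℝ≥0) (P u : PS) : wn (wN R) (pop P u) ≤ wn (wW R) P * wn (wN R) u := by
  rw [pop_apply, wn_bor_symm, ← wn_bor]
  exact wn_mul_le (wW_add R) _ _

lemma pop_pop (P Q u : PS) : pop P (pop Q u) = pop (P * Q) u := by
  rw [pop_apply, bor_pop, pop_apply, mul_assoc]

lemma pop_one (u : PS) : pop 1 u = u := by rw [pop_apply, one_mul, LinearEquiv.symm_apply_apply]

lemma pop_sum {ι : Type*} (s : Finset ι) (γ : ι → ℂ) (P : ι → PS) (u : PS) :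
    pop (∑ i ∈ s, γ i • P i) u = ∑ i ∈ s, γ i • pop (P i) u := by
  rw [pop_apply, Finset.sum_mul, map_sum]
  refine Finset.sum_congr rfl fun i _ => ?_
  rw [smul_mul_assoc, map_smul, pop_apply]

lemma wn_X_mul_le (R : ℝ≥0) {M : ℕ} {u : PS} (hu : Low M u) :
    wn (wN R) (X * u) ≤ (R : ℝ≥0∞) * ((M + 1 : ℕ) : ℝ≥0∞)⁻¹ * wn (wN R) u := by
  unfold wn
  rw [tsum_eq_zero_add' ENNReal.summable (f := fun n => ‖coeff n (X * u)‖ₑ * wN R n),
    ← ENNReal.tsum_mul_left]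
  have h0 : coeff 0 (X * u) = 0 := by simp
  rw [h0, enorm_zero, zero_mul, zero_add]
  refine ENNReal.tsum_le_tsum fun n => ?_
  rw [coeff_succ_X_mul, wN_succ]
  by_cases hn : n < M
  · rw [hu n hn]; simp
  · have h1 : ((n + 1 : ℕ) : ℝ≥0∞)⁻¹ ≤ ((M + 1 : ℕ) : ℝ≥0∞)⁻¹ :=
      ENNReal.inv_le_inv.2 (by exact_mod_cast (by omega : M + 1 ≤ n + 1))
    calc ‖coeff n u‖ₑ * ((R : ℝ≥0∞) * ((n + 1 : ℕ) : ℝ≥0∞)⁻¹ * wN R n)
        ≤ ‖coeff n u‖ₑ * ((R : ℝ≥0∞) * ((M + 1 : ℕ) : ℝ≥0∞)⁻¹ * wN R n) := by gcongr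
      _ = _ := by ring

lemma wn_sh_ne_top {R R' : ℝ≥0} (h : R' < R) {u : PS} (hu : wn (wN R) u ≠ ⊤) :
    wn (wN R') (sh u) ≠ ⊤ := by
  have hR : (0 : ℝ) < R := lt_of_le_of_lt R'.2 h
  obtain ⟨K, hK⟩ : ∃ K : ℝ≥0, ∀ n : ℕ, ((n + 1 : ℕ) : ℝ≥0) * R' ^ n ≤ K * R ^ (n + 1) := by
    have h1 : ‖(R' : ℝ) / R‖ < 1 := by
      rw [Real.norm_of_nonneg (by positivity), div_lt_one hR]; exact h
    have h2 := (summable_pow_mul_geometric_of_norm_lt_one 1 h1).add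
      (summable_geometric_of_norm_lt_one h1)
    obtain ⟨B, hB⟩ := h2.tendsto_atTop_zero.bddAbove_range
    have hB0 : 0 ≤ B := le_trans (by simp) (hB ⟨0, rfl⟩)
    refine ⟨⟨B / R, by positivity⟩, fun n => ?_⟩
    rw [← NNReal.coe_le_coe]
    have h3 : (n : ℝ) ^ 1 * ((R' : ℝ) / R) ^ n + ((R' : ℝ) / R) ^ n ≤ B := hB ⟨n, rfl⟩
    rw [pow_one, div_pow, ← add_one_mul, ← mul_div_assoc, div_le_iff₀ (by positivity)] at h3
    push_cast
    calc ((n : ℝ) + 1) * (R' : ℝ) ^ n ≤ B * (R : ℝ) ^ n := h3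
      _ = B / R * (R : ℝ) ^ (n + 1) := by rw [pow_succ]; field_simp
  refine ne_top_of_le_ne_top (ENNReal.mul_ne_top (ENNReal.coe_ne_top (r := K)) hu) ?_
  unfold wn
  rw [tsum_eq_zero_add' ENNReal.summable (f := fun n => ‖coeff n u‖ₑ * wN R n), mul_add,
    ← ENNReal.tsum_mul_left]
  refine le_add_left (ENNReal.tsum_le_tsum fun n => ?_)
  rw [coeff_sh]
  have h4 : wN R' n ≤ K * wN R (n + 1) := by
    have h5 : ((n + 1 : ℕ) : ℝ≥0∞) * (R' : ℝ≥0∞) ^ n ≤ K * (R : ℝ≥0∞) ^ (n + 1) := by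
      exact_mod_cast hK n
    unfold wN
    rw [Nat.factorial_succ, Nat.cast_mul,
      ENNReal.mul_inv (Or.inr (ENNReal.natCast_ne_top _)) (Or.inl (ENNReal.natCast_ne_top _))]
    have h6 : ((n + 1 : ℕ) : ℝ≥0∞)⁻¹ * ((n + 1 : ℕ) : ℝ≥0∞) = 1 :=
      ENNReal.inv_mul_cancel (by simp) (ENNReal.natCast_ne_top _)
    calc (R' : ℝ≥0∞) ^ n * ((n ! : ℕ) : ℝ≥0∞)⁻¹
        = (((n + 1 : ℕ) : ℝ≥0∞) * (R' : ℝ≥0∞) ^ n) * ((n + 1 : ℕ) : ℝ≥0∞)⁻¹ * ((n ! : ℕ) : ℝ≥0∞)⁻¹ := by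
          rw [mul_comm ((n + 1 : ℕ) : ℝ≥0∞), mul_assoc _ ((n + 1 : ℕ) : ℝ≥0∞),
            mul_comm ((n + 1 : ℕ) : ℝ≥0∞), h6, mul_one]
      _ ≤ (K * (R : ℝ≥0∞) ^ (n + 1)) * ((n + 1 : ℕ) : ℝ≥0∞)⁻¹ * ((n ! : ℕ) : ℝ≥0∞)⁻¹ := by gcongr
      _ = _ := by ring
  calc ‖coeff (n + 1) u‖ₑ * wN R' n ≤ ‖coeff (n + 1) u‖ₑ * (K * wN R (n + 1)) := by gcongr
    _ = _ := by ring

/-- the series `t / (1 - c t)` -/
noncomputable def aa (c : ℂ) : PS := X * rescale c (mk 1)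

lemma hasSubst_aa (c : ℂ) : HasSubst (aa c) :=
  HasSubst.of_constantCoeff_zero' (by simp [aa])

/-- the substitution `t ↦ t / (1 - c t)` -/
noncomputable def tau (c : ℂ) : PS →ₐ[ℂ] PS := substAlgHom (hasSubst_aa c)

lemma tau_X (c : ℂ) : tau c X = aa c := substAlgHom_X _

lemma tau_C (c a : ℂ) : tau c (C a) = C a := (tau c).commutes a

lemma one_sub_mul_tau_X (c : ℂ) : (1 - C c * X) * tau c X = X := by
  have h1 := congrArg (rescale c) (mk_one_mul_one_sub_eq_one ℂ)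
  rw [map_mul, map_sub, map_one, rescale_X] at h1
  rw [tau_X, aa]
  linear_combination X * h1

lemma LowTri.ext {S T : PS →ₗ[ℂ] PS} (hS : LowTri S) (hT : LowTri T)
    (h : ∀ k, S (X ^ k) = T (X ^ k)) (u : PS) : S u = T u := by
  ext n
  rw [hS.coeff_eq, hT.coeff_eq]
  exact Finset.sum_congr rfl fun m _ => by rw [h]

lemma lowTri_tau (c : ℂ) : LowTri (tau c).toLinearMap := by
  intro n u hu
  rw [low_iff] at hu ⊢
  obtain ⟨v, rfl⟩ := hu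
  rw [AlgHom.toLinearMap_apply, map_mul, map_pow, tau_X, aa, mul_pow, mul_assoc]
  exact dvd_mul_right _ _

lemma LowTri.comp {S T : PS →ₗ[ℂ] PS} (hS : LowTri S) (hT : LowTri T) : LowTri (S ∘ₗ T) :=
  fun n u hu => hS n _ (hT n u hu)

lemma pop_ex_X_pow (c : ℂ) (k : ℕ) :
    pop (ex c) (X ^ k) = X ^ k * rescale c ((mk 1 : PS) ^ (k + 1)) := by
  have h1 : bor (X ^ k) = ((k ! : ℂ))⁻¹ • (X : PS) ^ k := by
    ext n
    rw [coeff_bor, map_smul, coeff_X_pow]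
    split_ifs with h
    · rw [h]; simp
    · simp
  ext m
  rw [pop_apply, h1, coeff_bor_symm, mul_smul_comm, map_smul, mul_comm (ex c), coeff_X_pow_mul',
    coeff_X_pow_mul', mk_one_pow_eq_mk_choose_add]
  split_ifs with h
  · rw [coeff_rescale, coeff_mk, coeff_ex, Nat.add_sub_cancel' h, Nat.cast_choose ℂ h, smul_eq_mul]
    have h2 : (k ! : ℂ) ≠ 0 := by exact_mod_cast k.factorial_ne_zero
    have h3 : ((m - k)! : ℂ) ≠ 0 := by exact_mod_cast (m - k).factorial_ne_zero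
    field_simp
  · simp

lemma tau_X_mul (c : ℂ) (w : PS) : tau c (X * w) = X * pop (ex c) w := by
  refine LowTri.ext ((lowTri_tau c).comp (lowTri_mul X)) ((lowTri_mul X).comp (lowTri_pop (ex c)))
    (fun k => ?_) w
  change tau c (X * X ^ k) = X * pop (ex c) (X ^ k)
  rw [pop_ex_X_pow, ← pow_succ', map_pow, tau_X, aa, mul_pow, map_pow, ← mul_assoc, ← pow_succ']

lemma tau_eq (c : ℂ) (u : PS) : tau c u = X * pop (ex c) (sh u) + C (constantCoeff u) := by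
  conv_lhs => rw [eq_X_mul_sh u]
  rw [map_add, tau_X_mul, tau_C]

lemma tau_tau (c d : ℂ) (u : PS) : tau c (tau d u) = tau (c + d) u := by
  rw [tau_eq d u, map_add, tau_X_mul, tau_C, pop_pop, ex_mul_ex, tau_eq (c + d) u]

lemma tau_zero (u : PS) : tau 0 u = u := by
  rw [tau_eq, ex_zero, pop_one, ← eq_X_mul_sh]

lemma sh_tau (c : ℂ) (u : PS) : sh (tau c u) = pop (ex c) (sh u) := by
  ext n
  rw [tau_eq, coeff_sh, map_add, coeff_succ_X_mul, coeff_C, if_neg (by omega), add_zero]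

/-- The Gevrey ring: series whose Borel transform converges on a disc of radius `> 1`. -/
noncomputable def K0 : Subalgebra ℂ PS where
  carrier := {u | ∃ R : ℝ≥0, 1 < R ∧ wn (wN R) u ≠ ⊤}
  mul_mem' := by
    rintro u v ⟨R, hR, hu⟩ ⟨R', hR', hv⟩
    refine ⟨min R R', lt_min hR hR', ne_top_of_le_ne_top (ENNReal.mul_ne_top
      (ne_top_of_le_ne_top hu (wn_mono (wN_mono (min_le_left _ _)) u))
      (ne_top_of_le_ne_top hv (wn_mono (wN_mono (min_le_right _ _)) v))) (wn_mul_le (wN_add _) u v)⟩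
  add_mem' := by
    rintro u v ⟨R, hR, hu⟩ ⟨R', hR', hv⟩
    exact ⟨min R R', lt_min hR hR', wn_add_ne_top
      (ne_top_of_le_ne_top hu (wn_mono (wN_mono (min_le_left _ _)) u))
      (ne_top_of_le_ne_top hv (wn_mono (wN_mono (min_le_right _ _)) v))⟩
  algebraMap_mem' c := ⟨2, one_lt_two, wn_ne_top_of_high (wN_ne_top 2) (M := 1) fun n hn => by
    change coeff n (C c) = 0
    rw [coeff_C, if_neg (by omega)]⟩

lemma mem_K0 {u : PS} : u ∈ K0 ↔ ∃ R : ℝ≥0, 1 < R ∧ wn (wN R) u ≠ ⊤ := Iff.rfl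

lemma mem_K0_of_high {u : PS} {M : ℕ} (h : ∀ n, M ≤ n → coeff n u = 0) : u ∈ K0 :=
  ⟨2, one_lt_two, wn_ne_top_of_high (wN_ne_top 2) h⟩

lemma X_mem_K0 : (X : PS) ∈ K0 :=
  mem_K0_of_high (M := 2) fun n hn => by rw [coeff_X, if_neg (by omega)]

lemma C_mem_K0 (c : ℂ) : (C c : PS) ∈ K0 := K0.algebraMap_mem c

lemma sh_mem_K0 {u : PS} (hu : u ∈ K0) : sh u ∈ K0 := by
  obtain ⟨R, hR, h⟩ := hu
  obtain ⟨R', h1, h2⟩ := exists_between hR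
  exact ⟨R', h1, wn_sh_ne_top h2 h⟩

lemma pop_ex_mem_K0 (c : ℂ) {u : PS} (hu : u ∈ K0) : pop (ex c) u ∈ K0 := by
  obtain ⟨R, hR, h⟩ := hu
  exact ⟨R, hR, ne_top_of_le_ne_top (ENNReal.mul_ne_top (wnW_ex_ne_top R c) h) (wn_pop_le R _ u)⟩

lemma tau_mem_K0 (c : ℂ) {u : PS} (hu : u ∈ K0) : tau c u ∈ K0 := by
  rw [tau_eq]
  exact K0.add_mem (K0.mul_mem X_mem_K0 (pop_ex_mem_K0 c (sh_mem_K0 hu))) (C_mem_K0 _)

lemma exists_common_radius {ι : Type*} (s : Finset ι) (h : ι → PS) (hh : ∀ i ∈ s, h i ∈ K0)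
    {ρ : ℝ≥0} (hρ : 1 < ρ) : ∃ R : ℝ≥0, 1 < R ∧ R < ρ ∧ ∀ i ∈ s, wn (wN R) (h i) ≠ ⊤ := by
  classical
  induction s using Finset.induction_on with
  | empty =>
    obtain ⟨R, h1, h2⟩ := exists_between hρ
    exact ⟨R, h1, h2, by simp⟩
  | insert a s ha ih =>
    obtain ⟨R, h1, h2, h3⟩ := ih fun i hi => hh i (Finset.mem_insert_of_mem hi)
    obtain ⟨R', h4, h5⟩ := hh a (Finset.mem_insert_self _ _)
    refine ⟨min R R', lt_min h1 h4, lt_of_le_of_lt (min_le_left _ _) h2, fun i hi => ?_⟩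
    rcases Finset.mem_insert.1 hi with rfl | hi
    · exact ne_top_of_le_ne_top h5 (wn_mono (wN_mono (min_le_right _ _)) _)
    · exact ne_top_of_le_ne_top (h3 i hi) (wn_mono (wN_mono (min_le_left _ _)) _)

end Pool.Agent.P.MP_049749_al
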