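import Pool.Agent.P.MP_049749_al.Wiener

/-! Factorisation of exponential polynomials near the closed unit disc. -/

set_option autoImplicit false

namespace Pool.Agent.P.MP_049749_al

open PowerSeries Filter Topology
open scoped ENNReal NNReal Nat

lemma wnW_ne_top_of_summable {R : ℝ≥0} {a : PS} (h : Summable fun n => ‖coeff n a‖ * (R : ℝ) ^ n) :
    wn (wW R) a ≠ ⊤ := by
  have h1 : Summable fun n => ‖‖coeff n a‖ * (R : ℝ) ^ n‖ :=
    h.congr fun n => (Real.norm_of_nonneg (by positivity)).symm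
  refine ne_of_eq_of_ne (tsum_congr fun n => ?_) (tsum_enorm_ne_top_iff_summable_norm.2 h1)
  rw [enorm_mul, enorm_norm, enorm_pow, wW, NNReal.enorm_eq]

lemma eq_zero_of_frequently {a : PS} (ha : wn (wW 1) a ≠ ⊤)
    (h : ∃ᶠ z in 𝓝[≠] (0 : ℂ), ev z a = 0) : a = 0 := by
  let p := FormalMultilinearSeries.ofScalars ℂ (fun n => coeff n a)
  have h1 : ((1 : ℝ≥0) : ℝ≥0∞) ≤ p.radius := by
    refine p.le_radius_of_summable ?_
    have := summable_norm_ev (z := 1) (R := 1) (by simp) ha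
    refine this.congr fun n => ?_
    simp [p]
  have h2 : 0 < p.radius := lt_of_lt_of_le (by simp) h1
  have h3 := (p.hasFPowerSeriesOnBall h2).hasFPowerSeriesAt
  have h4 : p.sum = fun z => ev z a := by
    funext z
    exact FormalMultilinearSeries.ofScalars_sum_eq (fun n => coeff n a) z
  rw [h4] at h3
  have h5 := h3.locally_zero_iff.1 (h3.analyticAt.frequently_zero_iff_eventually_zero.1 h)
  have h6 := (FormalMultilinearSeries.ofScalars_series_eq_zero ℂ).1 h5
  ext n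
  exact congrFun h6 n

lemma expsum_ne_zero {ι : Type*} (s : Finset ι) (lam γ : ι → ℂ) (hinj : Function.Injective lam)
    (hγ : ∃ i ∈ s, γ i ≠ 0) : ∃ z : ℂ, ∑ i ∈ s, γ i * Complex.exp (lam i * z) ≠ 0 := by
  by_contra hc
  push Not at hc
  let χ : ι → (Multiplicative ℂ →* ℂ) := fun i =>
    { toFun := fun z => Complex.exp (lam i * Multiplicative.toAdd z)
      map_one' := by simp
      map_mul' := fun x y => by rw [toAdd_mul, mul_add, Complex.exp_add] }
  have hχ : Function.Injective χ := by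
    intro i j hij
    apply hinj
    have h1 : (fun z : ℂ => Complex.exp (lam i * z)) = fun z => Complex.exp (lam j * z) := by
      funext z
      exact DFunLike.congr_fun hij (Multiplicative.ofAdd z)
    have h2 : ∀ c : ℂ, HasDerivAt (fun z : ℂ => Complex.exp (c * z)) c 0 := by
      intro c
      have := ((hasDerivAt_id (0 : ℂ)).const_mul c).cexp
      simpa using this
    have h3 := h2 (lam i)
    rw [h1] at h3
    exact h3.unique (h2 _)
  have hli := (linearIndependent_monoidHom (Multiplicative ℂ) ℂ).comp χ hχ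
  obtain ⟨i, hi, hne⟩ := hγ
  refine hne (linearIndependent_iff'.1 hli s γ ?_ i hi)
  funext z
  rw [Finset.sum_apply]
  exact hc (Multiplicative.toAdd z)

lemma ev_prod_pow {z : ℂ} {R : ℝ≥0} (hz : ‖z‖₊ ≤ R) (t : Finset ℂ) (n : ℂ → ℕ) :
    wn (wW R) (∏ u ∈ t, (X - C u) ^ n u) ≠ ⊤ ∧
      ev z (∏ u ∈ t, (X - C u) ^ n u) = ∏ u ∈ t, (z - u) ^ n u := by
  classical
  have h1 : wn (wW R) 1 ≠ ⊤ ∧ ev z 1 = 1 := by
    have := wnW_C_ne_top R 1
    have h2 := ev_C z 1
    rw [map_one] at this h2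
    exact ⟨this, h2⟩
  have hp : ∀ (u : ℂ) (k : ℕ), wn (wW R) ((X - C u) ^ k) ≠ ⊤ ∧ ev z ((X - C u) ^ k) = (z - u) ^ k := by
    intro u k
    have hXC : wn (wW R) (X - C u) ≠ ⊤ := wn_sub_ne_top (wnW_X_ne_top R) (wnW_C_ne_top R u)
    induction k with
    | zero => simpa using h1
    | succ k ih =>
      rw [pow_succ, pow_succ, ev_mul hz ih.1 hXC, ih.2,
        ev_sub hz (wnW_X_ne_top R) (wnW_C_ne_top R u), ev_X, ev_C]
      exact ⟨wnW_mul_ne_top ih.1 hXC, rfl⟩
  induction t using Finset.induction_on with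
  | empty => simpa using h1
  | insert a t ha ih =>
    rw [Finset.prod_insert ha, Finset.prod_insert ha, ev_mul hz (hp _ _).1 ih.1, ih.2, (hp _ _).2]
    exact ⟨wnW_mul_ne_top (hp _ _).1 ih.1, rfl⟩

theorem exists_fact {ι : Type*} (s : Finset ι) (lam γ : ι → ℂ) (hinj : Function.Injective lam)
    (hγ : ∃ i ∈ s, γ i ≠ 0) :
    ∃ ρ : ℝ≥0, 1 < ρ ∧ ∃ p v : PS, (∑ i ∈ s, γ i • ex (lam i)) * v = p ∧
      ∀ R : ℝ≥0, 1 < R → R < ρ → Div R p ∧ wn (wW R) v ≠ ⊤ := by
  classical
  set f : ℂ → ℂ := fun z => ∑ i ∈ s, γ i * Complex.exp (lam i * z) with hf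
  have hfa : AnalyticOnNhd ℂ f Set.univ := by
    have : Differentiable ℂ f := by
      rw [hf]
      fun_prop
    exact fun z _ => this.analyticAt z
  set U : Set ℂ := Metric.closedBall 0 1 with hU
  have hfU : AnalyticOnNhd ℂ f U := hfa.mono (Set.subset_univ _)
  have hord : ∀ u : U, meromorphicOrderAt f u ≠ ⊤ := by
    intro u hu
    rw [meromorphicOrderAt_eq_top_iff] at hu
    have := hfa.eqOn_zero_of_preconnected_of_frequently_eq_zero isPreconnected_univ
      (Set.mem_univ (u : ℂ)) hu.frequently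
    obtain ⟨z, hz⟩ := expsum_ne_zero s lam γ hinj hγ
    exact hz (this (Set.mem_univ z))
  have hfin := (MeromorphicOn.divisor f U).finiteSupport (isCompact_closedBall 0 1)
  obtain ⟨g, hg1, hg2, hg3⟩ := hfU.meromorphicOn.extract_zeros_poles hord hfin
  have hnn := MeromorphicOn.AnalyticOnNhd.divisor_nonneg hfU
  set D := MeromorphicOn.divisor f U with hD
  -- the inverse of `g`
  have hinv : U ⊆ {z | AnalyticAt ℂ (fun z => (g z)⁻¹) z} := fun z hz =>
    (hg1 z hz).inv (hg2 ⟨z, hz⟩)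
  obtain ⟨δ, hδ, hδU⟩ := (isCompact_closedBall (0 : ℂ) 1).exists_cthickening_subset_open
    (isOpen_analyticAt ℂ _) hinv
  rw [cthickening_closedBall hδ.le zero_le_one] at hδU
  set ρ : ℝ≥0 := ⟨δ + 1, by positivity⟩ with hρ
  have hρ1 : 1 < ρ := by
    rw [← NNReal.coe_lt_coe]
    change (1 : ℝ) < δ + 1
    linarith
  have hdiff : DifferentiableOn ℂ (fun z => (g z)⁻¹) (Metric.closedBall 0 ρ) := fun z hz =>
    (hδU hz).differentiableAt.differentiableWithinAt
  have hps := hdiff.hasFPowerSeriesOnBall (lt_trans zero_lt_one hρ1)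
  set q := cauchyPowerSeries (fun z => (g z)⁻¹) 0 ρ with hq
  let v : PS := mk fun n => q.coeff n
  have hv : ∀ R : ℝ≥0, R < ρ → wn (wW R) v ≠ ⊤ := by
    intro R hR
    refine wnW_ne_top_of_summable ?_
    have := q.summable_norm_mul_pow (r := R) (lt_of_lt_of_le (ENNReal.coe_lt_coe.2 hR) hps.r_le)
    refine this.congr fun n => ?_
    rw [FormalMultilinearSeries.norm_apply_eq_norm_coef, coeff_mk]
  have hev : ∀ z : ℂ, ‖z‖₊ ≤ 1 → ev z v = (g z)⁻¹ := by
    intro z hz
    have h1 : z ∈ Metric.eball (0 : ℂ) ρ := by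
      rw [Metric.mem_eball, edist_zero_right]
      exact ENNReal.coe_lt_coe.2 (lt_of_le_of_lt hz hρ1)
    have h2 := hps.hasSum h1
    rw [zero_add] at h2
    rw [← h2.tsum_eq]
    refine tsum_congr fun n => ?_
    rw [FormalMultilinearSeries.apply_eq_pow_smul_coeff, coeff_mk, smul_eq_mul, mul_comm]
  let t : Finset ℂ := hfin.toFinset
  let p : PS := ∏ u ∈ t, (X - C u) ^ (D u).toNat
  refine ⟨ρ, hρ1, p, v, ?_, fun R hR1 hR2 => ⟨?_, hv R hR2⟩⟩
  · rw [← sub_eq_zero]
    have hP : wn (wW 1) (∑ i ∈ s, γ i • ex (lam i)) ≠ ⊤ :=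
      wn_sum_ne_top _ _ fun i _ => wn_smul_ne_top _ (wnW_ex_ne_top _ _)
    have hp1 : wn (wW 1) p ≠ ⊤ := (ev_prod_pow (z := 0) (by simp) t _).1
    refine eq_zero_of_frequently (wn_sub_ne_top (wnW_mul_ne_top hP (hv 1 hρ1)) hp1) ?_
    have h1 := mem_codiscreteWithin_iff_forall_mem_nhdsNE.1 hg3 0 (by simp [hU])
    have h2 : U ∈ 𝓝[≠] (0 : ℂ) := mem_nhdsWithin_of_mem_nhds (Metric.closedBall_mem_nhds 0 one_pos)
    refine Filter.Eventually.frequently ?_
    filter_upwards [h1, h2] with z hz1 hz2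
    have hz : ‖z‖₊ ≤ 1 := by
      rw [hU, mem_closedBall_zero_iff] at hz2
      exact_mod_cast hz2
    rcases hz1 with hz1 | hz1
    swap
    · exact absurd hz2 hz1
    have h3 : (∏ᶠ u, (fun x : ℂ => x - u) ^ D u) = ∏ u ∈ t, (fun x : ℂ => x - u) ^ D u := by
      refine finprod_eq_prod_of_mulSupport_subset _ fun u hu => ?_
      rw [Finset.mem_coe, Set.Finite.mem_toFinset]
      intro h0
      exact hu (by simp only [h0, zpow_zero])
    have h4 : f z = (∏ u ∈ t, (z - u) ^ (D u).toNat) * g z := by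
      rw [Set.mem_ofPred_eq, h3] at hz1
      rw [hz1, Pi.smul_apply', Finset.prod_apply, smul_eq_mul]
      congr 1
      refine Finset.prod_congr rfl fun u _ => ?_
      rw [Pi.pow_apply, ← zpow_natCast, Int.toNat_of_nonneg (hnn u)]
    rw [ev_sub hz (wnW_mul_ne_top hP (hv 1 hρ1)) hp1, ev_mul hz hP (hv 1 hρ1), hev z hz,
      (ev_prod_pow hz t _).2, ev_sum hz _ _ fun i _ => wn_smul_ne_top _ (wnW_ex_ne_top _ _)]
    simp_rw [ev_smul, ev_ex]
    change f z * _ - _ = 0
    rw [h4, mul_assoc, mul_inv_cancel₀ (hg2 ⟨z, hz2⟩), mul_one, sub_self]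
  · refine Finset.prod_induction _ (Div R) (fun a b ha hb => ha.mul hb) (div_one R) fun u hu => ?_
    refine (div_X_sub_C ?_).pow _
    have h1 : u ∈ U := D.supportWithinDomain (hfin.mem_toFinset.1 hu)
    rw [hU, mem_closedBall_zero_iff] at h1
    have h2 : ‖u‖₊ ≤ 1 := by exact_mod_cast h1
    exact lt_of_le_of_lt h2 hR1

end Pool.Agent.P.MP_049749_al
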