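import Pool.Agent.P.MP_049749_al.Borel

/-! Difference operators on the Gevrey ring have cofinite range; Volterra operators are onto. -/

set_option autoImplicit false

namespace Pool.Agent.P.MP_049749_al

open PowerSeries
open scoped ENNReal NNReal Nat

section PSlevel

variable {ι : Type*}

/-- the operator `w ↦ X * ∑ h i * (exp (lam i ξ) ⊙ w)` -/
noncomputable def vol (s : Finset ι) (h : ι → PS) (lam : ι → ℂ) : PS →ₗ[ℂ] PS :=
  LinearMap.mulLeft ℂ X ∘ₗ ∑ i ∈ s, LinearMap.mulLeft ℂ (h i) ∘ₗ pop (ex (lam i))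

lemma vol_apply (s : Finset ι) (h : ι → PS) (lam : ι → ℂ) (w : PS) :
    vol s h lam w = X * ∑ i ∈ s, h i * pop (ex (lam i)) w := by
  simp [vol, Finset.mul_sum]

lemma low_sum {n : ℕ} (s : Finset ι) (f : ι → PS) (h : ∀ i ∈ s, Low n (f i)) :
    Low n (∑ i ∈ s, f i) := fun m hm => by
  rw [map_sum]
  exact Finset.sum_eq_zero fun i hi => h i hi m hm

lemma low_vol (s : Finset ι) (h : ι → PS) (lam : ι → ℂ) {n : ℕ} {w : PS} (hw : Low n w) :
    Low (n + 1) (vol s h lam w) := by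
  rw [vol_apply]
  exact (low_sum s _ fun i _ => (lowTri_pop _ n w hw).mul_left _).X_mul

lemma lowTri_vol (s : Finset ι) (h : ι → PS) (lam : ι → ℂ) : LowTri (vol s h lam) :=
  fun n _ hw => (low_vol s h lam hw).mono (Nat.le_succ n)

lemma wn_vol_le (R : ℝ≥0) (s : Finset ι) (h : ι → PS) (lam : ι → ℂ) {M : ℕ} {w : PS}
    (hw : Low M w) : wn (wN R) (vol s h lam w) ≤
      ((R : ℝ≥0∞) * (∑ i ∈ s, wn (wN R) (h i) * wn (wW R) (ex (lam i))) *
        ((M + 1 : ℕ) : ℝ≥0∞)⁻¹) * wn (wN R) w := by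
  rw [vol_apply]
  refine (wn_X_mul_le R (low_sum s _ fun i _ => (lowTri_pop _ M w hw).mul_left _)).trans ?_
  have h1 : wn (wN R) (∑ i ∈ s, h i * pop (ex (lam i)) w) ≤
      (∑ i ∈ s, wn (wN R) (h i) * wn (wW R) (ex (lam i))) * wn (wN R) w := by
    rw [Finset.sum_mul]
    refine (wn_sum_le _ _).trans (Finset.sum_le_sum fun i _ => ?_)
    refine (wn_mul_le (wN_add R) _ _).trans ?_
    rw [mul_assoc]
    gcongr
    exact wn_pop_le R _ _
  calc _ ≤ (R : ℝ≥0∞) * ((M + 1 : ℕ) : ℝ≥0∞)⁻¹ *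
      ((∑ i ∈ s, wn (wN R) (h i) * wn (wW R) (ex (lam i))) * wn (wN R) w) := by gcongr
    _ = _ := by ring

lemma low_zero (u : PS) : Low 0 u := fun _ hm => absurd hm (Nat.not_lt_zero _)

lemma wn_vol_ne_top {R : ℝ≥0} (s : Finset ι) {h : ι → PS} (lam : ι → ℂ)
    (hh : ∀ i ∈ s, wn (wN R) (h i) ≠ ⊤) {w : PS} (hw : wn (wN R) w ≠ ⊤) :
    wn (wN R) (vol s h lam w) ≠ ⊤ := by
  refine ne_top_of_le_ne_top ?_ (wn_vol_le R s h lam (low_zero w))
  refine ENNReal.mul_ne_top (ENNReal.mul_ne_top (ENNReal.mul_ne_top ENNReal.coe_ne_top ?_) ?_) hw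
  · exact ENNReal.sum_ne_top.2 fun i hi => ENNReal.mul_ne_top (hh i hi) (wnW_ex_ne_top _ _)
  · simp

lemma core {R : ℝ≥0} (hR : R ≠ 0) (s : Finset ι) {h : ι → PS} (lam : ι → ℂ)
    (hh : ∀ i ∈ s, wn (wN R) (h i) ≠ ⊤) {P p v : PS} (hpv : P * v = p) (hv : wn (wW R) v ≠ ⊤)
    {ν : ℕ} {K : ℝ≥0∞} (hK : K ≠ ⊤)
    (hd : ∀ (M : ℕ) (F : PS), wn (wW R) F ≠ ⊤ →
      ∃ g, Low M g ∧ wn (wW R) g ≤ K * wn (wW R) F ∧
        ∀ n, M + ν ≤ n → coeff n (p * g) = coeff n F) :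
    ∃ M : ℕ, ∀ F : PS, wn (wN R) F ≠ ⊤ → ∃ g, Low M g ∧ wn (wN R) g ≠ ⊤ ∧
      ∀ n, M + ν ≤ n → coeff n ((pop P + vol s h lam) g) = coeff n F := by
  set A : ℝ≥0∞ := (R : ℝ≥0∞) * (∑ i ∈ s, wn (wN R) (h i) * wn (wW R) (ex (lam i))) with hA
  have hA' : A ≠ ⊤ := ENNReal.mul_ne_top ENNReal.coe_ne_top
    (ENNReal.sum_ne_top.2 fun i hi => ENNReal.mul_ne_top (hh i hi) (wnW_ex_ne_top _ _))
  have hC : wn (wW R) v * K ≠ ⊤ := ENNReal.mul_ne_top hv hK
  obtain ⟨M, hM⟩ := ENNReal.exists_nat_gt (ENNReal.mul_ne_top hA' hC)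
  have hε : A * ((M + 1 : ℕ) : ℝ≥0∞)⁻¹ * (wn (wW R) v * K) < 1 := by
    rw [mul_right_comm, ← div_eq_mul_inv,
      ENNReal.div_lt_iff (Or.inl (by simp)) (Or.inl (ENNReal.natCast_ne_top _)), one_mul]
    exact hM.trans_le (by exact_mod_cast Nat.le_succ M)
  refine ⟨M, fun F hF => ?_⟩
  obtain ⟨g, h1, h2, h3⟩ := surj_of_perturb (wN_ne_zero hR) (lowTri_pop P) (lowTri_vol s h lam)
    (M := M) (M' := M + ν) hC hε (fun G hG => by
      obtain ⟨g, h1, h2, h3⟩ := hd M (bor G) (by rwa [wn_bor])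
      refine ⟨bor.symm (v * g), (h1.mul_left v).bor_symm, ?_, fun n hn => ?_⟩
      · rw [wn_bor_symm, ← wn_bor, mul_assoc]
        exact (wn_mul_le (wW_add R) _ _).trans (by gcongr)
      · rw [pop_apply, LinearEquiv.apply_symm_apply, ← mul_assoc, hpv, coeff_bor_symm, h3 n hn,
          ← coeff_bor_symm, LinearEquiv.symm_apply_apply])
    (fun g hg => wn_vol_le R s h lam hg) F hF
  exact ⟨g, h1, ne_top_of_le_ne_top (ENNReal.mul_ne_top (perturb_const_ne_top hC hε) hF) h2, h3⟩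

/-- Volterra equations are solvable in `K0`. -/
lemma volterra_ps (s : Finset ι) {h : ι → PS} (lam : ι → ℂ) (hh : ∀ i ∈ s, h i ∈ K0)
    {F : PS} (hF : F ∈ K0) : ∃ g ∈ K0, g + vol s h lam g = F := by
  obtain ⟨ρ, hρ, hFρ⟩ := hF
  obtain ⟨R, hR1, hR2, hR3⟩ := exists_common_radius s h hh hρ
  have hFR : wn (wN R) F ≠ ⊤ := ne_top_of_le_ne_top hFρ (wn_mono (wN_mono hR2.le) _)
  have hR0 : R ≠ 0 := (lt_trans zero_lt_one hR1).ne'
  have h1 : wn (wW R) 1 ≠ ⊤ := by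
    have := wnW_C_ne_top R 1
    rwa [map_one] at this
  obtain ⟨M, hM⟩ := core hR0 s lam hR3 (P := 1) (p := 1) (v := 1) (mul_one 1) h1 (ν := 0)
    ENNReal.one_ne_top fun M F _ => ⟨hi M F, low_hi M F, by rw [one_mul]; exact wn_hi_le _ _ _,
      fun n hn => by rw [one_mul, coeff_hi (by omega)]⟩
  have h2 : ∀ m : ℕ, ∃ g₀, wn (wN R) g₀ ≠ ⊤ ∧ Low m (F - (g₀ + vol s h lam g₀)) := by
    intro m
    induction m with
    | zero => exact ⟨0, by rw [wn_zero]; exact ENNReal.zero_ne_top, low_zero _⟩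
    | succ m ih =>
      obtain ⟨g₀, h3, h4⟩ := ih
      refine ⟨g₀ + (F - (g₀ + vol s h lam g₀)), wn_add_ne_top h3
        (wn_sub_ne_top hFR (wn_add_ne_top h3 (wn_vol_ne_top s lam hR3 h3))), ?_⟩
      have h5 := (low_vol s h lam h4).neg
      convert h5 using 1
      rw [map_add (vol s h lam) g₀]
      abel
  obtain ⟨g₀, h3, h4⟩ := h2 M
  obtain ⟨g, h5, h6, h7⟩ := hM _
    (wn_sub_ne_top hFR (wn_add_ne_top h3 (wn_vol_ne_top s lam hR3 h3)))
  refine ⟨g₀ + g, ⟨R, hR1, wn_add_ne_top h3 h6⟩, ?_⟩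
  have h8 : g + vol s h lam g = F - (g₀ + vol s h lam g₀) := by
    ext n
    by_cases hn : n < M
    · rw [h4 n hn, (h5.add (lowTri_vol s h lam M g h5)) n hn]
    · rw [← h7 n (by omega), LinearMap.add_apply, pop_one]
  rw [map_add, add_add_add_comm, h8]
  abel

lemma cofinite_ps (s : Finset ι) {h : ι → PS} (lam γ : ι → ℂ) (hinj : Function.Injective lam)
    (hγ : ∃ i ∈ s, γ i ≠ 0) (hh : ∀ i ∈ s, h i ∈ K0) :
    ∃ M : ℕ, ∀ F ∈ K0, ∃ g ∈ K0, ∀ n, M ≤ n →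
      coeff n ((pop (∑ i ∈ s, γ i • ex (lam i)) + vol s h lam) g) = coeff n F := by
  obtain ⟨ρ, hρ, p, v, hpv, hfact⟩ := exists_fact s lam γ hinj hγ
  obtain ⟨R₁, hR1, hR2, hR3⟩ := exists_common_radius s h hh hρ
  have key : ∀ R : ℝ≥0, 1 < R → R ≤ R₁ → ∃ M : ℕ, ∀ F : PS, wn (wN R) F ≠ ⊤ →
      ∃ g, wn (wN R) g ≠ ⊤ ∧ ∀ n, M ≤ n →
        coeff n ((pop (∑ i ∈ s, γ i • ex (lam i)) + vol s h lam) g) = coeff n F := by
    intro R h1 h2
    obtain ⟨⟨ν, K, hK, -, hd⟩, hv⟩ := hfact R h1 (lt_of_le_of_lt h2 hR2)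
    obtain ⟨M, hM⟩ := core (lt_trans zero_lt_one h1).ne' s lam
      (fun i hi => ne_top_of_le_ne_top (hR3 i hi) (wn_mono (wN_mono h2) _)) hpv hv hK hd
    refine ⟨M + ν, fun F hF => ?_⟩
    obtain ⟨g, -, h3, h4⟩ := hM F hF
    exact ⟨g, h3, h4⟩
  obtain ⟨M₁, hM₁⟩ := key R₁ hR1 le_rfl
  refine ⟨M₁, fun F hF => ?_⟩
  obtain ⟨R, hR, hFR⟩ := hF
  obtain ⟨M, hM⟩ := key (min R R₁) (lt_min hR hR1) (min_le_right _ _)
  obtain ⟨g, h1, h2⟩ := hM F (ne_top_of_le_ne_top hFR (wn_mono (wN_mono (min_le_left _ _)) _))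
  obtain ⟨g', h3, h4⟩ := hM₁ (F - (pop (∑ i ∈ s, γ i • ex (lam i)) + vol s h lam) g)
    (wn_ne_top_of_high (wN_ne_top _) (M := M) fun n hn => by rw [map_sub, h2 n hn, sub_self])
  refine ⟨g + g', K0.add_mem ⟨_, lt_min hR hR1, h1⟩ ⟨_, hR1, h3⟩, fun n hn => ?_⟩
  rw [map_add, map_add, h4 n hn, map_sub]
  ring

lemma exists_div_X_pow {r : ℕ} {u : PS} (hu : u ∈ K0) :
    ∃ u' ∈ K0, ∀ n, coeff n u' = coeff (n + r) u := by
  induction r with
  | zero => exact ⟨u, hu, fun _ => rfl⟩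
  | succ r ih =>
    obtain ⟨u', h1, h2⟩ := ih
    refine ⟨sh u', sh_mem_K0 h1, fun n => ?_⟩
    rw [coeff_sh, h2]
    congr 2
    omega

lemma exists_eq_X_pow_mul {r : ℕ} {u : PS} (hu : u ∈ K0) (hl : Low r u) :
    ∃ u' ∈ K0, u = X ^ r * u' := by
  obtain ⟨u', h1, h2⟩ := exists_div_X_pow (r := r) hu
  refine ⟨u', h1, ?_⟩
  ext n
  rw [coeff_X_pow_mul']
  split_ifs with h
  · rw [h2, Nat.sub_add_cancel h]
  · exact hl n (by omega)

end PSlevel

/-- the Gevrey ring as a type -/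
abbrev KK : Type := ↥K0

/-- the uniformiser -/
noncomputable def tK : KK := ⟨X, X_mem_K0⟩

/-- the substitution on `KK` -/
noncomputable def tauK (c : ℂ) : KK →ₐ[ℂ] KK :=
  ((tau c).comp K0.val).codRestrict K0 fun u => tau_mem_K0 c u.2

@[simp] lemma coe_tauK (c : ℂ) (u : KK) : (tauK c u : PS) = tau c u := rfl

@[simp] lemma coe_tK : (tK : PS) = X := rfl

lemma tauK_tauK (c d : ℂ) (u : KK) : tauK c (tauK d u) = tauK (c + d) u :=
  Subtype.ext (tau_tau c d u)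

lemma tauK_zero (u : KK) : tauK 0 u = u := Subtype.ext (tau_zero u)

lemma tauK_neg_tauK (c : ℂ) (u : KK) : tauK (-c) (tauK c u) = u := by
  rw [tauK_tauK, neg_add_cancel, tauK_zero]

lemma tauK_tauK_neg (c : ℂ) (u : KK) : tauK c (tauK (-c) u) = u := by
  rw [tauK_tauK, add_neg_cancel, tauK_zero]

lemma exists_tauK_tK (c : ℂ) : ∃ u : KK, tauK c tK = tK * u := by
  refine ⟨⟨pop (ex c) 1, pop_ex_mem_K0 c K0.one_mem⟩, Subtype.ext ?_⟩
  have := tau_X_mul c 1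
  rw [mul_one] at this
  exact this

lemma one_sub_mul_tauK (c : ℂ) : (1 - c • tK) * tauK c tK = tK := by
  refine Subtype.ext ?_
  have := one_sub_mul_tau_X c
  rw [← smul_eq_C_mul] at this
  exact this

/-- a difference operator -/
noncomputable def dop {ι : Type*} (s : Finset ι) (f : ι → KK) (lam : ι → ℂ) : Module.End ℂ KK :=
  ∑ i ∈ s, LinearMap.mulLeft ℂ (f i) ∘ₗ (tauK (lam i)).toLinearMap

lemma dop_apply {ι : Type*} (s : Finset ι) (f : ι → KK) (lam : ι → ℂ) (u : KK) :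
    dop s f lam u = ∑ i ∈ s, f i * tauK (lam i) u := by
  simp [dop]

lemma coe_dop {ι : Type*} (s : Finset ι) (f : ι → KK) (lam : ι → ℂ) (u : KK) :
    (dop s f lam u : PS) = ∑ i ∈ s, (f i : PS) * tau (lam i) u := by
  rw [dop_apply]
  push_cast
  rfl

/-- cofinite range -/
def Cof {V : Type*} [AddCommGroup V] [Module ℂ V] (T : V →ₗ[ℂ] V) : Prop :=
  ∃ F : Submodule ℂ V, F.FG ∧ LinearMap.range T ⊔ F = ⊤

/-- polynomials of degree `< N` -/
def polyK (N : ℕ) : Submodule ℂ KK where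
  carrier := {u | ∀ n, N ≤ n → coeff n (u : PS) = 0}
  add_mem' := fun {a b} ha hb n hn => by
    rw [Subalgebra.coe_add, map_add, ha n hn, hb n hn, add_zero]
  zero_mem' := fun n _ => by simp
  smul_mem' := fun c a ha n hn => by
    rw [Subalgebra.coe_smul, map_smul, ha n hn, smul_zero]

lemma polyK_fg (N : ℕ) : (polyK N).FG := by
  let ψ : polyK N →ₗ[ℂ] (Fin N → ℂ) :=
    LinearMap.pi fun i => coeff (i : ℕ) ∘ₗ K0.val.toLinearMap ∘ₗ (polyK N).subtype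
  have hψ : Function.Injective ψ := by
    rw [injective_iff_map_eq_zero]
    intro u hu
    refine Subtype.ext (Subtype.ext ?_)
    ext n
    by_cases hn : n < N
    · exact congrFun hu ⟨n, hn⟩
    · exact u.2 n (by omega)
  have := Module.Finite.of_injective ψ hψ
  exact Module.Finite.iff_fg.1 this

theorem cof_dop {ι : Type*} (s : Finset ι) (f : ι → KK) (lam : ι → ℂ)
    (hinj : Function.Injective lam) (hf : ∃ i ∈ s, f i ≠ 0) : Cof (dop s f lam) := by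
  classical
  have hex : ∃ n, ∃ i ∈ s, coeff n (f i : PS) ≠ 0 := by
    obtain ⟨i, hi, h⟩ := hf
    by_contra hc
    push Not at hc
    exact h (Subtype.ext (PowerSeries.ext fun n => hc n i hi))
  set r := Nat.find hex with hr
  have hlow : ∀ i ∈ s, Low r (f i : PS) := by
    intro i hi m hm
    have := Nat.find_min hex hm
    push Not at this
    exact this i hi
  have h1 : ∀ i, ∃ u ∈ K0, i ∈ s → (f i : PS) = X ^ r * u := by
    intro i
    by_cases hi : i ∈ s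
    · obtain ⟨u, h1, h2⟩ := exists_eq_X_pow_mul (f i).2 (hlow i hi)
      exact ⟨u, h1, fun _ => h2⟩
    · exact ⟨0, K0.zero_mem, fun h => absurd h hi⟩
  choose f' hf'K hf' using h1
  have hγ : ∃ i ∈ s, constantCoeff (f' i) ≠ 0 := by
    obtain ⟨i, hi, h⟩ := Nat.find_spec hex
    refine ⟨i, hi, ?_⟩
    rw [hf' i hi, ← hr, coeff_X_pow_mul', if_pos le_rfl, Nat.sub_self] at h
    simpa using h
  obtain ⟨M, hM⟩ := cofinite_ps s (h := fun i => sh (f' i)) lam (fun i => constantCoeff (f' i))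
    hinj hγ fun i _ => sh_mem_K0 (hf'K i)
  refine ⟨polyK (M + (r + 1)), polyK_fg _, eq_top_iff.2 fun F _ => ?_⟩
  obtain ⟨F', hF'K, hF'⟩ := exists_div_X_pow (r := r + 1) F.2
  obtain ⟨g, hgK, hg⟩ := hM F' hF'K
  have key : (dop s f lam (tK * ⟨g, hgK⟩) : PS) = X ^ (r + 1) *
      (pop (∑ i ∈ s, constantCoeff (f' i) • ex (lam i)) + vol s (fun i => sh (f' i)) lam) g := by
    rw [coe_dop, LinearMap.add_apply, pop_sum, vol_apply, Finset.mul_sum, ← Finset.sum_add_distrib,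
      Finset.mul_sum]
    refine Finset.sum_congr rfl fun i hi => ?_
    change _ * tau (lam i) (X * g) = _
    rw [tau_X_mul, hf' i hi, smul_eq_C_mul]
    conv_lhs => rw [eq_X_mul_sh (f' i)]
    ring
  rw [← add_sub_cancel (dop s f lam (tK * ⟨g, hgK⟩)) F]
  refine Submodule.add_mem_sup ⟨_, rfl⟩ fun n hn => ?_
  rw [Subalgebra.coe_sub, map_sub, key, coeff_X_pow_mul', if_pos (by omega), hg _ (by omega), hF',
    Nat.sub_add_cancel (by omega), sub_self]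

theorem volterra {ι : Type*} (s : Finset ι) (f : ι → KK) (lam : ι → ℂ) (F : KK) :
    ∃ u : KK, u - tK * dop s f lam u = F := by
  set c : KK := algebraMap ℂ KK (constantCoeff (F : PS)) with hc
  obtain ⟨w, hw, h⟩ := volterra_ps s (h := fun i => -(f i : PS)) lam
    (fun i _ => K0.neg_mem (f i).2) (K0.add_mem (sh_mem_K0 F.2) (dop s f lam c).2)
  refine ⟨tK * ⟨w, hw⟩ + c, Subtype.ext ?_⟩
  have h1 : (dop s f lam (tK * ⟨w, hw⟩) : PS) = -vol s (fun i => -(f i : PS)) lam w := by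
    rw [coe_dop, vol_apply, Finset.mul_sum, ← Finset.sum_neg_distrib]
    refine Finset.sum_congr rfl fun i _ => ?_
    change _ * tau (lam i) (X * w) = _
    rw [tau_X_mul]
    ring
  rw [map_add]
  push_cast
  rw [h1, coe_tK]
  have h2 : (c : PS) = C (constantCoeff (F : PS)) := rfl
  conv_rhs => rw [eq_X_mul_sh (F : PS)]
  rw [← h2]
  linear_combination X * h

end Pool.Agent.P.MP_049749_al
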