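import Pool.Agent.P.MP_049749_al.Fred

/-! Noetherian idealizers. -/

set_option autoImplicit false

namespace Pool.Agent.P.MP_049749_al

section FM

variable {V : Type*} [AddCommGroup V] [Module ℂ V]

/-- `P` is contained in `Q` up to a finite dimensional space. -/
def FM (P Q : Submodule ℂ V) : Prop := ∃ F : Submodule ℂ V, F.FG ∧ P ≤ Q ⊔ F

lemma FM.of_le {P Q : Submodule ℂ V} (h : P ≤ Q) : FM P Q :=
  ⟨⊥, Submodule.fg_bot, by simpa using h⟩

lemma FM.trans {P Q R : Submodule ℂ V} (h : FM P Q) (h' : FM Q R) : FM P R := by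
  obtain ⟨F, hF, h1⟩ := h
  obtain ⟨F', hF', h2⟩ := h'
  exact ⟨F' ⊔ F, hF'.sup hF, h1.trans (by rw [← sup_assoc]; gcongr)⟩

lemma FM.sup {P Q R : Submodule ℂ V} (h : FM P R) (h' : FM Q R) : FM (P ⊔ Q) R := by
  obtain ⟨F, hF, h1⟩ := h
  obtain ⟨F', hF', h2⟩ := h'
  exact ⟨F ⊔ F', hF.sup hF', sup_le (h1.trans (sup_le_sup_left le_sup_left _))
    (h2.trans (sup_le_sup_left le_sup_right _))⟩

lemma FM.inf {P Q : Submodule ℂ V} (h : FM P Q) :
    ∃ F : Submodule ℂ V, F ≤ P ∧ F.FG ∧ P ≤ (P ⊓ Q) ⊔ F := by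
  obtain ⟨F, hF, h1⟩ := h
  have h2 : P.map Q.mkQ ≤ F.map Q.mkQ := by
    rintro _ ⟨x, hx, rfl⟩
    obtain ⟨q, hq, f, hf, rfl⟩ := Submodule.mem_sup.1 (h1 hx)
    refine ⟨f, hf, ?_⟩
    rw [map_add, Submodule.mkQ_apply Q q, (Submodule.Quotient.mk_eq_zero Q).2 hq, zero_add]
  obtain ⟨S, hS⟩ := (hF.map Q.mkQ).of_le h2
  obtain ⟨T, hT, hTfin, hTS⟩ := S.finite_toSet.exists_subset_finite_image_eq (f := Q.mkQ)
    (s := (P : Set V)) (fun y hy => by
      have : y ∈ P.map Q.mkQ := hS ▸ Submodule.subset_span hy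
      exact this)
  refine ⟨Submodule.span ℂ T, Submodule.span_le.2 hT, Submodule.fg_span hTfin, fun x hx => ?_⟩
  have h3 : Q.mkQ x ∈ (Submodule.span ℂ T).map Q.mkQ := by
    rw [Submodule.map_span, hTS, hS]
    exact ⟨x, hx, rfl⟩
  obtain ⟨f, hf, h4⟩ := h3
  rw [← sub_add_cancel x f]
  refine Submodule.add_mem_sup ⟨P.sub_mem hx (Submodule.span_le.2 hT hf), ?_⟩ hf
  exact (Submodule.Quotient.eq Q).1 h4.symm

lemma FM.of_inf {P Q R : Submodule ℂ V} (h : FM P Q) (h' : FM (P ⊓ Q) R) : FM P R := by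
  obtain ⟨F, -, hF, h1⟩ := h.inf
  exact FM.trans ⟨F, hF, h1⟩ h'

end FM

variable {B : Type*} [Ring B] [Algebra ℂ B]

/-- a left ideal of a subalgebra, as a subspace of the big algebra -/
def toB {S : Subalgebra ℂ B} (I : Ideal S) : Submodule ℂ B :=
  (I.restrictScalars ℂ).map S.val.toLinearMap

lemma mem_toB {S : Subalgebra ℂ B} {I : Ideal S} {x : B} : x ∈ toB I ↔ ∃ y ∈ I, (y : B) = x :=
  Iff.rfl

lemma fg_of_FM {S : Subalgebra ℂ B} {I N : Ideal S} (hle : N ≤ I) (hN : N.FG)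
    (h : FM (toB I) (toB N)) : I.FG := by
  obtain ⟨F, hF, ⟨G, hG⟩, h1⟩ := h.inf
  obtain ⟨T, hT, hTfin, hTG⟩ := G.finite_toSet.exists_subset_finite_image_eq
    (f := S.val.toLinearMap) (s := (I : Set S)) (fun y hy => hF (hG ▸ Submodule.subset_span hy))
  have : I = N ⊔ Submodule.span S T := by
    refine le_antisymm (fun x hx => ?_) (sup_le hle (Submodule.span_le.2 hT))
    obtain ⟨n, ⟨-, n', hn', rfl⟩, f, hf, h2⟩ := Submodule.mem_sup.1 (h1 ⟨x, hx, rfl⟩)
    rw [← hG, ← hTG, ← Submodule.map_span] at hf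
    obtain ⟨f', hf', rfl⟩ := hf
    have h3 : x = n' + f' := Subtype.ext h2.symm
    rw [h3]
    exact Submodule.add_mem_sup hn' (Submodule.span_le_restrictScalars ℂ S T hf')
  rw [this]
  exact Submodule.FG.sup hN (Submodule.fg_span hTfin)

lemma FM_span {Q : Submodule ℂ B} (T : Finset B)
    (h : ∀ x ∈ T, FM (LinearMap.range (LinearMap.mulRight ℂ x)) Q) :
    FM ((Submodule.span B (T : Set B)).restrictScalars ℂ) Q := by
  classical
  induction T using Finset.induction_on with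
  | empty => exact FM.of_le (by simp)
  | insert x T _ ih =>
    refine FM.trans (FM.of_le ?_) ((h x (Finset.mem_insert_self _ _)).sup
      (ih fun y hy => h y (Finset.mem_insert_of_mem hy)))
    intro y hy
    rw [Submodule.restrictScalars_mem, Finset.coe_insert, Submodule.mem_span_insert] at hy
    obtain ⟨a, z, hz, rfl⟩ := hy
    exact Submodule.add_mem_sup ⟨a, rfl⟩ hz

variable {K : Type*} [CommRing K] [Algebra ℂ K]

/-- The stabiliser of the line `ℂ 1` in a right module is left Noetherian. -/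
theorem noeth_of_right_action [IsNoetherianRing B] [IsDomain B] (act : B →ₗ[ℂ] Module.End ℂ K)
    (hone : act 1 1 = 1) (hmul : ∀ b c u, act (b * c) u = act c (act b u))
    (ι : K →ₗ[ℂ] B) (hι : ∀ u, act (ι u) 1 = u)
    (hker : ∀ c, c ≠ 0 → (LinearMap.ker (act c)).FG) (hcof : ∀ c, c ≠ 0 → Cof (act c))
    (S : Subalgebra ℂ B) (hS : ∀ b, b ∈ S ↔ ∃ l : ℂ, act b 1 = l • 1) : IsNoetherianRing S := by
  classical
  refine (isNoetherianRing_iff_ideal_fg _).2 fun I => ?_
  by_cases hI : I = ⊥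
  · rw [hI]; exact Submodule.fg_bot
  obtain ⟨c₀, hc₀, hc₀'⟩ := (Submodule.ne_bot_iff I).1 hI
  set c : B := (c₀ : B) with hc
  have hc0 : c ≠ 0 := fun h => hc₀' (Subtype.ext h)
  set J : Submodule ℂ B := LinearMap.ker (LinearMap.applyₗ (1 : K) ∘ₗ act) with hJ
  have memJ : ∀ b, b ∈ J ↔ act b 1 = 0 := fun b => Iff.rfl
  have hJr : ∀ j ∈ J, ∀ b, j * b ∈ J := fun j hj b => by
    rw [memJ] at hj ⊢
    rw [hmul, hj, map_zero]
  have hJS : ∀ j ∈ J, j ∈ S := fun j hj => (hS j).2 ⟨0, by rw [zero_smul]; exact hj⟩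
  obtain ⟨T, hT, hspan⟩ := (Submodule.fg_span_iff_fg_span_finset_subset (R := B)
    (toB I : Set B)).1 (IsNoetherian.noetherian _)
  set L : Submodule ℂ B := (Submodule.span B (T : Set B)).restrictScalars ℂ with hL
  have hIL : toB I ≤ L := fun x hx => by
    rw [hL, Submodule.restrictScalars_mem, ← hspan]
    exact Submodule.subset_span hx
  set JL : Submodule ℂ B := Submodule.span ℂ {y | ∃ j ∈ J, ∃ x ∈ T, y = j * x} with hJL
  have hJLJ : JL ≤ J := Submodule.span_le.2 (by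
    rintro _ ⟨j, hj, x, -, rfl⟩
    exact hJr j hj x)
  have hJy : ∀ y ∈ L, ∀ j ∈ J, j * y ∈ JL := by
    intro y hy
    rw [hL, Submodule.restrictScalars_mem] at hy
    induction hy using Submodule.span_induction with
    | mem x hx => exact fun j hj => Submodule.subset_span ⟨j, hj, x, hx, rfl⟩
    | zero => intro j _; rw [mul_zero]; exact JL.zero_mem
    | add y z _ _ hy hz => intro j hj; rw [mul_add]; exact JL.add_mem (hy j hj) (hz j hj)
    | smul a y _ hy => intro j hj; rw [smul_eq_mul, ← mul_assoc]; exact hy _ (hJr j hj a)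
  set Bc : Submodule ℂ B := LinearMap.range (LinearMap.mulRight ℂ c) with hBc
  have hore := OreLocalization.nonempty_oreSet_iff_of_noZeroDivisors.1
    (nonempty_oreSet_of_strongRankCondition (R := B))
  have h1 : FM L (JL ⊔ Bc) := by
    refine FM_span T fun x hx => ?_
    obtain ⟨r, s, hs⟩ := hore x ⟨c, mem_nonZeroDivisors_of_ne_zero hc0⟩
    obtain ⟨F, hF, hF'⟩ := hcof s (nonZeroDivisors.ne_zero s.2)
    refine ⟨F.map (LinearMap.mulRight ℂ x ∘ₗ ι), hF.map _, ?_⟩
    rintro _ ⟨b, rfl⟩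
    obtain ⟨_, ⟨u, rfl⟩, f, hf, h2⟩ := Submodule.mem_sup.1 (hF'.ge (Submodule.mem_top (x := act b 1)))
    have h3 : b - ι u * s - ι f ∈ J := by
      rw [memJ, map_sub, map_sub, LinearMap.sub_apply, LinearMap.sub_apply, hmul, hι, hι, ← h2]
      abel
    have h4 : b * x = ((b - ι u * s - ι f) * x + (ι u * r) * c) + ι f * x := by
      have hs' : (s : B) * x = r * c := hs
      rw [mul_assoc, ← hs']
      noncomm_ring
    rw [LinearMap.mulRight_apply, h4]
    exact Submodule.add_mem_sup (Submodule.add_mem_sup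
      (Submodule.subset_span ⟨_, h3, x, hx, rfl⟩) ⟨_, rfl⟩) ⟨f, hf, rfl⟩
  have h2 : FM (J ⊓ Bc) JL := by
    refine ⟨(LinearMap.ker (act c)).map (LinearMap.mulRight ℂ c ∘ₗ ι), (hker c hc0).map _, ?_⟩
    rintro _ ⟨hj, b, rfl⟩
    have h3 : act b 1 ∈ LinearMap.ker (act c) := by
      rw [LinearMap.mem_ker, ← hmul]; exact hj
    have h4 : b - ι (act b 1) ∈ J := by
      rw [memJ, map_sub, LinearMap.sub_apply, hι, sub_self]
    have h5 : b * c = (b - ι (act b 1)) * c + ι (act b 1) * c := by noncomm_ring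
    rw [LinearMap.mulRight_apply, h5]
    exact Submodule.add_mem_sup (hJy c (hIL ⟨c₀, hc₀, rfl⟩) _ h4) ⟨_, h3, rfl⟩
  have h3 : FM (toB I) J := by
    refine ⟨Submodule.span ℂ {1}, Submodule.fg_span_singleton _, ?_⟩
    rintro _ ⟨y, -, rfl⟩
    obtain ⟨l, hl⟩ := (hS y).1 y.2
    change (y : B) ∈ _
    rw [← sub_add_cancel (y : B) (l • 1)]
    refine Submodule.add_mem_sup ?_ (Submodule.smul_mem _ _ (Submodule.subset_span rfl))
    rw [memJ, map_sub, map_smul, LinearMap.sub_apply, LinearMap.smul_apply, hone, hl, sub_self]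
  have h4 : FM (toB I) JL := by
    refine h3.of_inf (FM.of_inf (Q := JL ⊔ Bc) ((FM.of_le (inf_le_left.trans hIL)).trans h1) ?_)
    refine FM.trans (FM.of_le ?_) ((FM.of_le le_rfl).sup h2)
    rintro x ⟨⟨-, hx⟩, hx'⟩
    obtain ⟨y, hy, z, hz, rfl⟩ := Submodule.mem_sup.1 hx'
    refine Submodule.add_mem_sup hy ⟨?_, hz⟩
    have := J.sub_mem hx (hJLJ hy)
    rwa [add_sub_cancel_left] at this
  obtain ⟨T', hT', hTfin, hTT⟩ := T.finite_toSet.exists_subset_finite_image_eq
    (f := S.val.toLinearMap) (s := (I : Set S)) hT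
  refine fg_of_FM (N := Submodule.span S T') (Submodule.span_le.2 hT') (Submodule.fg_span hTfin)
    (h4.trans (FM.of_le (Submodule.span_le.2 ?_)))
  rintro _ ⟨j, hj, x, hx, rfl⟩
  have hx' : x ∈ (T : Set B) := hx
  rw [← hTT] at hx'
  obtain ⟨x', hx'', rfl⟩ := hx'
  exact ⟨⟨j, hJS j hj⟩ * x', Ideal.mul_mem_left _ _ (Submodule.subset_span hx''), rfl⟩

/-- The stabiliser of the line `ℂ 1` in a left module is left Noetherian. -/
theorem noeth_of_left_action [IsNoetherianRing B] (act : B →ₗ[ℂ] Module.End ℂ K)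
    (hmul : ∀ b c u, act (b * c) u = act b (act c u))
    (ι : K →ₗ[ℂ] B) (hι : ∀ f u, act (ι f) u = f * u)
    (hker : ∀ c, c ≠ 0 → (LinearMap.ker (act c)).FG) (hcof : ∀ c, c ≠ 0 → Cof (act c))
    (S : Subalgebra ℂ B) (hS : ∀ b, b ∈ S ↔ ∃ l : ℂ, act b 1 = l • 1)
    (t : B) (ht : ∀ b, ∃ c₁ ∈ S, ∃ c₂ ∈ S, b = c₁ + c₂ * t)
    (l₀ : B) (hl₀ : l₀ ≠ 0) (hl₀' : act l₀ 1 = 0) : IsNoetherianRing S := by
  classical
  refine (isNoetherianRing_iff_ideal_fg _).2 fun I => ?_
  have hι1 : ∀ u, act (ι u) 1 = u := fun u => by rw [hι, mul_one]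
  have hLl : ∀ l, act l 1 = 0 → ∀ b, act (b * l) 1 = 0 := fun l hl b => by
    rw [hmul, hl, map_zero]
  have hLS : ∀ l, act l 1 = 0 → l ∈ S := fun j hj => (hS j).2 ⟨0, by rw [zero_smul]; exact hj⟩
  -- `(K : L)` is finite dimensional modulo `K`
  have hcolon : ∀ P : Ideal B, (∀ l, act l 1 = 0 → l ∈ P) →
      ∃ F : Submodule ℂ B, F.FG ∧ ∀ b, (∀ l, act l 1 = 0 → l * b ∈ P) → ∃ f ∈ F, b - f ∈ P := by
    intro P hP
    by_cases hP' : ∀ k ∈ P, act k 1 = 0
    · refine ⟨(LinearMap.ker (act l₀)).map ι, (hker l₀ hl₀).map _, fun b hb => ?_⟩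
      refine ⟨ι (act b 1), ⟨_, ?_, rfl⟩, hP _ ?_⟩
      · change act l₀ (act b 1) = 0
        rw [← hmul]
        exact hP' _ (hb l₀ hl₀')
      · rw [map_sub, LinearMap.sub_apply, hι1, sub_self]
    · push Not at hP'
      obtain ⟨k, hk, hk'⟩ := hP'
      have h1 : ι (act k 1) ∈ P := by
        have := hP (ι (act k 1) - k) (by rw [map_sub, LinearMap.sub_apply, hι1, sub_self])
        simpa using P.add_mem this hk
      have h2 : ι (act k 1) ≠ 0 := fun h => hk' (by rw [← hι1 (act k 1), h, map_zero]; rfl)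
      obtain ⟨F, hF, hF'⟩ := hcof _ h2
      refine ⟨F.map ι, hF.map _, fun b _ => ?_⟩
      obtain ⟨_, ⟨u, rfl⟩, f, hf, h3⟩ :=
        Submodule.mem_sup.1 (hF'.ge (Submodule.mem_top (x := act b 1)))
      refine ⟨ι f, ⟨f, hf, rfl⟩, ?_⟩
      have h4 := hP (b - ι f - ι u * ι (act k 1)) (by
        rw [map_sub, map_sub, LinearMap.sub_apply, LinearMap.sub_apply, hmul, hι1, hι1, ← h3, hι,
          hι]
        ring)
      simpa using P.add_mem h4 (P.mul_mem_left (ι u) h1)
  set K₀ : Ideal B := Submodule.span B {y | ∃ l, act l 1 = 0 ∧ ∃ x ∈ toB I, y = l * x} with hK₀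
  set V : Submodule ℂ B :=
    { carrier := {x | ∀ l, act l 1 = 0 → l * x ∈ K₀}
      add_mem' := fun {x y} hx hy l hl => by rw [mul_add]; exact K₀.add_mem (hx l hl) (hy l hl)
      zero_mem' := fun l _ => by rw [mul_zero]; exact K₀.zero_mem
      smul_mem' := fun c x hx l hl => by
        rw [mul_smul_comm]; exact Submodule.smul_of_tower_mem _ c (hx l hl) } with hV
  have key : ∀ T : Finset B, (∀ x ∈ T, x ∈ V) →
      FM (V ⊓ (K₀ ⊔ Submodule.span B (T : Set B)).restrictScalars ℂ) (K₀.restrictScalars ℂ) := by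
    intro T
    induction T using Finset.induction_on with
    | empty => exact fun _ => FM.of_le (inf_le_right.trans (by simp))
    | insert x T _ ih =>
      intro hT
      have hx : x ∈ V := hT x (Finset.mem_insert_self _ _)
      obtain ⟨F, hF, hF'⟩ := hcolon (Submodule.comap (LinearMap.toSpanSingleton B B x)
        (K₀ ⊔ Submodule.span B (T : Set B))) fun l hl => Submodule.mem_sup_left (hx l hl)
      refine FM.of_inf (Q := (K₀ ⊔ Submodule.span B (T : Set B)).restrictScalars ℂ)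
        ⟨F.map (LinearMap.mulRight ℂ x), hF.map _, ?_⟩
        ((FM.of_le (inf_le_inf_right _ inf_le_left)).trans
          (ih fun y hy => hT y (Finset.mem_insert_of_mem hy)))
      rintro y ⟨hyV, hy⟩
      rw [SetLike.mem_coe, Submodule.restrictScalars_mem, Finset.coe_insert, Submodule.span_insert,
        sup_left_comm] at hy
      obtain ⟨_, hz, y', hy', rfl⟩ := Submodule.mem_sup.1 hy
      obtain ⟨b, rfl⟩ := Submodule.mem_span_singleton.1 hz
      obtain ⟨f, hf, h1⟩ := hF' b fun l hl => by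
        change (l * b) • x ∈ K₀ ⊔ Submodule.span B (T : Set B)
        have h2 := Submodule.sub_mem _ (Submodule.mem_sup_left (hyV l hl))
          (Submodule.smul_mem _ l hy')
        convert h2 using 1
        simp only [smul_eq_mul]
        noncomm_ring
      have h3 : b • x + y' = ((b - f) • x + y') + f * x := by
        simp only [smul_eq_mul]
        noncomm_ring
      rw [h3]
      exact Submodule.add_mem_sup (Submodule.add_mem _ h1 hy') ⟨f, hf, rfl⟩
  obtain ⟨T, hT, hspan⟩ := (Submodule.fg_span_iff_fg_span_finset_subset (R := B)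
    (toB I : Set B)).1 (IsNoetherian.noetherian _)
  have hIV : toB I ≤ V := fun x hx l hl => Submodule.subset_span ⟨l, hl, x, hx, rfl⟩
  have h1 : FM (toB I) (K₀.restrictScalars ℂ) := by
    refine (FM.of_le (le_inf hIV fun x hx => ?_)).trans (key T fun x hx => hIV (hT hx))
    rw [Submodule.restrictScalars_mem, ← hspan]
    exact Submodule.mem_sup_right (Submodule.subset_span hx)
  -- `K₀` lies in `I` and is finitely generated over `S`
  have hK₀I : ∀ y ∈ K₀, ∀ b, b * y ∈ toB I := by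
    intro y hy
    induction hy using Submodule.span_induction with
    | mem y hy =>
      obtain ⟨l, hl, _, ⟨x, hx, rfl⟩, rfl⟩ := hy
      intro b
      exact ⟨⟨b * l, hLS _ (hLl l hl b)⟩ * x, I.mul_mem_left _ hx, mul_assoc _ _ _⟩
    | zero => intro b; rw [mul_zero]; exact Submodule.zero_mem _
    | add y z _ _ hy hz => intro b; rw [mul_add]; exact Submodule.add_mem _ (hy b) (hz b)
    | smul a y _ hy => intro b; rw [smul_eq_mul, ← mul_assoc]; exact hy _
  obtain ⟨G, hG⟩ : K₀.FG := IsNoetherian.noetherian _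
  have hGK : ∀ y ∈ G, y ∈ K₀ := fun y hy => hG ▸ Submodule.subset_span hy
  obtain ⟨T', hT', hTfin, hTT⟩ := (G.finite_toSet.union (G.finite_toSet.image (t * ·))
    ).exists_subset_finite_image_eq (f := S.val.toLinearMap) (s := (I : Set S)) (by
      rintro y (hy | ⟨y, hy, rfl⟩)
      · have := hK₀I y (hGK y hy) 1
        rwa [one_mul] at this
      · exact hK₀I y (hGK y hy) t)
  refine fg_of_FM (N := Submodule.span S T') (Submodule.span_le.2 hT') (Submodule.fg_span hTfin)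
    (h1.trans (FM.of_le fun y hy => ?_))
  have h2 : ∀ y ∈ Submodule.span B (G : Set B), ∀ b, b * y ∈ toB (Submodule.span S T') := by
    intro y hy
    induction hy using Submodule.span_induction with
    | mem y hy =>
      intro b
      obtain ⟨c₁, hc₁, c₂, hc₂, rfl⟩ := ht b
      obtain ⟨y₁, hy₁, h3⟩ : y ∈ S.val.toLinearMap '' T' := hTT ▸ Or.inl hy
      obtain ⟨y₂, hy₂, h4⟩ : t * y ∈ S.val.toLinearMap '' T' := hTT ▸ Or.inr ⟨y, hy, rfl⟩
      refine ⟨⟨c₁, hc₁⟩ * y₁ + ⟨c₂, hc₂⟩ * y₂, Submodule.add_mem _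
        (Ideal.mul_mem_left _ _ (Submodule.subset_span hy₁))
        (Ideal.mul_mem_left _ _ (Submodule.subset_span hy₂)), ?_⟩
      change c₁ * S.val.toLinearMap y₁ + c₂ * S.val.toLinearMap y₂ = _
      rw [h3, h4, add_mul, mul_assoc]
    | zero => intro b; rw [mul_zero]; exact Submodule.zero_mem _
    | add y z _ _ hy hz => intro b; rw [mul_add]; exact Submodule.add_mem _ (hy b) (hz b)
    | smul a y _ hy => intro b; rw [smul_eq_mul, ← mul_assoc]; exact hy _
  have h3 := h2 y (by rw [Submodule.restrictScalars_mem, ← hG] at hy; exact hy) 1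
  rwa [one_mul] at h3

end Pool.Agent.P.MP_049749_al
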