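import Pool.Agent.P.MP_049749_al.Fred

/-! Ring-theoretic facts on the Gevrey ring, the evaluation functional and the cocycle. -/

set_option autoImplicit false

namespace Pool.Agent.P.MP_049749_al

open PowerSeries
open scoped ENNReal NNReal Nat

lemma wn_one_ne_top {u : PS} (hu : u ∈ K0) : wn (wW 1) (bor u) ≠ ⊤ := by
  obtain ⟨R, hR, h⟩ := hu
  rw [wn_bor]
  exact ne_top_of_le_ne_top h (wn_mono (wN_mono hR.le) _)

lemma nnnorm_one_le : ‖(1 : ℂ)‖₊ ≤ (1 : ℝ≥0) := by simp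

/-- value at `1` of the Borel transform -/
noncomputable def evK : KK →ₗ[ℂ] ℂ where
  toFun u := ev 1 (bor (sh u))
  map_add' u v := by
    rw [Subalgebra.coe_add, map_add, map_add,
      ev_add nnnorm_one_le (wn_one_ne_top (sh_mem_K0 u.2)) (wn_one_ne_top (sh_mem_K0 v.2))]
  map_smul' c u := by
    rw [Subalgebra.coe_smul, map_smul, map_smul, ev_smul]
    rfl

lemma evK_apply (u : KK) : evK u = ev 1 (bor (sh u)) := rfl

lemma evK_tauK (c : ℂ) (u : KK) : evK (tauK c u) = Complex.exp c * evK u := by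
  rw [evK_apply, evK_apply, coe_tauK, sh_tau, bor_pop,
    ev_mul nnnorm_one_le (wnW_ex_ne_top _ _) (wn_one_ne_top (sh_mem_K0 u.2)), ev_ex, mul_one]

lemma evK_tK_pow (n : ℕ) : evK (tK ^ (n + 1)) ≠ 0 := by
  have h1 : bor (X ^ n) = ((n ! : ℂ))⁻¹ • (X : PS) ^ n := by
    ext m
    rw [coeff_bor, map_smul, coeff_X_pow]
    split_ifs with h
    · rw [h]; simp
    · simp
  rw [evK_apply, SubmonoidClass.coe_pow, coe_tK, pow_succ', sh_X_mul, h1, ev_smul, ev_X_pow,
    one_pow, mul_one]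
  exact inv_ne_zero (by exact_mod_cast n.factorial_ne_zero)

lemma isUnit_of_constantCoeff {u : KK} (hu : constantCoeff (u : PS) ≠ 0) : IsUnit u := by
  set c := constantCoeff (u : PS) with hc
  let h : KK := ⟨sh u, sh_mem_K0 u.2⟩
  have h1 : u = tK * h + algebraMap ℂ KK c := Subtype.ext (eq_X_mul_sh (u : PS))
  have h2 : algebraMap ℂ KK c * algebraMap ℂ KK c⁻¹ = 1 := by
    rw [← map_mul, mul_inv_cancel₀ hu, map_one]
  obtain ⟨g, hg⟩ := volterra {()} (fun _ => -(algebraMap ℂ KK c⁻¹ * h)) (fun _ => 0) 1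
  rw [dop_apply, Finset.sum_singleton, tauK_zero] at hg
  refine IsUnit.of_mul_eq_one (algebraMap ℂ KK c⁻¹ * g) ?_
  linear_combination (algebraMap ℂ KK c⁻¹ * g) * h1 + hg + g * h2

lemma exists_eq_tK_pow_mul {r : ℕ} {u : KK} (hl : Low r (u : PS)) : ∃ u' : KK, u = tK ^ r * u' := by
  obtain ⟨u', h1, h2⟩ := exists_eq_X_pow_mul u.2 hl
  exact ⟨⟨u', h1⟩, Subtype.ext h2⟩

lemma exists_unit {u : KK} (hu : u ≠ 0) : ∃ (n : ℕ) (w : KK), IsUnit w ∧ u = tK ^ n * w := by
  classical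
  have hex : ∃ n, coeff n (u : PS) ≠ 0 := by
    by_contra hc
    push Not at hc
    exact hu (Subtype.ext (PowerSeries.ext hc))
  have hlow : Low (Nat.find hex) (u : PS) := fun m hm => by
    have := Nat.find_min hex hm
    push Not at this
    exact this
  obtain ⟨w, hw⟩ := exists_eq_tK_pow_mul hlow
  refine ⟨_, w, isUnit_of_constantCoeff ?_, hw⟩
  have h := Nat.find_spec hex
  have h2 : (u : PS) = X ^ Nat.find hex * (w : PS) := congrArg Subtype.val hw
  have h3 : coeff (Nat.find hex) (X ^ Nat.find hex * (w : PS)) ≠ 0 := h2 ▸ h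
  rw [coeff_X_pow_mul', if_pos le_rfl, Nat.sub_self] at h3
  simpa using h3

lemma evK_nondeg {u : KK} (h : ∀ z, evK (u * z) = 0) : u = 0 := by
  by_contra hu
  obtain ⟨n, w, hw, rfl⟩ := exists_unit hu
  obtain ⟨w', hw'⟩ := hw.exists_right_inv
  refine evK_tK_pow n ?_
  rw [← h (w' * tK)]
  congr 1
  rw [pow_succ]
  linear_combination (-(tK ^ n * tK)) * hw'

instance : IsNoetherianRing KK := by
  classical
  refine (isNoetherianRing_iff_ideal_fg _).2 fun I => ?_
  by_cases hI : I = ⊥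
  · rw [hI]; exact Submodule.fg_bot
  have hpow : ∀ x ∈ I, x ≠ 0 → ∃ (n : ℕ) (w : KK), tK ^ n ∈ I ∧ x = tK ^ n * w := by
    intro x hx hx0
    obtain ⟨n, w, hw, rfl⟩ := exists_unit hx0
    exact ⟨n, w, (I.mul_unit_mem_iff_mem hw).1 hx, rfl⟩
  have hex : ∃ n, tK ^ n ∈ I := by
    obtain ⟨x, hx, hx0⟩ := (Submodule.ne_bot_iff I).1 hI
    obtain ⟨n, -, h, -⟩ := hpow x hx hx0
    exact ⟨n, h⟩
  refine ⟨{tK ^ Nat.find hex}, le_antisymm ?_ fun x hx => ?_⟩
  · rw [Finset.coe_singleton, Ideal.span_singleton_le_iff_mem]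
    exact Nat.find_spec hex
  · rw [Finset.coe_singleton, Ideal.mem_span_singleton]
    by_cases hx0 : x = 0
    · rw [hx0]; exact dvd_zero _
    obtain ⟨n, w, h, rfl⟩ := hpow x hx hx0
    exact (pow_dvd_pow _ (Nat.find_min' hex h)).mul_right _

lemma not_finite_KK : ¬ Module.Finite ℂ KK := by
  intro h
  refine Module.Finite.not_linearIndependent_of_infinite (R := ℂ) (fun n : ℕ => tK ^ n) ?_
  rw [linearIndependent_iff']
  intro s g hg i hi
  have h1 := congrArg (fun u : KK => coeff i (u : PS)) hg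
  simp only [AddSubmonoidClass.coe_finsetSum, SetLike.val_smul, SubmonoidClass.coe_pow, coe_tK,
    map_sum, map_smul, coeff_X_pow, smul_eq_mul, mul_ite, mul_one, mul_zero, Finset.sum_ite_eq,
    if_pos hi, ZeroMemClass.coe_zero, map_zero] at h1
  exact h1

lemma exists_decomp (u : KK) : ∃ (a b : ℂ) (w : KK), u = a • 1 + b • tK + w * tK ^ 2 := by
  let h : KK := ⟨sh u, sh_mem_K0 u.2⟩
  let w : KK := ⟨sh h, sh_mem_K0 h.2⟩
  have h1 : u = tK * h + algebraMap ℂ KK (constantCoeff (u : PS)) :=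
    Subtype.ext (eq_X_mul_sh (u : PS))
  have h2 : h = tK * w + algebraMap ℂ KK (constantCoeff (h : PS)) :=
    Subtype.ext (eq_X_mul_sh (h : PS))
  refine ⟨constantCoeff (u : PS), constantCoeff (h : PS), w, ?_⟩
  rw [Algebra.algebraMap_eq_smul_one] at h1 h2
  conv_lhs => rw [h1, h2]
  rw [mul_add, mul_smul_comm, mul_one]
  ring

/-- the cocycle: elements `g i` divisible by `t ^ N` with `E j (g i) = E i (g j)`. -/
lemma exists_cocycle (c : Fin 3 → ℂ) (hc : c 0 = 1) (N : ℕ) :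
    ∃ g : Fin 3 → KK, (∀ i j, tauK (c j) (tK ^ N * g i) - Complex.exp (c j) • (tK ^ N * g i) =
        tauK (c i) (tK ^ N * g j) - Complex.exp (c i) • (tK ^ N * g j)) ∧
      evK (tK ^ N * g 0) ≠ 0 := by
  choose q hq1 hq2 using fun i => exists_quot (c i)
  have hmem : ∀ i, X * bor.symm (X ^ N * q i) ∈ K0 := fun i =>
    K0.mul_mem X_mem_K0 ⟨2, one_lt_two, by
      rw [wn_bor_symm]; exact wnW_mul_ne_top (wnW_X_pow_ne_top _ _) (hq1 i)⟩
  have hlow : ∀ i, Low N (X * bor.symm (X ^ N * q i)) := fun i =>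
    (Low.bor_symm (low_iff.2 (dvd_mul_right _ _))).mul_left _
  choose g hg using fun i => exists_eq_tK_pow_mul (u := ⟨_, hmem i⟩) (hlow i)
  refine ⟨g, fun i j => ?_, ?_⟩
  · have key : ∀ i j, ((tauK (c j) (tK ^ N * g i) - Complex.exp (c j) • (tK ^ N * g i) : KK) : PS) =
        X * bor.symm ((X - C 1) * q j * (X ^ N * q i)) := by
      intro i j
      rw [← hg i]
      change tau (c j) (X * _) - _ • (X * _) = _
      rw [tau_X_mul, hq2, pop_apply, LinearEquiv.apply_symm_apply, sub_mul, map_sub,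
        ← smul_eq_C_mul, map_smul, mul_sub, mul_smul_comm]
    refine Subtype.ext ?_
    rw [key, key]
    congr 2
    ring
  · rw [← hg 0, evK_apply, sh_X_mul, LinearEquiv.apply_symm_apply]
    have h1 : ‖(1 : ℂ)‖₊ ≤ (2 : ℝ≥0) := by simp
    rw [ev_mul h1 (wnW_X_pow_ne_top _ _) (hq1 0), ev_X_pow, one_pow, one_mul]
    refine ev_quot_ne_zero (hq1 0) ?_
    rw [hq2, hc]

end Pool.Agent.P.MP_049749_al
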