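import Mathlib

/-! A triangular ring built from two idealizers and a balanced form. -/

set_option autoImplicit false

namespace Pool.Agent.P.MP_049749_al

open MulOpposite TrivSqZeroExt

lemma noeth_of_surj {S R M : Type*} [Ring S] [Ring R] [AddCommGroup M] [Module S M]
    [IsNoetherian S M] (g : S →+* R) (e : M →+ R) (he : Function.Surjective e)
    (h : ∀ s m, e (s • m) = g s * e m) : IsNoetherianRing R := by
  let _ : Module S R := Module.compHom R g
  have : IsScalarTower S R R := ⟨fun s x y => mul_assoc (g s) x y⟩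
  let e' : M →ₗ[S] R := { e with map_smul' := h }
  have : IsNoetherian S R := isNoetherian_of_surjective e' (LinearMap.range_eq_top.2 he)
  exact isNoetherian_of_tower S this

/-- the data of the triangular construction -/
structure TriData (B : Type) [Ring B] [Algebra ℂ B] where
  J : Submodule ℂ B
  L : Submodule ℂ B
  A : Subalgebra ℂ B
  C : Subalgebra ℂ B
  eA : B →ₗ[ℂ] ℂ
  eC : B →ₗ[ℂ] ℂ
  Φ : B →ₗ[ℂ] B →ₗ[ℂ] ℂ
  t : B
  J_mul : ∀ j ∈ J, ∀ b, j * b ∈ J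
  mul_L : ∀ l ∈ L, ∀ b, b * l ∈ L
  J_le : ∀ j ∈ J, j ∈ A
  L_le : ∀ l ∈ L, l ∈ C
  sub_A : ∀ a ∈ A, a - eA a • 1 ∈ J
  sub_C : ∀ c ∈ C, c - eC c • 1 ∈ L
  eA_J : ∀ j ∈ J, eA j = 0
  eC_L : ∀ l ∈ L, eC l = 0
  eA_one : eA 1 = 1
  eC_one : eC 1 = 1
  Φ_one_left : ∀ b, Φ 1 b = 0
  Φ_one_right : ∀ b, Φ b 1 = 0
  bal : ∀ j ∈ J, ∀ l ∈ L, ∀ b, Φ (j * b) l = Φ j (b * l)
  A_left : IsNoetherianRing A
  A_right : IsNoetherianRing Aᵐᵒᵖ
  C_left : IsNoetherianRing C
  C_right : IsNoetherianRing Cᵐᵒᵖ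
  inv : ∀ b, ∃ z, z * (1 - b * t) = 1 ∧ (1 - b * t) * z = 1
  t_sq : ∃ j₁ ∈ J, ∃ j₂ ∈ J, t ^ 2 = t * j₁ + j₂
  cyc : ∀ N : ℕ, ∃ x l : Fin 3 → B, (∀ i, x i ∈ J) ∧ (∀ i, l i ∈ L) ∧
    ∑ i, x i * t ^ N * l i = 0 ∧ ∑ i, Φ (x i * t ^ N) (l i) ≠ 0

namespace TriData

variable {B : Type} [Ring B] [Algebra ℂ B] (D : TriData B)

lemma A_mul {a j : B} (ha : a ∈ D.A) (hj : j ∈ D.J) : a * j ∈ D.J := by
  have h := D.J.add_mem (D.J_mul _ (D.sub_A a ha) j) (D.J.smul_mem (D.eA a) hj)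
  rwa [sub_mul, smul_mul_assoc, one_mul, sub_add_cancel] at h

lemma mul_C {c l : B} (hc : c ∈ D.C) (hl : l ∈ D.L) : l * c ∈ D.L := by
  have h := D.L.add_mem (D.mul_L _ (D.sub_C c hc) l) (D.L.smul_mem (D.eC c) hl)
  rwa [mul_sub, mul_smul_comm, mul_one, sub_add_cancel] at h

lemma eA_mul {a a' : B} (ha : a ∈ D.A) : D.eA (a * a') = D.eA a * D.eA a' := by
  have h := D.eA_J _ (D.J_mul _ (D.sub_A a ha) a')
  rwa [sub_mul, smul_mul_assoc, one_mul, map_sub, map_smul, smul_eq_mul, sub_eq_zero] at h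

lemma eC_mul {c c' : B} (hc' : c' ∈ D.C) : D.eC (c * c') = D.eC c * D.eC c' := by
  have h := D.eC_L _ (D.mul_L _ (D.sub_C c' hc') c)
  rwa [mul_sub, mul_smul_comm, mul_one, map_sub, map_smul, smul_eq_mul, sub_eq_zero, mul_comm] at h

lemma Φ_A {a l : B} (ha : a ∈ D.A) (hl : l ∈ D.L) (b : B) :
    D.Φ (a * b) l = D.eA a * D.Φ b l + D.Φ a (b * l) := by
  have h := D.bal _ (D.sub_A a ha) l hl b
  simp only [sub_mul, smul_mul_assoc, one_mul, map_sub, map_smul, LinearMap.sub_apply,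
    LinearMap.smul_apply, smul_eq_mul, D.Φ_one_left, mul_zero, sub_zero] at h
  linear_combination h

lemma Φ_C {c j : B} (hc : c ∈ D.C) (hj : j ∈ D.J) (b : B) :
    D.Φ j (b * c) = D.Φ j b * D.eC c + D.Φ (j * b) c := by
  have h := D.bal j hj _ (D.sub_C c hc) b
  simp only [mul_sub, mul_smul_comm, mul_one, map_sub, map_smul, smul_eq_mul, D.Φ_one_right,
    mul_zero, sub_zero] at h
  linear_combination -h

lemma Φ_AC {a c : B} (ha : a ∈ D.A) (hc : c ∈ D.C) (w : B) :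
    D.Φ a w * D.eC c + D.Φ (a * w) c = D.eA a * D.Φ w c + D.Φ a (w * c) := by
  have h := D.Φ_C hc (D.sub_A a ha) w
  simp only [sub_mul, smul_mul_assoc, one_mul, map_sub, map_smul, LinearMap.sub_apply,
    LinearMap.smul_apply, smul_eq_mul, D.Φ_one_left, mul_zero, sub_zero] at h
  linear_combination -h

/-- the bimodule -/
def X : Type := (D.J ⊓ D.L : Submodule ℂ B) × ℂ

instance : AddCommGroup D.X := inferInstanceAs (AddCommGroup (_ × _))

lemma X_ext {x y : D.X} (h1 : (x.1 : B) = y.1) (h2 : x.2 = y.2) : x = y :=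
  Prod.ext (Subtype.ext h1) h2

lemma add_fst (x y : D.X) : ((x + y).1 : B) = x.1 + y.1 := rfl
lemma add_snd (x y : D.X) : (x + y).2 = x.2 + y.2 := rfl
lemma zero_fst : ((0 : D.X).1 : B) = 0 := rfl
lemma zero_snd : (0 : D.X).2 = 0 := rfl

/-- the diagonal ring -/
abbrev S : Type := D.A × D.C

instance : SMul D.S D.X where
  smul s x := (⟨s.1 * x.1, D.A_mul s.1.2 x.1.2.1, D.mul_L _ x.1.2.2 _⟩,
    D.eA s.1 * x.2 + D.Φ s.1 x.1)

instance : SMul D.Sᵐᵒᵖ D.X where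
  smul s x := (⟨x.1 * (unop s).2, D.J_mul _ x.1.2.1 _, D.mul_C (unop s).2.2 x.1.2.2⟩,
    x.2 * D.eC (unop s).2 + D.Φ x.1 (unop s).2)

lemma smul_fst (s : D.S) (x : D.X) : ((s • x).1 : B) = s.1 * x.1 := rfl
lemma smul_snd (s : D.S) (x : D.X) : (s • x).2 = D.eA s.1 * x.2 + D.Φ s.1 x.1 := rfl
lemma rsmul_fst (s : D.Sᵐᵒᵖ) (x : D.X) : ((s • x).1 : B) = x.1 * (unop s).2 := rfl
lemma rsmul_snd (s : D.Sᵐᵒᵖ) (x : D.X) :
    (s • x).2 = x.2 * D.eC (unop s).2 + D.Φ x.1 (unop s).2 := rfl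

instance : Module D.S D.X where
  one_smul x := D.X_ext (one_mul _) (by
    rw [smul_snd]
    change D.eA 1 * _ + D.Φ 1 _ = _
    rw [D.eA_one, D.Φ_one_left, one_mul, add_zero])
  mul_smul s s' x := D.X_ext (mul_assoc _ _ _) (by
    rw [smul_snd, smul_snd, smul_snd, smul_fst]
    change D.eA (s.1 * s'.1) * _ + D.Φ (s.1 * s'.1) _ = _
    rw [D.eA_mul s.1.2, D.Φ_A s.1.2 x.1.2.2]
    ring)
  smul_zero s := D.X_ext (mul_zero _) (by rw [smul_snd, zero_fst, zero_snd]; simp)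
  smul_add s x y := D.X_ext (mul_add _ _ _) (by
    rw [add_snd, smul_snd, smul_snd, smul_snd, add_fst, add_snd, map_add]
    ring)
  add_smul s s' x := D.X_ext (add_mul _ _ _) (by
    rw [add_snd, smul_snd, smul_snd, smul_snd]
    change D.eA (s.1 + s'.1) * _ + D.Φ (s.1 + s'.1) _ = _
    rw [map_add, map_add, LinearMap.add_apply]
    ring)
  zero_smul x := D.X_ext (zero_mul _) (by
    rw [smul_snd, zero_snd]
    change D.eA 0 * _ + D.Φ 0 _ = _
    simp)

instance : Module D.Sᵐᵒᵖ D.X where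
  one_smul x := D.X_ext (mul_one _) (by
    rw [rsmul_snd]
    change _ * D.eC 1 + D.Φ _ 1 = _
    rw [D.eC_one, D.Φ_one_right, mul_one, add_zero])
  mul_smul s s' x := D.X_ext (mul_assoc _ _ _).symm (by
    rw [rsmul_snd, rsmul_snd, rsmul_snd, rsmul_fst]
    change _ * D.eC ((unop s').2 * (unop s).2) + D.Φ _ ((unop s').2 * (unop s).2) = _
    rw [D.eC_mul (unop s).2.2, D.Φ_C (unop s).2.2 x.1.2.1]
    ring)
  smul_zero s := D.X_ext (zero_mul _) (by rw [rsmul_snd, zero_fst, zero_snd]; simp)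
  smul_add s x y := D.X_ext (add_mul _ _ _) (by
    rw [add_snd, rsmul_snd, rsmul_snd, rsmul_snd, add_fst, add_snd, map_add, LinearMap.add_apply]
    ring)
  add_smul s s' x := D.X_ext (mul_add _ _ _) (by
    rw [add_snd, rsmul_snd, rsmul_snd, rsmul_snd]
    change _ * D.eC ((unop s).2 + (unop s').2) + D.Φ _ ((unop s).2 + (unop s').2) = _
    rw [map_add, map_add]
    ring)
  zero_smul x := D.X_ext (mul_zero _) (by
    rw [rsmul_snd, zero_snd]
    change _ * D.eC 0 + D.Φ _ 0 = _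
    simp)

instance : SMulCommClass D.S D.Sᵐᵒᵖ D.X where
  smul_comm s s' x := D.X_ext (mul_assoc _ _ _).symm (by
    rw [rsmul_snd, smul_snd, rsmul_snd, smul_snd, rsmul_fst, smul_fst]
    linear_combination -D.Φ_AC s.1.2 (unop s').2.2 x.1)

/-- the distinguished element -/
def eta : D.X := (0, 1)

lemma S_left : IsNoetherianRing D.S := by
  have := D.A_left
  have := D.C_left
  infer_instance

lemma S_right : IsNoetherianRing D.Sᵐᵒᵖ := by
  have := D.A_right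
  have := D.C_right
  refine isNoetherianRing_of_surjective (D.Aᵐᵒᵖ × D.Cᵐᵒᵖ) _
    { toFun := fun x => op (unop x.1, unop x.2)
      map_one' := rfl
      map_mul' := fun _ _ => rfl
      map_zero' := rfl
      map_add' := fun _ _ => rfl } fun y => ⟨(op (unop y).1, op (unop y).2), rfl⟩

lemma X_left : IsNoetherian D.S D.X := by
  have := D.S_left
  let π : D.X →ₗ[D.S] D.S :=
    { toFun := fun x => (⟨x.1, D.J_le _ x.1.2.1⟩, 0)
      map_add' := fun x y => Prod.ext rfl (add_zero _).symm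
      map_smul' := fun s x => Prod.ext rfl (mul_zero _).symm }
  refine isNoetherian_of_range_eq_ker (LinearMap.toSpanSingleton D.S D.X D.eta) π ?_
  refine le_antisymm ?_ fun x hx => ?_
  · rintro _ ⟨s, rfl⟩
    exact Prod.ext (Subtype.ext (mul_zero _)) rfl
  · have h : (x.1 : B) = 0 := congrArg (fun y : D.S => (y.1 : B)) hx
    refine ⟨(algebraMap ℂ _ x.2, 0), D.X_ext ((mul_zero _).trans h.symm) ?_⟩
    change D.eA (algebraMap ℂ B x.2) * 1 + D.Φ _ 0 = _
    rw [Algebra.algebraMap_eq_smul_one, map_smul, D.eA_one]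
    simp

lemma X_right : IsNoetherian D.Sᵐᵒᵖ D.X := by
  have := D.S_right
  let π : D.X →ₗ[D.Sᵐᵒᵖ] D.Sᵐᵒᵖ :=
    { toFun := fun x => op (0, ⟨x.1, D.L_le _ x.1.2.2⟩)
      map_add' := fun x y => unop_injective (Prod.ext (add_zero _).symm rfl)
      map_smul' := fun s x => unop_injective (Prod.ext (zero_mul _).symm rfl) }
  refine isNoetherian_of_range_eq_ker (LinearMap.toSpanSingleton D.Sᵐᵒᵖ D.X D.eta) π ?_
  refine le_antisymm ?_ fun x hx => ?_
  · rintro _ ⟨s, rfl⟩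
    exact unop_injective (Prod.ext rfl (Subtype.ext (zero_mul _)))
  · have h : (x.1 : B) = 0 := congrArg (fun y : D.Sᵐᵒᵖ => ((unop y).2 : B)) hx
    refine ⟨op (0, algebraMap ℂ _ x.2), D.X_ext ((zero_mul _).trans h.symm) ?_⟩
    change 1 * D.eC (algebraMap ℂ B x.2) + D.Φ 0 _ = _
    rw [Algebra.algebraMap_eq_smul_one, map_smul, D.eC_one]
    simp

/-- the triangular ring -/
abbrev R : Type := TrivSqZeroExt D.S D.X

lemma R_left : IsNoetherianRing D.R := by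
  have := D.S_left
  have := D.X_left
  refine noeth_of_surj (M := D.S × D.X) (inlHom D.S D.X)
    { toFun := fun p => (p : D.R), map_zero' := rfl, map_add' := fun _ _ => rfl }
    (fun y => ⟨y, rfl⟩) fun s m => TrivSqZeroExt.ext rfl ?_
  change s • m.2 = s • m.2 + op m.1 • (0 : D.X)
  rw [smul_zero, add_zero]

lemma R_right : IsNoetherianRing D.Rᵐᵒᵖ := by
  have := D.S_right
  have := D.X_right
  refine noeth_of_surj (M := D.Sᵐᵒᵖ × D.X) (RingHom.op (inlHom D.S D.X))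
    { toFun := fun p => op ((unop p.1, p.2) : D.R), map_zero' := rfl, map_add' := fun _ _ => rfl }
    (fun y => ⟨(op (unop y).1, (unop y).2), rfl⟩) fun s m =>
      unop_injective (TrivSqZeroExt.ext rfl ?_)
  change s • m.2 = unop m.1 • (0 : D.X) + s • m.2
  rw [smul_zero, zero_add]

lemma mem_jac {j : B} (hj : j ∈ D.J) :
    (inl (⟨j * D.t, D.J_le _ (D.J_mul j hj _)⟩, 0) : D.R) ∈ (⊥ : Ideal D.R).jacobson := by
  rw [Ideal.mem_jacobson_iff]
  intro y
  obtain ⟨z, hz1, hz2⟩ := D.inv (-(y.fst.1 * j))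
  have hzA : z ∈ D.A := by
    have h1 : z = 1 + (-(y.fst.1 * j)) * (D.t * z) := by
      rw [← mul_assoc, ← hz2, sub_mul, one_mul, sub_add_cancel]
    rw [h1]
    exact D.A.add_mem D.A.one_mem (D.J_le _ (D.J_mul _ (D.J.neg_mem (D.A_mul y.fst.1.2 hj)) _))
  refine ⟨inl (⟨z, hzA⟩, 1), ?_⟩
  rw [Ideal.mem_bot]
  refine TrivSqZeroExt.ext (Prod.ext (Subtype.ext ?_) ?_) ?_
  · change z * y.fst.1 * (j * D.t) + z - 1 = 0
    rw [← hz1]
    noncomm_ring
  · change 1 * y.fst.2 * 0 + 1 - 1 = 0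
    simp
  · rw [snd_sub, snd_add, snd_mul, snd_inl, snd_inl, snd_one, smul_zero, zero_add, add_zero,
      sub_zero, snd_zero, fst_inl]
    refine D.X_ext (mul_zero _) ?_
    rw [rsmul_snd]
    change _ * D.eC 0 + D.Φ _ 0 = 0
    simp

lemma mem_of_eq {I : Ideal D.R} {x y : D.X} (h : (inr x : D.R) ∈ I) (hxy : y = x) :
    (inr y : D.R) ∈ I := hxy ▸ h

/-- the element of the bimodule attached to a pair -/
def el {j l : B} (hj : j ∈ D.J) (hl : l ∈ D.L) : D.X :=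
  (⟨j * l, D.J_mul j hj l, D.mul_L l hl j⟩, D.Φ j l)

lemma el_mem (n : ℕ) : ∀ {j l : B} (hj : j ∈ D.J) (hl : l ∈ D.L),
    (inr (D.el (D.J_mul j hj (D.t ^ (3 * n))) hl) : D.R) ∈
      (fun I : Ideal D.R => ((⊥ : Ideal D.R).jacobson) • I)^[n] ⊤ := by
  induction n with
  | zero => intro j l hj hl; exact Submodule.mem_top
  | succ n ih =>
    intro j l hj hl
    obtain ⟨j₁, h₁, j₂, h₂, ht⟩ := D.t_sq
    rw [Function.iterate_succ_apply']
    have key : ∀ {a j' : B} (ha : a ∈ D.J) (hj' : j' ∈ D.J),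
        (inr (D.el (D.J_mul _ ha (D.t * j' * D.t ^ (3 * n))) hl) : D.R) ∈
          ((⊥ : Ideal D.R).jacobson) •
            (fun I : Ideal D.R => ((⊥ : Ideal D.R).jacobson) • I)^[n] ⊤ := by
      intro a j' ha hj'
      have h := Submodule.smul_mem_smul (D.mem_jac ha) (ih hj' hl)
      rw [smul_eq_mul (α := D.R), inl_mul_inr] at h
      refine D.mem_of_eq h (D.X_ext ?_ ?_)
      · change a * (D.t * j' * D.t ^ (3 * n)) * l = a * D.t * (j' * D.t ^ (3 * n) * l)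
        noncomm_ring
      · change D.Φ (a * (D.t * j' * D.t ^ (3 * n))) l =
          D.eA (a * D.t) * _ + D.Φ (a * D.t) (j' * D.t ^ (3 * n) * l)
        rw [D.eA_J _ (D.J_mul a ha _), zero_mul, zero_add, ← D.bal _ (D.J_mul a ha _) l hl]
        congr 2
        noncomm_ring
    have h3 := Submodule.add_mem _ (key (D.J_mul j hj D.t) h₁) (key hj h₂)
    rw [← inr_add] at h3
    have h4 : j * D.t ^ (3 * (n + 1)) =
        j * D.t * (D.t * j₁ * D.t ^ (3 * n)) + j * (D.t * j₂ * D.t ^ (3 * n)) := by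
      rw [show 3 * (n + 1) = 1 + 2 + 3 * n by ring, pow_add, pow_add, ht, pow_one]
      noncomm_ring
    refine D.mem_of_eq h3 (D.X_ext ?_ ?_)
    · change j * D.t ^ (3 * (n + 1)) * l = _ * l + _ * l
      rw [h4, add_mul]
    · change D.Φ (j * D.t ^ (3 * (n + 1))) l = D.Φ _ l + D.Φ _ l
      rw [h4, map_add, LinearMap.add_apply]

theorem eta_mem (n : ℕ) : (inr D.eta : D.R) ∈
    (fun I : Ideal D.R => ((⊥ : Ideal D.R).jacobson) • I)^[n] ⊤ := by
  obtain ⟨x, l, hx, hl, h1, h2⟩ := D.cyc (3 * n)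
  have h3 := Submodule.add_mem _ (Submodule.add_mem _ (D.el_mem n (hx 0) (hl 0))
    (D.el_mem n (hx 1) (hl 1))) (D.el_mem n (hx 2) (hl 2))
  rw [← inr_add, ← inr_add] at h3
  rw [Fin.sum_univ_three] at h1 h2
  have h4 := Ideal.mul_mem_left _ (inl (algebraMap ℂ D.A (D.Φ (x 0 * D.t ^ (3 * n)) (l 0) +
    D.Φ (x 1 * D.t ^ (3 * n)) (l 1) + D.Φ (x 2 * D.t ^ (3 * n)) (l 2))⁻¹, 0)) h3
  rw [inl_mul_inr] at h4
  refine D.mem_of_eq h4 (D.X_ext ?_ ?_)
  · change (0 : B) = _ * (_ + _ + _)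
    exact ((congrArg _ h1).trans (mul_zero _)).symm
  · change (1 : ℂ) = D.eA (algebraMap ℂ B _) * (_ + _ + _) + D.Φ (algebraMap ℂ B _) _
    rw [Algebra.algebraMap_eq_smul_one, map_smul, map_smul, D.eA_one, LinearMap.smul_apply,
      D.Φ_one_left, smul_zero, add_zero, smul_eq_mul, mul_one]
    exact (inv_mul_cancel₀ h2).symm

theorem eta_ne_zero : (inr D.eta : D.R) ≠ 0 := fun h =>
  one_ne_zero (congrArg (fun y : D.R => y.snd.2) h)

end TriData

universe u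

lemma not_jacobson_of_example {R : Type} [Ring R] (h1 : IsNoetherianRing R)
    (h2 : IsNoetherianRing Rᵐᵒᵖ) (x : R) (hx : x ≠ 0)
    (h : ∀ n : ℕ, x ∈ (fun I : Ideal R => ((⊥ : Ideal R).jacobson) • I)^[n] ⊤) :
    ¬ (∀ (R : Type u) [Ring R], IsNoetherianRing R → IsNoetherianRing Rᵐᵒᵖ →
      ∀ x : R,
        (∀ n : ℕ, x ∈ (fun I : Ideal R => ((⊥ : Ideal R).jacobson) • I)^[n] ⊤) →
          x = 0) := by
  intro H
  let e : R ≃+* ULift.{u} R := ULift.ringEquiv.symm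
  have hj : ∀ y ∈ (⊥ : Ideal R).jacobson, e y ∈ (⊥ : Ideal (ULift.{u} R)).jacobson := by
    intro y hy
    rw [Ideal.mem_jacobson_iff] at hy ⊢
    intro w
    obtain ⟨w, rfl⟩ := e.surjective w
    obtain ⟨z, hz⟩ := hy w
    refine ⟨e z, ?_⟩
    rw [Ideal.mem_bot] at hz ⊢
    rw [← map_mul, ← map_mul, ← map_add, ← map_one e, ← map_sub, hz, map_zero]
  have key : ∀ n : ℕ, ∀ y ∈ (fun I : Ideal R => ((⊥ : Ideal R).jacobson) • I)^[n] ⊤,
      e y ∈ (fun I : Ideal (ULift.{u} R) => ((⊥ : Ideal (ULift.{u} R)).jacobson) • I)^[n] ⊤ := by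
    intro n
    induction n with
    | zero => intro y _; exact Submodule.mem_top
    | succ n ih =>
      intro y hy
      rw [Function.iterate_succ_apply'] at hy ⊢
      refine Submodule.smul_induction_on hy (fun a ha b hb => ?_) fun a b ha hb => ?_
      · rw [smul_eq_mul (α := R), map_mul]
        exact Submodule.smul_mem_smul (hj a ha) (ih b hb)
      · rw [map_add]
        exact Submodule.add_mem _ ha hb
  have h3 := H (ULift.{u} R) (isNoetherianRing_of_ringEquiv R e)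
    (isNoetherianRing_of_ringEquiv Rᵐᵒᵖ (RingEquiv.op e)) (e x) fun n => key n x (h n)
  exact hx (e.injective (by rw [h3, map_zero]))

end Pool.Agent.P.MP_049749_al
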