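import Pool.Agent.P.MP_049749_al.Skew
import Pool.Agent.P.MP_049749_al.Idealizer
import Pool.Agent.P.MP_049749_al.Tri

/-! Assembling the counterexample. -/

set_option autoImplicit false

namespace Pool.Agent.P.MP_049749_al

open MulOpposite

variable {K : Type} [CommRing K] [Algebra ℂ K] {S : Setup K} {E : Type} [Ring E] [Algebra ℂ E]

namespace Ops

variable (O : Ops S E)

/-- the right action of the localised ring -/
def actU : O.BB →ₗ[ℂ] Module.End ℂ K := O.aU ∘ₗ O.BB.val.toLinearMap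

/-- the left action of the localised ring -/
def actZ : O.BB →ₗ[ℂ] Module.End ℂ K := O.aZ ∘ₗ O.BB.val.toLinearMap

lemma actU_mul (b c : O.BB) (u : K) : O.actU (b * c) u = O.actU c (O.actU b u) := O.aU_mul _ _ _

lemma actZ_mul (b c : O.BB) (u : K) : O.actZ (b * c) u = O.actZ b (O.actZ c u) := O.aZ_mul _ _ _

lemma actU_one (u : K) : O.actU 1 u = u := O.aU_one u

lemma actZ_one (u : K) : O.actZ 1 u = u := O.aZ_one u

/-- the coefficient ring inside the localised ring -/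
def iB : K →ₐ[ℂ] O.BB := O.iota.codRestrict O.BB fun f => O.oreData.le_loc (O.iota_mem_B1 f)

/-- the generators inside the localised ring -/
def TB (i : Fin 3) : O.BB := ⟨O.TT i, O.oreData.le_loc (O.TT_mem_B1 i)⟩

lemma actU_iB (f u : K) : O.actU (O.iB f) u = f * u := O.aU_iota f u

lemma actZ_iB (f u : K) : O.actZ (O.iB f) u = f * u := O.aZ_iota f u

lemma actU_TB (i : Fin 3) : O.actU (O.TB i) 1 = 1 := (O.aU_TT i 1).trans (map_one _)

lemma actZ_TB (i : Fin 3) : O.actZ (O.TB i) 1 = Complex.exp (cc i) • 1 :=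
  (O.aZ_TT i 1).trans (by rw [map_one])

lemma TB_mul_iB (i : Fin 3) (f : K) : O.TB i * O.iB f = O.iB (S.tau (-cc i) f) * O.TB i :=
  Subtype.ext (O.TT_mul_iota i f)

lemma iB_mul_TB (i : Fin 3) (f : K) : O.iB f * O.TB i = O.TB i * O.iB (S.tau (cc i) f) :=
  Subtype.ext (O.iota_mul_TT i f)

lemma TB_comm (i j : Fin 3) : O.TB i * O.TB j = O.TB j * O.TB i := Subtype.ext (O.TT_comm i j)

/-- the annihilator of the generator of `U` -/
def JJ : Submodule ℂ O.BB := LinearMap.ker (LinearMap.applyₗ (1 : K) ∘ₗ O.actU)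

/-- the annihilator of the generator of `Z` -/
def LL : Submodule ℂ O.BB := LinearMap.ker (LinearMap.applyₗ (1 : K) ∘ₗ O.actZ)

lemma mem_JJ {b : O.BB} : b ∈ O.JJ ↔ O.actU b 1 = 0 := Iff.rfl

lemma mem_LL {b : O.BB} : b ∈ O.LL ↔ O.actZ b 1 = 0 := Iff.rfl

lemma JJ_mul {j : O.BB} (hj : j ∈ O.JJ) (b : O.BB) : j * b ∈ O.JJ := by
  rw [mem_JJ] at hj ⊢
  rw [actU_mul, hj, map_zero]

lemma mul_LL {l : O.BB} (hl : l ∈ O.LL) (b : O.BB) : b * l ∈ O.LL := by
  rw [mem_LL] at hl ⊢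
  rw [actZ_mul, hl, map_zero]

/-- the first idealizer -/
def AA : Subalgebra ℂ O.BB where
  carrier := {b | ∃ l : ℂ, O.actU b 1 = l • 1}
  mul_mem' := by
    rintro a b ⟨l, hl⟩ ⟨m, hm⟩
    exact ⟨l * m, by rw [actU_mul, hl, map_smul, hm, smul_smul]⟩
  add_mem' := by
    rintro a b ⟨l, hl⟩ ⟨m, hm⟩
    exact ⟨l + m, by rw [map_add, LinearMap.add_apply, hl, hm, add_smul]⟩
  algebraMap_mem' c := ⟨c, by
    rw [Algebra.algebraMap_eq_smul_one, map_smul, LinearMap.smul_apply, actU_one]⟩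

/-- the second idealizer -/
def CC : Subalgebra ℂ O.BB where
  carrier := {b | ∃ l : ℂ, O.actZ b 1 = l • 1}
  mul_mem' := by
    rintro a b ⟨l, hl⟩ ⟨m, hm⟩
    exact ⟨m * l, by rw [actZ_mul, hm, map_smul, hl, smul_smul]⟩
  add_mem' := by
    rintro a b ⟨l, hl⟩ ⟨m, hm⟩
    exact ⟨l + m, by rw [map_add, LinearMap.add_apply, hl, hm, add_smul]⟩
  algebraMap_mem' c := ⟨c, by
    rw [Algebra.algebraMap_eq_smul_one, map_smul, LinearMap.smul_apply, actZ_one]⟩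

/-- generators of the right ideal -/
def aa (i : Fin 3) : O.BB := O.TB i - 1

/-- generators of the left ideal -/
noncomputable def bb (i : Fin 3) : O.BB := O.TB i - Complex.exp (cc i) • 1

lemma aa_mem (i : Fin 3) : O.aa i ∈ O.JJ := by
  rw [mem_JJ, aa, map_sub, LinearMap.sub_apply, actU_TB, actU_one, sub_self]

lemma bb_mem (i : Fin 3) : O.bb i ∈ O.LL := by
  rw [mem_LL, bb, map_sub, map_smul, LinearMap.sub_apply, LinearMap.smul_apply, actZ_TB, actZ_one,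
    sub_self]

lemma t_sq_right : ∃ j₁ ∈ O.JJ, ∃ j₂ ∈ O.JJ, O.iB S.t ^ 2 = O.iB S.t * j₁ + j₂ := by
  have h0 := S.one_sub (cc 0)
  have h1 : (S.tau (cc 0) S.t - S.t) * (1 - S.t) = S.t ^ 2 := by
    have : cc 0 = 1 := rfl
    rw [this, one_smul] at h0
    rw [this]
    linear_combination h0
  have h2 := congrArg O.iB h1
  rw [map_mul, map_sub, map_pow] at h2
  have h3 := O.iB_mul_TB 0 S.t
  refine ⟨O.aa 0 * O.iB (1 - S.t), O.JJ_mul (O.aa_mem 0) _,
    -(O.aa 0 * (O.iB S.t * O.iB (1 - S.t) + O.iB S.t ^ 2)),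
    O.JJ.neg_mem (O.JJ_mul (O.aa_mem 0) _), ?_⟩
  have h4 : O.TB 0 * O.iB S.t ^ 2 =
      O.iB S.t * O.TB 0 * O.iB (1 - S.t) - O.TB 0 * O.iB S.t * O.iB (1 - S.t) := by
    rw [← h2, h3]
    noncomm_ring
  rw [aa, sub_mul, sub_mul, mul_add (O.TB 0), h4]
  noncomm_ring

lemma t_sq_left : ∃ l₁ ∈ O.LL, ∃ l₂ ∈ O.LL, O.iB S.t ^ 2 = l₁ * O.iB S.t + l₂ := by
  have h0 := S.one_sub (-cc 0)
  have h1 : (1 + S.t) * (S.t - S.tau (-cc 0) S.t) = S.t ^ 2 := by
    have : cc 0 = 1 := rfl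
    rw [this, neg_smul, one_smul] at h0
    rw [this]
    linear_combination -h0
  have h2 := congrArg O.iB h1
  rw [map_mul, map_sub, map_pow] at h2
  have h3 := O.TB_mul_iB 0 S.t
  have h4 : O.iB S.t ^ 2 * O.TB 0 =
      O.iB (1 + S.t) * O.iB S.t * O.TB 0 - O.iB (1 + S.t) * (O.TB 0 * O.iB S.t) := by
    rw [← h2, h3]
    noncomm_ring
  have h5 : Complex.exp (cc 0) • O.iB S.t ^ 2 = -(O.iB (1 + S.t) * O.bb 0) * O.iB S.t +
      (O.iB (1 + S.t) * O.iB S.t - O.iB S.t ^ 2) * O.bb 0 := by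
    simp only [bb, mul_sub, sub_mul, neg_mul, h4, mul_smul_comm, smul_mul_assoc, mul_one, smul_sub,
      mul_assoc]
    abel
  refine ⟨(Complex.exp (cc 0))⁻¹ • -(O.iB (1 + S.t) * O.bb 0),
    O.LL.smul_mem _ (O.LL.neg_mem (O.mul_LL (O.bb_mem 0) _)),
    (Complex.exp (cc 0))⁻¹ • ((O.iB (1 + S.t) * O.iB S.t - O.iB S.t ^ 2) * O.bb 0),
    O.LL.smul_mem _ (O.mul_LL (O.bb_mem 0) _), ?_⟩
  rw [smul_mul_assoc, ← smul_add, ← h5, smul_smul, inv_mul_cancel₀ (Complex.exp_ne_zero _), one_smul]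

lemma t_ne_zero : O.iB S.t ≠ 0 := by
  intro h
  have h1 : S.t = 0 := by rw [← mul_one S.t, ← O.actZ_iB, h, map_zero, LinearMap.zero_apply]
  obtain ⟨g, -, hg⟩ := S.cocycle 1
  exact hg (by rw [h1]; simp)

lemma JJ_le {j : O.BB} (hj : j ∈ O.JJ) : j ∈ O.AA := ⟨0, by rw [zero_smul]; exact hj⟩

lemma LL_le {l : O.BB} (hl : l ∈ O.LL) : l ∈ O.CC := ⟨0, by rw [zero_smul]; exact hl⟩

lemma hker {c : O.BB} (hc : c ≠ 0) :
    (LinearMap.ker (O.actU c)).FG ∧ (LinearMap.ker (O.actZ c)).FG :=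
  O.ker_BB c.2 fun h => hc (Subtype.ext h)

lemma hcof {c : O.BB} (hc : c ≠ 0) : Cof (O.actU c) ∧ Cof (O.actZ c) :=
  O.cof_BB c.2 fun h => hc (Subtype.ext h)

lemma AA_left : IsNoetherianRing O.AA := by
  have := O.BB_left
  have := O.BB_domain
  exact noeth_of_right_action O.actU (O.actU_one 1) O.actU_mul O.iB.toLinearMap
    (fun u => (O.actU_iB u 1).trans (mul_one u)) (fun c hc => (O.hker hc).1)
    (fun c hc => (O.hcof hc).1) O.AA fun _ => Iff.rfl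

lemma CC_right : IsNoetherianRing (O.CC)ᵐᵒᵖ := by
  have := O.BB_right
  have := O.BB_domain
  have h := noeth_of_right_action (B := (O.BB)ᵐᵒᵖ)
    (O.actZ ∘ₗ (opLinearEquiv ℂ).symm.toLinearMap) (O.actZ_one 1)
    (fun b c u => O.actZ_mul _ _ u) ((opLinearEquiv ℂ).toLinearMap ∘ₗ O.iB.toLinearMap)
    (fun u => (O.actZ_iB u 1).trans (mul_one u))
    (fun c hc => (O.hker fun h => hc (unop_injective h)).2)
    (fun c hc => (O.hcof fun h => hc (unop_injective h)).2) O.CC.op fun _ => Iff.rfl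
  exact isNoetherianRing_of_ringEquiv _ O.CC.mopAlgEquivOp.symm.toRingEquiv

lemma CC_left : IsNoetherianRing O.CC := by
  have := O.BB_left
  have := O.BB_domain
  obtain ⟨l₁, h₁, l₂, h₂, h⟩ := O.t_sq_left
  have hl : ∃ l ∈ O.LL, l ≠ 0 := by
    by_contra hc
    push Not at hc
    rw [hc l₁ h₁, hc l₂ h₂, zero_mul, zero_add] at h
    exact O.t_ne_zero (pow_eq_zero_iff two_ne_zero |>.1 h)
  obtain ⟨l, hl, hl0⟩ := hl
  refine noeth_of_left_action O.actZ O.actZ_mul O.iB.toLinearMap O.actZ_iB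
    (fun c hc => (O.hker hc).2) (fun c hc => (O.hcof hc).2) O.CC (fun _ => Iff.rfl) (O.iB S.t)
    (fun b => ?_) l hl0 hl
  obtain ⟨x, y, w, hw⟩ := S.decomp (O.actZ b 1)
  have h3 : b - O.iB (O.actZ b 1) ∈ O.LL := by
    rw [mem_LL, map_sub, LinearMap.sub_apply, actZ_iB, mul_one, sub_self]
  refine ⟨(b - O.iB (O.actZ b 1)) + x • 1 + O.iB w * l₂, O.CC.add_mem (O.CC.add_mem (O.LL_le h3)
    (O.CC.smul_mem O.CC.one_mem _)) (O.LL_le (O.mul_LL h₂ _)), y • 1 + O.iB w * l₁,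
    O.CC.add_mem (O.CC.smul_mem O.CC.one_mem _) (O.LL_le (O.mul_LL h₁ _)), ?_⟩
  rw [hw, map_add, map_add, map_smul, map_smul, map_one, map_mul, map_pow, h, add_mul,
    smul_mul_assoc, one_mul, mul_add, mul_assoc]
  abel

lemma AA_right : IsNoetherianRing (O.AA)ᵐᵒᵖ := by
  have := O.BB_right
  have := O.BB_domain
  obtain ⟨j₁, h₁, j₂, h₂, h⟩ := O.t_sq_right
  have hj : ∃ j ∈ O.JJ, j ≠ 0 := by
    by_contra hc
    push Not at hc
    rw [hc j₁ h₁, hc j₂ h₂, mul_zero, zero_add] at h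
    exact O.t_ne_zero (pow_eq_zero_iff two_ne_zero |>.1 h)
  obtain ⟨j, hj, hj0⟩ := hj
  have h := noeth_of_left_action (B := (O.BB)ᵐᵒᵖ)
    (O.actU ∘ₗ (opLinearEquiv ℂ).symm.toLinearMap)
    (fun b c u => O.actU_mul _ _ u) ((opLinearEquiv ℂ).toLinearMap ∘ₗ O.iB.toLinearMap)
    O.actU_iB (fun c hc => (O.hker fun h => hc (unop_injective h)).1)
    (fun c hc => (O.hcof fun h => hc (unop_injective h)).1) O.AA.op (fun _ => Iff.rfl)
    (op (O.iB S.t)) (fun b => by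
      obtain ⟨x, y, w, hw⟩ := S.decomp (O.actU (unop b) 1)
      have h3 : unop b - O.iB (O.actU (unop b) 1) ∈ O.JJ := by
        rw [mem_JJ, map_sub, LinearMap.sub_apply, actU_iB, mul_one, sub_self]
      refine ⟨op ((unop b - O.iB (O.actU (unop b) 1)) + x • 1 + j₂ * O.iB w),
        O.AA.add_mem (O.AA.add_mem (O.JJ_le h3)
        (O.AA.smul_mem O.AA.one_mem _)) (O.JJ_le (O.JJ_mul h₂ _)), op (y • 1 + j₁ * O.iB w),
        O.AA.add_mem (O.AA.smul_mem O.AA.one_mem _) (O.JJ_le (O.JJ_mul h₁ _)),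
        unop_injective ?_⟩
      rw [unop_add, unop_mul, unop_op, unop_op, unop_op, hw, mul_comm w, map_add, map_add, map_smul,
        map_smul, map_one, map_mul, map_pow, h, mul_add, mul_smul_comm, mul_one, add_mul, mul_assoc]
      abel) (op j) (fun h => hj0 (op_injective h)) hj
  exact isNoetherianRing_of_ringEquiv _ O.AA.mopAlgEquivOp.symm.toRingEquiv

/-- first order term on `U` -/
def dU : O.BB →ₗ[ℂ] K := LinearMap.applyₗ (1 : K) ∘ₗ O.bU ∘ₗ O.BB.val.toLinearMap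

/-- first order term on `Z` -/
def dZ : O.BB →ₗ[ℂ] K := LinearMap.applyₗ (1 : K) ∘ₗ O.bZ ∘ₗ O.BB.val.toLinearMap

lemma dU_mul {j : O.BB} (hj : j ∈ O.JJ) (b : O.BB) : O.dU (j * b) = O.actU b (O.dU j) := by
  have h : O.aU j 1 = 0 := hj
  change O.bU (j * b) 1 = _
  rw [O.bU_mul, h, map_zero, zero_add]
  rfl

lemma dZ_mul {l : O.BB} (hl : l ∈ O.LL) (b : O.BB) : O.dZ (b * l) = O.actZ b (O.dZ l) := by
  have h : O.aZ l 1 = 0 := hl
  change O.bZ (b * l) 1 = _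
  rw [O.bZ_mul, h, map_zero, add_zero]
  rfl

lemma dU_one : O.dU 1 = 0 := O.bU_one 1

lemma dZ_one : O.dZ 1 = 0 := O.bZ_one 1

lemma dU_aa (i : Fin 3) : O.dU (O.aa i) = vU i • 1 := by
  rw [aa, map_sub, dU_one, sub_zero]
  exact (O.bU_TT i 1).trans (by rw [map_one])

lemma dZ_bb (i : Fin 3) : O.dZ (O.bb i) = vZ i • Complex.exp (cc i) • 1 := by
  rw [bb, map_sub, map_smul, dZ_one, smul_zero, sub_zero]
  exact (O.bZ_TT i 1).trans (by rw [map_one])

/-- the balanced form -/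
def PP : O.BB →ₗ[ℂ] O.BB →ₗ[ℂ] ℂ := ((LinearMap.mul ℂ K).compr₂ S.ev).compl₁₂ O.dU O.dZ

lemma PP_apply (b c : O.BB) : O.PP b c = S.ev (O.dU b * O.dZ c) := rfl

lemma iB_mul_bb (i : Fin 3) (g : K) : O.iB g * O.bb i =
    O.aa i * O.iB (S.tau (cc i) g) + O.iB (S.tau (cc i) g - Complex.exp (cc i) • g) := by
  rw [bb, aa, mul_sub, iB_mul_TB, map_sub, map_smul, mul_smul_comm, mul_one, sub_mul, one_mul]
  abel

lemma bb_comm (i j : Fin 3) : O.bb i * O.bb j = O.bb j * O.bb i := by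
  simp only [bb, mul_sub, sub_mul, mul_smul_comm, smul_mul_assoc, mul_one, one_mul, O.TB_comm i j,
    smul_sub, smul_smul, mul_comm]
  abel

lemma cyc (N : ℕ) : ∃ x l : Fin 3 → O.BB, (∀ i, x i ∈ O.JJ) ∧ (∀ i, l i ∈ O.LL) ∧
    ∑ i, x i * O.iB S.t ^ N * l i = 0 ∧ ∑ i, O.PP (x i * O.iB S.t ^ N) (l i) ≠ 0 := by
  obtain ⟨g, hg, hg0⟩ := S.cocycle N
  choose u hu using S.exists_tau_t
  let h : Fin 3 → Fin 3 → K := fun i j => u (cc j) ^ N * S.tau (cc j) (g i)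
  have hh : ∀ i j, h i j * S.t ^ N = S.tau (cc j) (S.t ^ N * g i) := fun i j => by
    rw [map_mul, map_pow, hu, mul_pow]
    ring
  let y : Fin 3 → Fin 3 → O.BB := fun i j => O.aa j * O.iB (h i j) - O.aa i * O.iB (h j i)
  have hy : ∀ i j, y i j ∈ O.JJ := fun i j =>
    O.JJ.sub_mem (O.JJ_mul (O.aa_mem _) _) (O.JJ_mul (O.aa_mem _) _)
  have hy1 : ∀ i j, y i j * O.iB S.t ^ N =
      O.aa j * O.iB (S.tau (cc j) (S.t ^ N * g i)) - O.aa i * O.iB (S.tau (cc i) (S.t ^ N * g j)) := by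
    intro i j
    rw [sub_mul, mul_assoc, mul_assoc, ← map_pow, ← map_mul, ← map_mul, hh, hh]
  have hy2 : ∀ i j, y i j * O.iB S.t ^ N =
      O.iB (S.t ^ N * g i) * O.bb j - O.iB (S.t ^ N * g j) * O.bb i := by
    intro i j
    rw [hy1, iB_mul_bb, iB_mul_bb, hg i j]
    abel
  refine ⟨![y 1 2, y 2 0, y 0 1], O.bb, fun i => by fin_cases i <;> exact hy _ _, O.bb_mem, ?_, ?_⟩
  · rw [Fin.sum_univ_three]
    change y 1 2 * _ * _ + y 2 0 * _ * _ + y 0 1 * _ * _ = 0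
    rw [hy2, hy2, hy2]
    simp only [sub_mul, mul_assoc, O.bb_comm 1 0, O.bb_comm 2 0, O.bb_comm 2 1]
    abel
  · rw [Fin.sum_univ_three]
    change O.PP (y 1 2 * _) _ + O.PP (y 2 0 * _) _ + O.PP (y 0 1 * _) _ ≠ 0
    rw [PP_apply, PP_apply, PP_apply, dZ_bb, dZ_bb, dZ_bb, hy1 0 1, map_sub,
      O.dU_mul (O.aa_mem _), O.dU_mul (O.aa_mem _), dU_aa, dU_aa, actU_iB, actU_iB]
    have h1 : vZ 0 = 0 := rfl
    have h2 : vZ 1 = 0 := rfl
    have h3 : vZ 2 = 1 := rfl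
    have h4 : vU 0 = 0 := rfl
    have h5 : vU 1 = 1 := rfl
    simp only [h1, h2, h3, h4, h5, zero_smul, one_smul, mul_zero, map_zero, zero_add, mul_one,
      sub_zero, mul_smul_comm, map_smul, S.ev_tau, smul_eq_mul]
    exact mul_ne_zero (Complex.exp_ne_zero _) (mul_ne_zero (Complex.exp_ne_zero _) hg0)

/-- the data of the triangular ring -/
noncomputable def triData : TriData O.BB where
  J := O.JJ
  L := O.LL
  A := O.AA
  C := O.CC
  eA := S.eps ∘ₗ LinearMap.applyₗ (1 : K) ∘ₗ O.actU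
  eC := S.eps ∘ₗ LinearMap.applyₗ (1 : K) ∘ₗ O.actZ
  Φ := O.PP
  t := O.iB S.t
  J_mul := fun _ hj b => O.JJ_mul hj b
  mul_L := fun _ hl b => O.mul_LL hl b
  J_le := fun _ hj => O.JJ_le hj
  L_le := fun _ hl => O.LL_le hl
  sub_A := by
    rintro a ⟨l, hl⟩
    change a - S.eps (O.actU a 1) • 1 ∈ O.JJ
    rw [mem_JJ, map_sub, map_smul, LinearMap.sub_apply, LinearMap.smul_apply, actU_one, hl,
      map_smul, S.eps_one, smul_eq_mul, mul_one, sub_self]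
  sub_C := by
    rintro a ⟨l, hl⟩
    change a - S.eps (O.actZ a 1) • 1 ∈ O.LL
    rw [mem_LL, map_sub, map_smul, LinearMap.sub_apply, LinearMap.smul_apply, actZ_one, hl,
      map_smul, S.eps_one, smul_eq_mul, mul_one, sub_self]
  eA_J := fun j hj => by
    change S.eps (O.actU j 1) = 0
    rw [O.mem_JJ.1 hj, map_zero]
  eC_L := fun l hl => by
    change S.eps (O.actZ l 1) = 0
    rw [O.mem_LL.1 hl, map_zero]
  eA_one := by
    change S.eps (O.actU 1 1) = 1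
    rw [actU_one, S.eps_one]
  eC_one := by
    change S.eps (O.actZ 1 1) = 1
    rw [actZ_one, S.eps_one]
  Φ_one_left := fun b => by rw [PP_apply, dU_one, zero_mul, map_zero]
  Φ_one_right := fun b => by rw [PP_apply, dZ_one, mul_zero, map_zero]
  bal := fun j hj l hl b => by
    rw [PP_apply, PP_apply, O.dU_mul hj, O.dZ_mul hl]
    exact O.BB_bal b.2 _ _
  A_left := O.AA_left
  A_right := O.AA_right
  C_left := O.CC_left
  C_right := O.CC_right
  inv := fun b => by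
    obtain ⟨z, hz, h1, h2⟩ := O.oreData.loc_inv b.2
    exact ⟨⟨z, hz⟩, Subtype.ext h1, Subtype.ext h2⟩
  t_sq := O.t_sq_right
  cyc := O.cyc

end Ops

universe u

theorem Ops.jacobson_false (O : Ops S E) :
    ¬ (∀ (R : Type u) [Ring R], IsNoetherianRing R → IsNoetherianRing Rᵐᵒᵖ →
      ∀ x : R,
        (∀ n : ℕ, x ∈ (fun I : Ideal R => ((⊥ : Ideal R).jacobson) • I)^[n] ⊤) →
          x = 0) :=
  not_jacobson_of_example O.triData.R_left O.triData.R_right _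
    O.triData.eta_ne_zero O.triData.eta_mem

theorem Setup.jacobson_false (S : Setup K) :
    ¬ (∀ (R : Type u) [Ring R], IsNoetherianRing R → IsNoetherianRing Rᵐᵒᵖ →
      ∀ x : R,
        (∀ n : ℕ, x ∈ (fun I : Ideal R => ((⊥ : Ideal R).jacobson) • I)^[n] ⊤) →
          x = 0) :=
  (opsAmb S).jacobson_false

theorem jacobson_false :
    ¬ (∀ (R : Type u) [Ring R], IsNoetherianRing R → IsNoetherianRing Rᵐᵒᵖ →
      ∀ x : R,
        (∀ n : ℕ, x ∈ (fun I : Ideal R => ((⊥ : Ideal R).jacobson) • I)^[n] ⊤) →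
          x = 0) :=
  setupKK.jacobson_false

end Pool.Agent.P.MP_049749_al
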