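import Pool.Agent.P.MP_049749_al.Amb

/-! The skew polynomial ring `B1` and its localisation. -/

set_option autoImplicit false

namespace Pool.Agent.P.MP_049749_al

open MulOpposite

lemma cc_injective : Function.Injective fun β : Fin 3 → ℕ => ∑ i, (β i : ℂ) * cc i := by
  intro β γ h
  simp only [Fin.sum_univ_three, cc, Matrix.cons_val_zero, Matrix.cons_val_one,
    Matrix.cons_val] at h
  have h1 := congrArg Complex.im h
  have h2 := congrArg Complex.re h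
  simp at h1 h2
  have h3 : β 2 = γ 2 := by
    by_contra h3
    have h4 : ((β 2 : ℤ) - γ 2 : ℤ) ≠ 0 := by omega
    refine (irrational_sqrt_two.intCast_mul h4).ne_int ((γ 0 : ℤ) - β 0) ?_
    push_cast
    linarith
  have h5 : β 0 = γ 0 := by
    rw [h3] at h2
    exact_mod_cast add_right_cancel h2
  funext i
  fin_cases i
  · exact h5
  · exact h1
  · exact h3

variable {K : Type} [CommRing K] [Algebra ℂ K] {S : Setup K} {E : Type} [Ring E] [Algebra ℂ E]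

namespace Ops

variable (O : Ops S E)

lemma aU_one (u : K) : O.aU 1 u = u := by rw [← map_one O.iota, O.aU_iota, one_mul]

lemma aZ_one (u : K) : O.aZ 1 u = u := by rw [← map_one O.iota, O.aZ_iota, one_mul]

lemma bU_one (u : K) : O.bU 1 u = 0 := by rw [← map_one O.iota, O.bU_iota]

lemma bZ_one (u : K) : O.bZ 1 u = 0 := by rw [← map_one O.iota, O.bZ_iota]

lemma TT_mul_iota (i : Fin 3) (f : K) :
    O.TT i * O.iota f = O.iota (S.tau (-cc i) f) * O.TT i := by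
  refine O.ext _ _ (fun u => ?_) (fun u => ?_) (fun u => ?_) (fun u => ?_)
  · rw [O.aU_mul, O.aU_mul, O.aU_iota, O.aU_iota, O.aU_TT, O.aU_TT, map_mul, S.tau_tau_neg]
  · rw [O.bU_mul, O.bU_mul, O.bU_iota, O.bU_iota, O.aU_iota, O.aU_iota, O.bU_TT, O.bU_TT, map_mul,
      S.tau_tau_neg, map_zero, zero_add, add_zero, mul_smul_comm]
  · rw [O.aZ_mul, O.aZ_mul, O.aZ_iota, O.aZ_iota, O.aZ_TT, O.aZ_TT, map_mul, mul_smul_comm]
  · rw [O.bZ_mul, O.bZ_mul, O.bZ_iota, O.bZ_iota, O.aZ_iota, O.aZ_iota, O.bZ_TT, O.bZ_TT, map_mul,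
      map_zero, zero_add, add_zero, mul_smul_comm, mul_smul_comm]

lemma iota_mul_TT (i : Fin 3) (f : K) :
    O.iota f * O.TT i = O.TT i * O.iota (S.tau (cc i) f) := by
  rw [TT_mul_iota, S.tau_neg_tau]

lemma TT_comm (i j : Fin 3) : O.TT i * O.TT j = O.TT j * O.TT i := by
  refine O.ext _ _ (fun u => ?_) (fun u => ?_) (fun u => ?_) (fun u => ?_)
  · simp only [O.aU_mul, O.aU_TT, S.tau_tau, add_comm]
  · simp only [O.bU_mul, O.aU_TT, O.bU_TT, map_smul, S.tau_tau, add_comm]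
  · simp only [O.aZ_mul, O.aZ_TT, map_smul, S.tau_tau, add_comm, smul_smul, mul_comm]
  · simp only [O.bZ_mul, O.aZ_TT, O.bZ_TT, map_smul, S.tau_tau, add_comm, smul_smul, mul_comm,
      mul_left_comm, mul_assoc]

/-- the chain of skew polynomial rings -/
def L0 : Subring E := O.iota.toRingHom.range

/-- the chain of skew polynomial rings -/
def L1 : Subring E := Subring.closure ((O.L0 : Set E) ∪ {O.TT 0})

/-- the chain of skew polynomial rings -/
def L2 : Subring E := Subring.closure ((O.L1 : Set E) ∪ {O.TT 1})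

/-- the skew polynomial ring in three variables -/
def B1 : Subring E := Subring.closure ((O.L2 : Set E) ∪ {O.TT 2})

lemma iota_mem_L0 (f : K) : O.iota f ∈ O.L0 := ⟨f, rfl⟩

lemma L0_le_L1 : O.L0 ≤ O.L1 := fun _ h => Subring.subset_closure (Or.inl h)

lemma L1_le_L2 : O.L1 ≤ O.L2 := fun _ h => Subring.subset_closure (Or.inl h)

lemma L2_le_B1 : O.L2 ≤ O.B1 := fun _ h => Subring.subset_closure (Or.inl h)

lemma iota_mem_B1 (f : K) : O.iota f ∈ O.B1 :=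
  O.L2_le_B1 (O.L1_le_L2 (O.L0_le_L1 (O.iota_mem_L0 f)))

lemma TT_mem_B1 (i : Fin 3) : O.TT i ∈ O.B1 := by
  fin_cases i
  · exact O.L2_le_B1 (O.L1_le_L2 (Subring.subset_closure (Or.inr rfl)))
  · exact O.L2_le_B1 (Subring.subset_closure (Or.inr rfl))
  · exact Subring.subset_closure (Or.inr rfl)

lemma B1_le {P : Subring E} (h1 : ∀ f, O.iota f ∈ P) (h2 : ∀ i, O.TT i ∈ P) : O.B1 ≤ P := by
  have h0 : O.L0 ≤ P := by rintro _ ⟨f, rfl⟩; exact h1 f
  have h3 : O.L1 ≤ P :=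
    Subring.closure_le.2 (Set.union_subset h0 (Set.singleton_subset_iff.2 (h2 0)))
  have h4 : O.L2 ≤ P :=
    Subring.closure_le.2 (Set.union_subset h3 (Set.singleton_subset_iff.2 (h2 1)))
  exact Subring.closure_le.2 (Set.union_subset h4 (Set.singleton_subset_iff.2 (h2 2)))

lemma nL0 (i : Fin 3) : ∀ r ∈ O.L0, ∃ r' ∈ O.L0, O.TT i * r = r' * O.TT i := by
  rintro _ ⟨f, rfl⟩
  exact ⟨_, O.iota_mem_L0 _, O.TT_mul_iota i f⟩

lemma nR0 (i : Fin 3) : ∀ r ∈ O.L0, ∃ r' ∈ O.L0, r * O.TT i = O.TT i * r' := by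
  rintro _ ⟨f, rfl⟩
  exact ⟨_, O.iota_mem_L0 _, O.iota_mul_TT i f⟩

lemma nL1 (i : Fin 3) : ∀ r ∈ O.L1, ∃ r' ∈ O.L1, O.TT i * r = r' * O.TT i :=
  normL_closure (O.nL0 i) ⟨_, Subring.subset_closure (Or.inr rfl), O.TT_comm _ _⟩

lemma nR1 (i : Fin 3) : ∀ r ∈ O.L1, ∃ r' ∈ O.L1, r * O.TT i = O.TT i * r' :=
  normR_closure (O.nR0 i) ⟨_, Subring.subset_closure (Or.inr rfl), O.TT_comm _ _⟩

lemma nL2 (i : Fin 3) : ∀ r ∈ O.L2, ∃ r' ∈ O.L2, O.TT i * r = r' * O.TT i :=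
  normL_closure (O.nL1 i) ⟨_, Subring.subset_closure (Or.inr rfl), O.TT_comm _ _⟩

lemma nR2 (i : Fin 3) : ∀ r ∈ O.L2, ∃ r' ∈ O.L2, r * O.TT i = O.TT i * r' :=
  normR_closure (O.nR1 i) ⟨_, Subring.subset_closure (Or.inr rfl), O.TT_comm _ _⟩

lemma B1_left : IsNoetherianRing O.B1 := by
  have := S.noeth
  have h0 : IsNoetherianRing O.L0 := isNoetherianRing_range _
  have h1 : IsNoetherianRing O.L1 := hbt (O.nL0 0) (O.nR0 0)
  have h2 : IsNoetherianRing O.L2 := hbt (O.nL1 1) (O.nR1 1)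
  exact hbt (O.nL2 2) (O.nR2 2)

lemma B1_right : IsNoetherianRing O.B1.op := by
  have := S.noeth
  have h0 : IsNoetherianRing O.L0.op := by
    have h : (O.iota.toRingHom.toOpposite fun x y => (Commute.all x y).map _).range = O.L0.op := by
      ext x
      constructor
      · rintro ⟨f, rfl⟩
        exact ⟨f, rfl⟩
      · rintro ⟨f, hf⟩
        exact ⟨f, unop_injective hf⟩
    rw [← h]
    exact isNoetherianRing_range _
  have h1 : IsNoetherianRing O.L1.op := hbt_op (O.nL0 0) (O.nR0 0)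
  have h2 : IsNoetherianRing O.L2.op := hbt_op (O.nL1 1) (O.nR1 1)
  exact hbt_op (O.nL2 2) (O.nR2 2)

/-- the image of the uniformiser -/
def tA : E := O.iota S.t

lemma tA_mul_TT (i : Fin 3) : ∃ u, O.tA * O.TT i = (O.TT i * O.iota u) * O.tA := by
  obtain ⟨u, hu⟩ := S.exists_tau_t (cc i)
  exact ⟨u, by rw [tA, iota_mul_TT, hu, mul_comm S.t, map_mul, mul_assoc]⟩

lemma TT_mul_tA (i : Fin 3) : ∃ u, O.TT i * O.tA = O.tA * (O.iota u * O.TT i) := by
  obtain ⟨u, hu⟩ := S.exists_tau_t (-cc i)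
  exact ⟨u, by rw [tA, TT_mul_iota, hu, map_mul, mul_assoc]⟩

lemma tA_n1 : ∀ r ∈ O.B1, ∃ r' ∈ O.B1, O.tA * r = r' * O.tA := by
  have h0 : ∀ r ∈ O.L0, ∃ r' ∈ O.L0, O.tA * r = r' * O.tA := by
    rintro _ ⟨f, rfl⟩
    exact ⟨_, O.iota_mem_L0 f, ((Commute.all S.t f).map O.iota).eq⟩
  obtain ⟨u0, hu0⟩ := O.tA_mul_TT 0
  obtain ⟨u1, hu1⟩ := O.tA_mul_TT 1
  obtain ⟨u2, hu2⟩ := O.tA_mul_TT 2
  have h1 : ∀ r ∈ O.L1, ∃ r' ∈ O.L1, O.tA * r = r' * O.tA := normL_closure h0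
    ⟨_, O.L1.mul_mem (Subring.subset_closure (Or.inr rfl)) (O.L0_le_L1 (O.iota_mem_L0 _)), hu0⟩
  have h2 : ∀ r ∈ O.L2, ∃ r' ∈ O.L2, O.tA * r = r' * O.tA := normL_closure h1
    ⟨_, O.L2.mul_mem (Subring.subset_closure (Or.inr rfl))
      (O.L1_le_L2 (O.L0_le_L1 (O.iota_mem_L0 _))), hu1⟩
  exact normL_closure h2 ⟨_, O.B1.mul_mem (O.TT_mem_B1 2) (O.iota_mem_B1 _), hu2⟩

lemma tA_n2 : ∀ r ∈ O.B1, ∃ r' ∈ O.B1, r * O.tA = O.tA * r' := by
  have h0 : ∀ r ∈ O.L0, ∃ r' ∈ O.L0, r * O.tA = O.tA * r' := by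
    rintro _ ⟨f, rfl⟩
    exact ⟨_, O.iota_mem_L0 f, ((Commute.all f S.t).map O.iota).eq⟩
  obtain ⟨u0, hu0⟩ := O.TT_mul_tA 0
  obtain ⟨u1, hu1⟩ := O.TT_mul_tA 1
  obtain ⟨u2, hu2⟩ := O.TT_mul_tA 2
  have h1 : ∀ r ∈ O.L1, ∃ r' ∈ O.L1, r * O.tA = O.tA * r' := normR_closure h0
    ⟨_, O.L1.mul_mem (O.L0_le_L1 (O.iota_mem_L0 _)) (Subring.subset_closure (Or.inr rfl)), hu0⟩
  have h2 : ∀ r ∈ O.L2, ∃ r' ∈ O.L2, r * O.tA = O.tA * r' := normR_closure h1
    ⟨_, O.L2.mul_mem (O.L1_le_L2 (O.L0_le_L1 (O.iota_mem_L0 _)))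
      (Subring.subset_closure (Or.inr rfl)), hu1⟩
  exact normR_closure h2 ⟨_, O.B1.mul_mem (O.iota_mem_B1 _) (O.TT_mem_B1 2), hu2⟩

/-- total translation length -/
noncomputable def cB (β : Fin 3 → ℕ) : ℂ := ∑ i, (β i : ℂ) * cc i

/-- monomials -/
def Tp (β : Fin 3 → ℕ) : E := O.TT 0 ^ β 0 * O.TT 1 ^ β 1 * O.TT 2 ^ β 2

lemma TT_pow_mul_iota (i : Fin 3) (n : ℕ) (f : K) :
    O.TT i ^ n * O.iota f = O.iota (S.tau (-(n * cc i)) f) * O.TT i ^ n := by
  induction n with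
  | zero => simp [S.tau_zero]
  | succ n ih =>
    rw [pow_succ', mul_assoc, ih, ← mul_assoc, TT_mul_iota, S.tau_tau, mul_assoc]
    congr 3
    push_cast
    ring_nf

lemma Tp_mul_iota (β : Fin 3 → ℕ) (f : K) :
    O.Tp β * O.iota f = O.iota (S.tau (-cB β) f) * O.Tp β := by
  rw [Tp, mul_assoc, TT_pow_mul_iota, ← mul_assoc, mul_assoc _ _ (O.iota _), TT_pow_mul_iota,
    ← mul_assoc, TT_pow_mul_iota, S.tau_tau, S.tau_tau, cB, Fin.sum_univ_three, mul_assoc,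
    mul_assoc, mul_assoc]
  congr 3
  ring_nf

lemma Tp_add (β γ : Fin 3 → ℕ) : O.Tp β * O.Tp γ = O.Tp (β + γ) := by
  have h : ∀ i j m n, O.TT i ^ m * O.TT j ^ n = O.TT j ^ n * O.TT i ^ m := fun i j m n =>
    (Commute.pow_pow (O.TT_comm i j) m n).eq
  simp only [Tp, Pi.add_apply, pow_add, mul_assoc]
  congr 1
  rw [← mul_assoc (O.TT 2 ^ β 2), h 2 0, mul_assoc, ← mul_assoc (O.TT 1 ^ β 1), h 1 0, mul_assoc]
  congr 2
  rw [← mul_assoc, h 2 1, mul_assoc]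

lemma aU_TT_pow (i : Fin 3) (n : ℕ) (u : K) : O.aU (O.TT i ^ n) u = S.tau (n * cc i) u := by
  induction n with
  | zero => simp [S.tau_zero, aU_one]
  | succ n ih =>
    rw [pow_succ, O.aU_mul, ih, O.aU_TT, S.tau_tau]
    congr 2
    push_cast
    ring_nf

lemma aU_Tp (β : Fin 3 → ℕ) (u : K) : O.aU (O.Tp β) u = S.tau (cB β) u := by
  rw [Tp, O.aU_mul, O.aU_mul, aU_TT_pow, aU_TT_pow, aU_TT_pow, S.tau_tau, S.tau_tau, cB,
    Fin.sum_univ_three]
  congr 2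
  ring_nf

lemma aZ_TT_pow (i : Fin 3) (n : ℕ) (u : K) :
    O.aZ (O.TT i ^ n) u = Complex.exp (n * cc i) • S.tau (-(n * cc i)) u := by
  induction n with
  | zero => simp [S.tau_zero, aZ_one]
  | succ n ih =>
    rw [pow_succ', O.aZ_mul, ih, O.aZ_TT, map_smul, S.tau_tau, smul_smul, ← Complex.exp_add]
    congr 2
    · push_cast; ring_nf
    · push_cast; ring_nf

lemma aZ_Tp (β : Fin 3 → ℕ) (u : K) :
    O.aZ (O.Tp β) u = Complex.exp (cB β) • S.tau (-cB β) u := by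
  rw [Tp, O.aZ_mul, O.aZ_mul, aZ_TT_pow, aZ_TT_pow, aZ_TT_pow, map_smul, map_smul, map_smul,
    S.tau_tau, S.tau_tau, smul_smul, smul_smul, ← Complex.exp_add, ← Complex.exp_add, cB,
    Fin.sum_univ_three]
  congr 2
  ring_nf

/-- normal forms -/
noncomputable def nf : ((Fin 3 → ℕ) →₀ K) →+ E :=
  Finsupp.liftAddHom fun β => (AddMonoidHom.mulRight (O.Tp β)).comp O.iota.toRingHom.toAddMonoidHom

lemma nf_single (β : Fin 3 → ℕ) (f : K) : O.nf (Finsupp.single β f) = O.iota f * O.Tp β := by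
  simp [nf]

lemma nf_apply (g : (Fin 3 → ℕ) →₀ K) : O.nf g = ∑ β ∈ g.support, O.iota (g β) * O.Tp β := by
  simp [nf, Finsupp.sum]

lemma exists_nf {x : E} (hx : x ∈ O.B1) : ∃ g, O.nf g = x := by
  have hT0 : O.Tp 0 = 1 := by simp [Tp]
  let P : Subring E :=
    { O.nf.range with
      one_mem' := ⟨Finsupp.single 0 1, by rw [nf_single, hT0, map_one, one_mul]⟩
      mul_mem' := by
        rintro _ _ ⟨g, rfl⟩ ⟨h, rfl⟩
        change _ ∈ O.nf.range
        induction g using Finsupp.induction_linear with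
        | zero => rw [map_zero, zero_mul]; exact zero_mem _
        | add a b ha hb => rw [map_add, add_mul]; exact add_mem ha hb
        | single β f =>
          induction h using Finsupp.induction_linear with
          | zero => rw [map_zero, mul_zero]; exact zero_mem _
          | add a b ha hb => rw [map_add, mul_add]; exact add_mem ha hb
          | single γ f' =>
            refine ⟨Finsupp.single (β + γ) (f * S.tau (-cB β) f'), ?_⟩
            rw [nf_single, nf_single, nf_single, mul_assoc, ← mul_assoc (O.Tp β), Tp_mul_iota,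
              mul_assoc, Tp_add, map_mul, mul_assoc] }
  refine O.B1_le (P := P) (fun f => ⟨Finsupp.single 0 f, by rw [nf_single, hT0, mul_one]⟩)
    (fun i => ⟨Finsupp.single (Pi.single i 1) 1, ?_⟩) hx
  rw [nf_single, map_one, one_mul]
  fin_cases i <;> simp [Tp]

lemma aU_nf (g : (Fin 3 → ℕ) →₀ K) (u : K) :
    O.aU (O.nf g) u = ∑ β ∈ g.support, S.tau (cB β) (g β) * S.tau (cB β) u := by
  rw [nf_apply, map_sum, LinearMap.sum_apply]
  refine Finset.sum_congr rfl fun β _ => ?_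
  rw [O.aU_mul, O.aU_iota, aU_Tp, map_mul]

lemma aZ_nf (g : (Fin 3 → ℕ) →₀ K) (u : K) :
    O.aZ (O.nf g) u = ∑ β ∈ g.support, (Complex.exp (cB β) • g β) * S.tau (-cB β) u := by
  rw [nf_apply, map_sum, LinearMap.sum_apply]
  refine Finset.sum_congr rfl fun β _ => ?_
  rw [O.aZ_mul, O.aZ_iota, aZ_Tp, mul_smul_comm, smul_mul_assoc]

lemma cof_B1 {x : E} (hx : x ∈ O.B1) (h0 : x ≠ 0) : Cof (O.aU x) ∧ Cof (O.aZ x) := by
  obtain ⟨g, rfl⟩ := O.exists_nf hx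
  have hg : g ≠ 0 := fun h => h0 (by rw [h, map_zero])
  obtain ⟨β, hβ⟩ := Finsupp.support_nonempty_iff.2 hg
  have hβ' := Finsupp.mem_support_iff.1 hβ
  refine ⟨S.cof g.support _ cB cc_injective ⟨β, hβ, fun h => hβ' ?_⟩ _ (O.aU_nf g),
    S.cof g.support _ (fun β => -cB β) (neg_injective.comp cc_injective) ⟨β, hβ, ?_⟩ _ (O.aZ_nf g)⟩
  · rw [← S.tau_neg_tau (cB β) (g β), h, map_zero]
  · exact smul_ne_zero (Complex.exp_ne_zero _) hβ'

/-- the elements for which the pairing is balanced -/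
def bal : Subring E where
  carrier := {x | ∀ u z, S.ev (O.aU x u * z) = S.ev (u * O.aZ x z)}
  mul_mem' := fun {x y} hx hy u z => by rw [O.aU_mul, hy, hx, O.aZ_mul]
  one_mem' := fun u z => by rw [aU_one, aZ_one]
  add_mem' := fun {x y} hx hy u z => by
    rw [map_add, map_add, LinearMap.add_apply, LinearMap.add_apply, add_mul, mul_add, map_add,
      map_add, hx, hy]
  zero_mem' := fun u z => by simp
  neg_mem' := fun {x} hx u z => by
    rw [map_neg, map_neg, LinearMap.neg_apply, LinearMap.neg_apply, neg_mul, mul_neg, map_neg,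
      map_neg, hx]

lemma B1_le_bal : O.B1 ≤ O.bal := by
  refine O.B1_le (fun f u z => ?_) (fun i u z => ?_)
  · rw [O.aU_iota, O.aZ_iota]
    congr 1
    ring
  · rw [O.aU_TT, O.aZ_TT, mul_smul_comm, map_smul, smul_eq_mul, ← S.ev_tau, map_mul (S.tau _),
      S.tau_tau_neg]

lemma bij_denom {a : E} (ha : a ∈ O.B1) :
    Function.Bijective (O.aU (1 - O.tA * a)) ∧ Function.Bijective (O.aZ (1 - O.tA * a)) := by
  have hZ : Function.Surjective (O.aZ (1 - O.tA * a)) := by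
    intro F
    obtain ⟨g, rfl⟩ := O.exists_nf ha
    obtain ⟨u, hu⟩ := S.volt g.support (fun β => Complex.exp (cB β) • g β) (fun β => -cB β) F
    exact ⟨u, by rw [map_sub, LinearMap.sub_apply, aZ_one, O.aZ_mul, tA, O.aZ_iota, aZ_nf, hu]⟩
  have hU : Function.Surjective (O.aU (1 - O.tA * a)) := by
    intro F
    obtain ⟨a', ha', h⟩ := O.tA_n1 a ha
    obtain ⟨g, rfl⟩ := O.exists_nf ha'
    obtain ⟨u, hu⟩ := S.volt g.support (fun β => S.tau (cB β) (g β)) cB F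
    exact ⟨u, by rw [h, map_sub, LinearMap.sub_apply, aU_one, O.aU_mul, tA, O.aU_iota, aU_nf, hu]⟩
  have hb : 1 - O.tA * a ∈ O.bal :=
    O.B1_le_bal (O.B1.sub_mem O.B1.one_mem (O.B1.mul_mem (O.iota_mem_B1 _) ha))
  refine ⟨⟨(injective_iff_map_eq_zero _).2 fun u hu => S.nondeg u fun z => ?_, hU⟩,
    ⟨(injective_iff_map_eq_zero _).2 fun z hz => S.nondeg z fun u => ?_, hZ⟩⟩
  · obtain ⟨z, rfl⟩ := hZ z
    rw [← hb, hu, zero_mul, map_zero]
  · obtain ⟨u, rfl⟩ := hU u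
    rw [mul_comm, hb, hz, mul_zero, map_zero]

lemma oreData : OreData O.B1 O.tA where
  mem := O.iota_mem_B1 _
  n1 := O.tA_n1
  n2 := O.tA_n2
  unit := fun _ ha => O.isUnit _ (O.bij_denom ha).1 (O.bij_denom ha).2
  left := O.B1_left
  right := O.B1_right

/-- the localised ring -/
def BB : Subalgebra ℂ E :=
  { O.oreData.loc with
    algebraMap_mem' := fun c => O.oreData.le_loc (O.iota.commutes c ▸ O.iota_mem_B1 _) }

lemma mem_BB {x : E} : x ∈ O.BB ↔ x ∈ O.oreData.loc := Iff.rfl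

lemma BB_left : IsNoetherianRing O.BB := O.oreData.loc_left

lemma BB_right : IsNoetherianRing (O.BB)ᵐᵒᵖ := by
  have := O.oreData.loc_right
  exact isNoetherianRing_of_ringEquiv _ O.oreData.loc.mopRingEquivOp.symm

lemma BB_bal {x : E} (hx : x ∈ O.BB) (u z : K) : S.ev (O.aU x u * z) = S.ev (u * O.aZ x z) := by
  obtain ⟨a, ha, hr⟩ := hx
  obtain ⟨u, rfl⟩ := (O.bij_denom ha).1.2 u
  rw [← O.aU_mul, O.B1_le_bal hr, O.aZ_mul, ← O.B1_le_bal (O.oreData.denom_mem ha)]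

lemma cof_BB {x : E} (hx : x ∈ O.BB) (h0 : x ≠ 0) : Cof (O.aU x) ∧ Cof (O.aZ x) := by
  constructor
  · obtain ⟨a, ha, hr⟩ := hx
    obtain ⟨F, hF, h⟩ := (O.cof_B1 hr (by
      rwa [Ne, (O.oreData.unit a ha).mul_right_eq_zero])).1
    refine ⟨F, hF, eq_top_iff.2 (h.ge.trans (sup_le_sup_right ?_ _))⟩
    rintro _ ⟨u, rfl⟩
    exact ⟨_, (O.aU_mul _ _ _).symm⟩
  · obtain ⟨a, ha, hr⟩ := O.oreData.right_form hx
    obtain ⟨F, hF, h⟩ := (O.cof_B1 hr (by
      rwa [Ne, (O.oreData.unit a ha).mul_left_eq_zero])).2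
    refine ⟨F, hF, eq_top_iff.2 (h.ge.trans (sup_le_sup_right ?_ _))⟩
    rintro _ ⟨u, rfl⟩
    exact ⟨_, (O.aZ_mul _ _ _).symm⟩

end Ops

lemma Setup.ker_fg (S : Setup K) {T T' : Module.End ℂ K}
    (h : ∀ u z, S.ev (T u * z) = S.ev (u * T' z)) (hc : Cof T') : (LinearMap.ker T).FG := by
  obtain ⟨F, hF, hF'⟩ := hc
  have : Module.Finite ℂ F := Module.Finite.iff_fg.2 hF
  let ψ : LinearMap.ker T →ₗ[ℂ] Module.Dual ℂ F :=
    ((LinearMap.mul ℂ K).compr₂ S.ev).domRestrict₁₂ (LinearMap.ker T) F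
  have hψ : Function.Injective ψ := by
    rw [injective_iff_map_eq_zero]
    intro u hu
    refine Subtype.ext (S.nondeg _ fun z => ?_)
    obtain ⟨_, ⟨w, rfl⟩, f, hf, rfl⟩ := Submodule.mem_sup.1 (hF'.ge (Submodule.mem_top (x := z)))
    have h1 : S.ev (u * f) = 0 := LinearMap.congr_fun hu ⟨f, hf⟩
    rw [mul_add, map_add, ← h, u.2, zero_mul, map_zero, zero_add, h1]
  exact Module.Finite.iff_fg.1 (Module.Finite.of_injective ψ hψ)

namespace Ops

variable (O : Ops S E)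

lemma ker_BB {x : E} (hx : x ∈ O.BB) (h0 : x ≠ 0) :
    (LinearMap.ker (O.aU x)).FG ∧ (LinearMap.ker (O.aZ x)).FG :=
  ⟨S.ker_fg (O.BB_bal hx) (O.cof_BB hx h0).2, S.ker_fg (fun u z => by
    rw [mul_comm, ← O.BB_bal hx, mul_comm]) (O.cof_BB hx h0).1⟩

lemma BB_domain : IsDomain O.BB := by
  have hK : Nontrivial K := ⟨1, 0, fun h => by simpa [h] using S.eps_one⟩
  have : Nontrivial O.BB := ⟨1, 0, fun h => by
    have h1 : (1 : E) = 0 := congrArg Subtype.val h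
    have h2 := O.aZ_one 1
    rw [h1, map_zero] at h2
    exact zero_ne_one h2⟩
  have : NoZeroDivisors O.BB := ⟨fun {x y} h => by
    by_contra hc
    push Not at hc
    have hx : (x : E) ≠ 0 := fun h => hc.1 (Subtype.ext h)
    have hy : (y : E) ≠ 0 := fun h => hc.2 (Subtype.ext h)
    obtain ⟨F, hF, hF'⟩ := (O.cof_BB y.2 hy).2
    have h1 : LinearMap.range (O.aZ y) ≤ LinearMap.ker (O.aZ x) := by
      rintro _ ⟨u, rfl⟩
      have h2 : (x : E) * y = 0 := congrArg Subtype.val h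
      rw [LinearMap.mem_ker, ← O.aZ_mul, h2, map_zero, LinearMap.zero_apply]
    refine S.notfin ⟨?_⟩
    rw [← hF']
    exact (((O.ker_BB x.2 hx).2).of_le h1).sup hF⟩
  exact NoZeroDivisors.to_isDomain _

end Ops

end Pool.Agent.P.MP_049749_al
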