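import Mathlib

/-! Weighted `l1` norms of formal power series, and an iteration lemma. -/

set_option autoImplicit false

namespace Pool.Agent.P.MP_049749_al

open PowerSeries
open scoped ENNReal NNReal

abbrev PS := PowerSeries ℂ

/-- weighted `l1` norm, with values in `ℝ≥0∞`. -/
noncomputable def wn (w : ℕ → ℝ≥0∞) (u : PS) : ℝ≥0∞ := ∑' n, ‖coeff n u‖ₑ * w n

/-- the coefficients below `n` vanish. -/
def Low (n : ℕ) (u : PS) : Prop := ∀ m < n, coeff m u = 0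

/-- lower triangular operators. -/
def LowTri (T : PS →ₗ[ℂ] PS) : Prop := ∀ n u, Low n u → Low n (T u)

variable {w : ℕ → ℝ≥0∞}

lemma wn_zero : wn w 0 = 0 := by simp [wn]

lemma wn_add_le (u v : PS) : wn w (u + v) ≤ wn w u + wn w v := by
  unfold wn
  rw [← ENNReal.tsum_add]
  refine ENNReal.tsum_le_tsum fun n => ?_
  rw [map_add, ← add_mul]
  gcongr
  exact enorm_add_le _ _

lemma wn_smul (c : ℂ) (u : PS) : wn w (c • u) = ‖c‖ₑ * wn w u := by
  unfold wn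
  rw [← ENNReal.tsum_mul_left]
  refine tsum_congr fun n => ?_
  rw [map_smul, smul_eq_mul, enorm_mul, mul_assoc]

lemma wn_neg (u : PS) : wn w (-u) = wn w u := by
  unfold wn
  refine tsum_congr fun n => ?_
  rw [map_neg, enorm_neg]

lemma wn_sub_le (u v : PS) : wn w (u - v) ≤ wn w u + wn w v := by
  rw [sub_eq_add_neg]
  exact (wn_add_le _ _).trans (by rw [wn_neg])

lemma wn_sum_le {ι : Type*} (s : Finset ι) (f : ι → PS) :
    wn w (∑ i ∈ s, f i) ≤ ∑ i ∈ s, wn w (f i) := by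
  classical
  induction s using Finset.induction_on with
  | empty => simp [wn_zero]
  | insert a s ha ih =>
    rw [Finset.sum_insert ha, Finset.sum_insert ha]
    exact (wn_add_le _ _).trans (by gcongr)

lemma tsum_antidiagonal (F : ℕ × ℕ → ℝ≥0∞) :
    ∑' n, ∑ p ∈ Finset.HasAntidiagonal.antidiagonal n, F p = ∑' p, F p := by
  rw [← (Finset.HasAntidiagonal.sigmaAntidiagonalEquivProd (A := ℕ)).tsum_eq F, ENNReal.tsum_sigma']
  refine tsum_congr fun n => ?_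
  rw [tsum_fintype]
  exact (Finset.sum_coe_sort (Finset.HasAntidiagonal.antidiagonal n) F).symm

lemma wn_mul_le (hw : ∀ m n, w (m + n) ≤ w m * w n) (u v : PS) :
    wn w (u * v) ≤ wn w u * wn w v := by
  unfold wn
  calc ∑' n, ‖coeff n (u * v)‖ₑ * w n
      ≤ ∑' n, ∑ p ∈ Finset.HasAntidiagonal.antidiagonal n,
          (‖coeff p.1 u‖ₑ * w p.1) * (‖coeff p.2 v‖ₑ * w p.2) := by
        refine ENNReal.tsum_le_tsum fun n => ?_
        rw [coeff_mul]
        calc ‖∑ p ∈ Finset.HasAntidiagonal.antidiagonal n, coeff p.1 u * coeff p.2 v‖ₑ * w n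
            ≤ (∑ p ∈ Finset.HasAntidiagonal.antidiagonal n, ‖coeff p.1 u * coeff p.2 v‖ₑ) * w n := by
              gcongr
              exact enorm_sum_le _ _
          _ = ∑ p ∈ Finset.HasAntidiagonal.antidiagonal n, ‖coeff p.1 u * coeff p.2 v‖ₑ * w n := by
              rw [Finset.sum_mul]
          _ ≤ _ := by
              refine Finset.sum_le_sum fun p hp => ?_
              rw [Finset.HasAntidiagonal.mem_antidiagonal] at hp
              rw [enorm_mul, ← hp]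
              calc ‖coeff p.1 u‖ₑ * ‖coeff p.2 v‖ₑ * w (p.1 + p.2)
                  ≤ ‖coeff p.1 u‖ₑ * ‖coeff p.2 v‖ₑ * (w p.1 * w p.2) := by gcongr; exact hw _ _
                _ = _ := by ring
    _ = ∑' p : ℕ × ℕ, (‖coeff p.1 u‖ₑ * w p.1) * (‖coeff p.2 v‖ₑ * w p.2) :=
        tsum_antidiagonal (fun p => (‖coeff p.1 u‖ₑ * w p.1) * (‖coeff p.2 v‖ₑ * w p.2))
    _ = _ := by
        rw [ENNReal.tsum_prod']
        simp_rw [ENNReal.tsum_mul_left]
        rw [ENNReal.tsum_mul_right]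

lemma coeff_le_wn (u : PS) (n : ℕ) : ‖coeff n u‖ₑ * w n ≤ wn w u :=
  ENNReal.le_tsum (f := fun n => ‖coeff n u‖ₑ * w n) n

lemma wn_mono {w' : ℕ → ℝ≥0∞} (h : ∀ n, w n ≤ w' n) (u : PS) : wn w u ≤ wn w' u :=
  ENNReal.tsum_le_tsum fun n => by gcongr; exact h n

lemma wn_ne_top_of_high (hw : ∀ n, w n ≠ ⊤) {u : PS} {M : ℕ} (hu : ∀ n, M ≤ n → coeff n u = 0) :
    wn w u ≠ ⊤ := by
  unfold wn
  rw [tsum_eq_sum (s := Finset.range M)]
  · exact ENNReal.sum_ne_top.2 fun n _ => ENNReal.mul_ne_top enorm_ne_top (hw n)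
  · intro n hn
    rw [hu n (by simpa using hn)]
    simp

lemma exists_sum (hw : ∀ n, w n ≠ 0) (g : ℕ → PS) (h : ∑' j, wn w (g j) ≠ ⊤) :
    ∃ G : PS, (∀ n, HasSum (fun j => coeff n (g j)) (coeff n G)) ∧ wn w G ≤ ∑' j, wn w (g j) := by
  have hs : ∀ n, Summable (fun j => coeff n (g j)) := by
    intro n
    have h1 : ∑' j, ‖coeff n (g j)‖ₑ * w n ≠ ⊤ :=
      ne_top_of_le_ne_top h (ENNReal.tsum_le_tsum fun j => coeff_le_wn _ _)
    rw [ENNReal.tsum_mul_right] at h1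
    have h2 : ∑' j, ‖coeff n (g j)‖ₑ ≠ ⊤ := by
      intro h3
      rw [h3, ENNReal.top_mul (hw n)] at h1
      exact h1 rfl
    exact Summable.of_enorm h2
  refine ⟨mk fun n => ∑' j, coeff n (g j), fun n => ?_, ?_⟩
  · rw [coeff_mk]; exact (hs n).hasSum
  · unfold wn
    rw [ENNReal.tsum_comm]
    refine ENNReal.tsum_le_tsum fun n => ?_
    rw [coeff_mk, ENNReal.tsum_mul_right]
    gcongr
    exact enorm_tsum_le_tsum_enorm

lemma Low.add {n : ℕ} {u v : PS} (hu : Low n u) (hv : Low n v) : Low n (u + v) :=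
  fun m hm => by rw [map_add, hu m hm, hv m hm, add_zero]

lemma Low.neg {n : ℕ} {u : PS} (hu : Low n u) : Low n (-u) :=
  fun m hm => by rw [map_neg, hu m hm, neg_zero]

lemma Low.smul {n : ℕ} {u : PS} (c : ℂ) (hu : Low n u) : Low n (c • u) :=
  fun m hm => by rw [map_smul, hu m hm, smul_zero]

lemma low_iff {n : ℕ} {u : PS} : Low n u ↔ X ^ n ∣ u := X_pow_dvd_iff.symm

lemma Low.mul_left {n : ℕ} {u : PS} (v : PS) (hu : Low n u) : Low n (v * u) :=
  low_iff.2 ((low_iff.1 hu).mul_left v)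

lemma Low.X_mul {n : ℕ} {u : PS} (hu : Low n u) : Low (n + 1) (X * u) := by
  rw [low_iff] at hu ⊢
  rw [pow_succ']
  exact mul_dvd_mul_left _ hu

lemma Low.mono {n m : ℕ} {u : PS} (hu : Low n u) (h : m ≤ n) : Low m u :=
  fun k hk => hu k (lt_of_lt_of_le hk h)

lemma LowTri.add {S T : PS →ₗ[ℂ] PS} (hS : LowTri S) (hT : LowTri T) : LowTri (S + T) :=
  fun n u hu => (hS n u hu).add (hT n u hu)

lemma LowTri.coeff_eq {T : PS →ₗ[ℂ] PS} (hT : LowTri T) (n : ℕ) (u : PS) :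
    coeff n (T u) = ∑ m ∈ Finset.range (n + 1), coeff m u * coeff n (T (X ^ m)) := by
  have h1 : Low (n + 1) (u - ∑ m ∈ Finset.range (n + 1), coeff m u • (X : PS) ^ m) := by
    intro k hk
    rw [map_sub, map_sum]
    simp_rw [map_smul, coeff_X_pow, smul_eq_mul, mul_ite, mul_one, mul_zero]
    rw [Finset.sum_ite_eq, if_pos (Finset.mem_range.2 hk), sub_self]
  have h2 := hT _ _ h1 n (Nat.lt_succ_self n)
  rw [map_sub, map_sub, sub_eq_zero, map_sum, map_sum] at h2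
  rw [h2]
  refine Finset.sum_congr rfl fun m _ => ?_
  rw [map_smul, map_smul, smul_eq_mul]

lemma LowTri.hasSum {T : PS →ₗ[ℂ] PS} (hT : LowTri T) {g : ℕ → PS} {G : PS}
    (h : ∀ n, HasSum (fun j => coeff n (g j)) (coeff n G)) (n : ℕ) :
    HasSum (fun j => coeff n (T (g j))) (coeff n (T G)) := by
  have h1 : (fun j => coeff n (T (g j))) =
      fun j => ∑ m ∈ Finset.range (n + 1), coeff m (g j) * coeff n (T (X ^ m)) :=
    funext fun j => hT.coeff_eq n (g j)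
  rw [h1, hT.coeff_eq n G]
  exact hasSum_sum fun m _ => (h m).mul_right _

/-- Perturbation lemma: solving `(T + Q) g = F` in high degrees. -/
lemma surj_of_perturb (hw : ∀ n, w n ≠ 0) {T Q : PS →ₗ[ℂ] PS} (hT : LowTri T) (hQ : LowTri Q)
    {M M' : ℕ} {C ε : ℝ≥0∞} (hC : C ≠ ⊤) (hε : ε * C < 1)
    (hdiv : ∀ F : PS, wn w F ≠ ⊤ →
      ∃ g, Low M g ∧ wn w g ≤ C * wn w F ∧ ∀ n, M' ≤ n → coeff n (T g) = coeff n F)
    (hsmall : ∀ g, Low M g → wn w (Q g) ≤ ε * wn w g)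
    (F : PS) (hF : wn w F ≠ ⊤) :
    ∃ g, Low M g ∧ wn w g ≤ (C * (1 - ε * C)⁻¹) * wn w F ∧
      ∀ n, M' ≤ n → coeff n ((T + Q) g) = coeff n F := by
  classical
  choose! sol hsol using hdiv
  obtain ⟨Fs, hFs0, hFsS⟩ : ∃ Fs : ℕ → PS, Fs 0 = F ∧ ∀ j, Fs (j + 1) = -Q (sol (Fs j)) :=
    ⟨fun j => (fun H => -Q (sol H))^[j] F, rfl, fun j => Function.iterate_succ_apply' _ _ _⟩
  have hθ : ε * C ≠ ⊤ := ne_top_of_lt hε
  have hbound : ∀ j, wn w (Fs j) ≤ (ε * C) ^ j * wn w F := by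
    intro j
    induction j with
    | zero => rw [hFs0, pow_zero, one_mul]
    | succ j ih =>
      have hj : wn w (Fs j) ≠ ⊤ :=
        ne_top_of_le_ne_top (ENNReal.mul_ne_top (ENNReal.pow_ne_top hθ) hF) ih
      obtain ⟨h1, h2, -⟩ := hsol _ hj
      rw [hFsS, wn_neg]
      calc wn w (Q (sol (Fs j))) ≤ ε * wn w (sol (Fs j)) := hsmall _ h1
        _ ≤ ε * (C * wn w (Fs j)) := by gcongr
        _ = (ε * C) * wn w (Fs j) := by ring
        _ ≤ (ε * C) * ((ε * C) ^ j * wn w F) := by gcongr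
        _ = _ := by ring
  have hfin : ∀ j, wn w (Fs j) ≠ ⊤ := fun j =>
    ne_top_of_le_ne_top (ENNReal.mul_ne_top (ENNReal.pow_ne_top hθ) hF) (hbound j)
  have hinv : (1 - ε * C)⁻¹ ≠ ⊤ := ENNReal.inv_ne_top.2 (tsub_pos_of_lt hε).ne'
  have hsumF0 : ∑' j, wn w (Fs j) ≤ (1 - ε * C)⁻¹ * wn w F := by
    refine (ENNReal.tsum_le_tsum hbound).trans ?_
    rw [ENNReal.tsum_mul_right, ENNReal.tsum_geometric]
  have hsumF : ∑' j, wn w (Fs j) ≠ ⊤ := ne_top_of_le_ne_top (ENNReal.mul_ne_top hinv hF) hsumF0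
  have hsumg0 : ∑' j, wn w (sol (Fs j)) ≤ C * ∑' j, wn w (Fs j) := by
    rw [← ENNReal.tsum_mul_left]
    exact ENNReal.tsum_le_tsum fun j => (hsol _ (hfin j)).2.1
  have hsumg : ∑' j, wn w (sol (Fs j)) ≠ ⊤ :=
    ne_top_of_le_ne_top (ENNReal.mul_ne_top hC hsumF) hsumg0
  obtain ⟨G, hG, hGn⟩ := exists_sum hw _ hsumg
  obtain ⟨H, hH, -⟩ := exists_sum hw _ hsumF
  refine ⟨G, fun m hm => ?_, ?_, fun n hn => ?_⟩
  · have h1 := hG m
    have h2 : (fun j => coeff m (sol (Fs j))) = fun _ => 0 :=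
      funext fun j => (hsol _ (hfin j)).1 m hm
    rw [h2] at h1
    exact h1.unique hasSum_zero
  · refine hGn.trans (hsumg0.trans ?_)
    rw [mul_assoc]
    gcongr
  · have h1 := (hT.add hQ).hasSum hG n
    have h2 : (fun j => coeff n ((T + Q) (sol (Fs j)))) =
        fun j => coeff n (Fs j) - coeff n (Fs (j + 1)) := by
      funext j
      rw [LinearMap.add_apply, map_add, (hsol _ (hfin j)).2.2 n hn, hFsS, map_neg, sub_neg_eq_add]
    rw [h2] at h1
    have h3 : HasSum (fun j => coeff n (Fs (j + 1))) (coeff n H - coeff n (Fs 0)) := by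
      have := (hasSum_nat_add_iff' 1).2 (hH n)
      rwa [Finset.sum_range_one] at this
    have h4 := (hH n).sub h3
    rw [h1.unique h4, hFs0]
    ring

lemma perturb_const_ne_top {C ε : ℝ≥0∞} (hC : C ≠ ⊤) (hε : ε * C < 1) :
    C * (1 - ε * C)⁻¹ ≠ ⊤ :=
  ENNReal.mul_ne_top hC (ENNReal.inv_ne_top.2 (tsub_pos_of_lt hε).ne')

end Pool.Agent.P.MP_049749_al
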