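import Pool.Agent.P.MP_049749_al.WNorm

/-! The Wiener algebra of a closed disc: evaluation, division by polynomials. -/

set_option autoImplicit false

namespace Pool.Agent.P.MP_049749_al

open PowerSeries
open scoped ENNReal NNReal Nat

/-- geometric weights -/
noncomputable def wW (R : ℝ≥0) (n : ℕ) : ℝ≥0∞ := (R : ℝ≥0∞) ^ n

lemma wW_add (R : ℝ≥0) (m n : ℕ) : wW R (m + n) ≤ wW R m * wW R n := by
  simp [wW, pow_add]

lemma wW_ne_top (R : ℝ≥0) (n : ℕ) : wW R n ≠ ⊤ := ENNReal.pow_ne_top ENNReal.coe_ne_top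

lemma wW_ne_zero {R : ℝ≥0} (hR : R ≠ 0) (n : ℕ) : wW R n ≠ 0 :=
  pow_ne_zero _ (by exact_mod_cast hR)

lemma wW_mono {R R' : ℝ≥0} (h : R ≤ R') (n : ℕ) : wW R n ≤ wW R' n := by
  unfold wW; gcongr

/-- evaluation of a power series at a complex point -/
noncomputable def ev (z : ℂ) (a : PS) : ℂ := ∑' n, coeff n a * z ^ n

lemma enorm_term_le {R : ℝ≥0} {z : ℂ} (hz : ‖z‖₊ ≤ R) (a : PS) (n : ℕ) :
    ‖coeff n a * z ^ n‖ₑ ≤ ‖coeff n a‖ₑ * wW R n := by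
  rw [enorm_mul, enorm_pow, wW]
  gcongr
  exact ENNReal.coe_le_coe.2 hz

lemma summable_norm_ev {R : ℝ≥0} {z : ℂ} (hz : ‖z‖₊ ≤ R) {a : PS} (ha : wn (wW R) a ≠ ⊤) :
    Summable fun n => ‖coeff n a * z ^ n‖ := by
  have h : ∑' n, ‖coeff n a * z ^ n‖ₑ ≠ ⊤ :=
    ne_top_of_le_ne_top ha (ENNReal.tsum_le_tsum (enorm_term_le hz a))
  exact tsum_enorm_ne_top_iff_summable_norm.1 h

lemma enorm_ev_le {R : ℝ≥0} {z : ℂ} (hz : ‖z‖₊ ≤ R) (a : PS) : ‖ev z a‖ₑ ≤ wn (wW R) a :=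
  enorm_tsum_le_tsum_enorm.trans (ENNReal.tsum_le_tsum (enorm_term_le hz a))

lemma ev_add {R : ℝ≥0} {z : ℂ} (hz : ‖z‖₊ ≤ R) {a b : PS} (ha : wn (wW R) a ≠ ⊤)
    (hb : wn (wW R) b ≠ ⊤) : ev z (a + b) = ev z a + ev z b := by
  unfold ev
  rw [← (summable_norm_ev hz ha).of_norm.tsum_add (summable_norm_ev hz hb).of_norm]
  refine tsum_congr fun n => ?_
  rw [map_add, add_mul]

lemma ev_smul (z c : ℂ) (a : PS) : ev z (c • a) = c * ev z a := by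
  unfold ev
  rw [← tsum_mul_left]
  refine tsum_congr fun n => ?_
  rw [map_smul, smul_eq_mul, mul_assoc]

lemma ev_neg (z : ℂ) (a : PS) : ev z (-a) = -ev z a := by
  rw [← neg_one_smul ℂ a, ev_smul, neg_one_mul]

lemma ev_sub {R : ℝ≥0} {z : ℂ} (hz : ‖z‖₊ ≤ R) {a b : PS} (ha : wn (wW R) a ≠ ⊤)
    (hb : wn (wW R) b ≠ ⊤) : ev z (a - b) = ev z a - ev z b := by
  rw [sub_eq_add_neg, ev_add hz ha (by rwa [wn_neg]), ev_neg, sub_eq_add_neg]

lemma ev_mul {R : ℝ≥0} {z : ℂ} (hz : ‖z‖₊ ≤ R) {a b : PS} (ha : wn (wW R) a ≠ ⊤)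
    (hb : wn (wW R) b ≠ ⊤) : ev z (a * b) = ev z a * ev z b := by
  unfold ev
  rw [tsum_mul_tsum_eq_tsum_sum_antidiagonal_of_summable_norm (summable_norm_ev hz ha)
    (summable_norm_ev hz hb)]
  refine tsum_congr fun n => ?_
  rw [coeff_mul, Finset.sum_mul]
  refine Finset.sum_congr rfl fun p hp => ?_
  rw [Finset.HasAntidiagonal.mem_antidiagonal] at hp
  rw [← hp, pow_add]
  ring

lemma ev_C (z c : ℂ) : ev z (C c) = c := by
  unfold ev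
  rw [tsum_eq_single 0]
  · simp
  · intro n hn
    rw [coeff_C, if_neg hn, zero_mul]

lemma ev_zero (z : ℂ) : ev z 0 = 0 := by simp [ev]

lemma ev_X_pow (z : ℂ) (k : ℕ) : ev z (X ^ k) = z ^ k := by
  unfold ev
  rw [tsum_eq_single k]
  · simp
  · intro n hn
    rw [coeff_X_pow, if_neg hn, zero_mul]

lemma ev_X (z : ℂ) : ev z X = z := by
  have := ev_X_pow z 1
  rwa [pow_one, pow_one] at this

lemma wnW_C_ne_top (R : ℝ≥0) (c : ℂ) : wn (wW R) (C c) ≠ ⊤ :=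
  wn_ne_top_of_high (wW_ne_top R) (M := 1) fun n hn => by rw [coeff_C, if_neg (by omega)]

lemma wnW_X_pow_ne_top (R : ℝ≥0) (k : ℕ) : wn (wW R) (X ^ k) ≠ ⊤ :=
  wn_ne_top_of_high (wW_ne_top R) (M := k + 1) fun n hn => by rw [coeff_X_pow, if_neg (by omega)]

lemma wnW_X_ne_top (R : ℝ≥0) : wn (wW R) X ≠ ⊤ := by
  have := wnW_X_pow_ne_top R 1
  rwa [pow_one] at this

lemma wnW_mul_ne_top {R : ℝ≥0} {a b : PS} (ha : wn (wW R) a ≠ ⊤) (hb : wn (wW R) b ≠ ⊤) :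
    wn (wW R) (a * b) ≠ ⊤ :=
  ne_top_of_le_ne_top (ENNReal.mul_ne_top ha hb) (wn_mul_le (wW_add R) a b)

lemma wn_add_ne_top {w : ℕ → ℝ≥0∞} {a b : PS} (ha : wn w a ≠ ⊤) (hb : wn w b ≠ ⊤) :
    wn w (a + b) ≠ ⊤ :=
  ne_top_of_le_ne_top (ENNReal.add_ne_top.2 ⟨ha, hb⟩) (wn_add_le a b)

lemma wn_sub_ne_top {w : ℕ → ℝ≥0∞} {a b : PS} (ha : wn w a ≠ ⊤) (hb : wn w b ≠ ⊤) :
    wn w (a - b) ≠ ⊤ :=
  ne_top_of_le_ne_top (ENNReal.add_ne_top.2 ⟨ha, hb⟩) (wn_sub_le a b)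

lemma wn_smul_ne_top {w : ℕ → ℝ≥0∞} {a : PS} (c : ℂ) (ha : wn w a ≠ ⊤) :
    wn w (c • a) ≠ ⊤ := by
  rw [wn_smul]; exact ENNReal.mul_ne_top enorm_ne_top ha

lemma wn_sum_ne_top {w : ℕ → ℝ≥0∞} {ι : Type*} (s : Finset ι) (f : ι → PS)
    (h : ∀ i ∈ s, wn w (f i) ≠ ⊤) : wn w (∑ i ∈ s, f i) ≠ ⊤ :=
  ne_top_of_le_ne_top (ENNReal.sum_ne_top.2 h) (wn_sum_le s f)

lemma ev_sum {R : ℝ≥0} {z : ℂ} (hz : ‖z‖₊ ≤ R) {ι : Type*} (s : Finset ι) (f : ι → PS)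
    (h : ∀ i ∈ s, wn (wW R) (f i) ≠ ⊤) : ev z (∑ i ∈ s, f i) = ∑ i ∈ s, ev z (f i) := by
  classical
  induction s using Finset.induction_on with
  | empty => simp [ev_zero]
  | insert a s ha ih =>
    rw [Finset.sum_insert ha, Finset.sum_insert ha,
      ev_add hz (h a (Finset.mem_insert_self _ _))
        (wn_sum_ne_top s f fun i hi => h i (Finset.mem_insert_of_mem hi)),
      ih fun i hi => h i (Finset.mem_insert_of_mem hi)]

/-- the power series of `exp (c ξ)` -/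
noncomputable def ex (c : ℂ) : PS := rescale c (exp ℂ)

lemma coeff_ex (c : ℂ) (n : ℕ) : coeff n (ex c) = c ^ n / (n ! : ℂ) := by
  rw [ex, coeff_rescale, coeff_exp]
  simp [div_eq_mul_inv]

lemma ex_mul_ex (a b : ℂ) : ex a * ex b = ex (a + b) := exp_mul_exp_eq_exp_add a b

lemma ex_zero : ex 0 = 1 := by
  ext n
  rw [coeff_ex, coeff_one]
  rcases n with _ | n <;> simp

lemma wnW_ex_ne_top (R : ℝ≥0) (c : ℂ) : wn (wW R) (ex c) ≠ ⊤ := by
  have h : Summable fun n : ℕ => ‖(((‖c‖ * R) ^ n / n ! : ℝ) : ℂ)‖ := by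
    have := Real.summable_pow_div_factorial (‖c‖ * R)
    refine this.congr fun n => ?_
    rw [Complex.norm_real, Real.norm_of_nonneg (by positivity)]
  have h2 := tsum_enorm_ne_top_iff_summable_norm.2 h
  refine ne_of_eq_of_ne (tsum_congr fun n => ?_) h2
  rw [coeff_ex, wW, ← ENNReal.coe_pow, ← ofReal_norm, ← ofReal_norm,
    ← ENNReal.ofReal_coe_nnreal, ← ENNReal.ofReal_mul (norm_nonneg _)]
  congr 1
  rw [Complex.norm_real, Real.norm_of_nonneg (by positivity), norm_div, norm_pow,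
    Complex.norm_natCast, mul_pow]
  push_cast
  ring

lemma ev_ex (z c : ℂ) : ev z (ex c) = Complex.exp (c * z) := by
  unfold ev
  rw [Complex.exp_eq_exp_ℂ, NormedSpace.exp_eq_tsum_div]
  refine tsum_congr fun n => ?_
  rw [coeff_ex, mul_pow]
  ring

/-- the shift `u ↦ (u - u 0) / X` -/
noncomputable def sh : PS →ₗ[ℂ] PS where
  toFun u := mk fun n => coeff (n + 1) u
  map_add' u v := by ext n; simp
  map_smul' c u := by ext n; simp

@[simp] lemma coeff_sh (u : PS) (n : ℕ) : coeff n (sh u) = coeff (n + 1) u :=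
  coeff_mk n fun n => coeff (n + 1) u

lemma sh_X_mul (u : PS) : sh (X * u) = u := by
  ext n; rw [coeff_sh, coeff_succ_X_mul]

lemma eq_X_mul_sh (u : PS) : u = X * sh u + C (constantCoeff u) := eq_X_mul_shift_add_const u

/-- `p` is a polynomial by which one can divide in the Wiener algebra of radius `R`. -/
def Div (R : ℝ≥0) (p : PS) : Prop :=
  ∃ (ν : ℕ) (K : ℝ≥0∞), K ≠ ⊤ ∧ (∀ n, ν < n → coeff n p = 0) ∧
    ∀ (M : ℕ) (F : PS), wn (wW R) F ≠ ⊤ →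
      ∃ g, Low M g ∧ wn (wW R) g ≤ K * wn (wW R) F ∧ ∀ n, M + ν ≤ n → coeff n (p * g) = coeff n F

/-- kill the coefficients below `M` -/
noncomputable def hi (M : ℕ) (u : PS) : PS := mk fun n => if n < M then 0 else coeff n u

lemma low_hi (M : ℕ) (u : PS) : Low M (hi M u) := fun m hm => by rw [hi, coeff_mk, if_pos hm]

lemma coeff_hi {M n : ℕ} (h : M ≤ n) (u : PS) : coeff n (hi M u) = coeff n u := by
  rw [hi, coeff_mk, if_neg (by omega)]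

lemma wn_hi_le (w : ℕ → ℝ≥0∞) (M : ℕ) (u : PS) : wn w (hi M u) ≤ wn w u := by
  refine ENNReal.tsum_le_tsum fun n => ?_
  rw [hi, coeff_mk]
  split_ifs
  · simp
  · exact le_rfl

lemma div_one (R : ℝ≥0) : Div R 1 := by
  refine ⟨0, 1, ENNReal.one_ne_top, fun n hn => by rw [coeff_one, if_neg (by omega)],
    fun M F _ => ⟨hi M F, low_hi M F, by rw [one_mul]; exact wn_hi_le _ _ _, fun n hn => ?_⟩⟩
  rw [one_mul, coeff_hi (by omega)]

lemma coeff_mul_eq_zero {a b : ℕ} {p q : PS} (hp : ∀ n, a < n → coeff n p = 0)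
    (hq : ∀ n, b ≤ n → coeff n q = 0) (n : ℕ) (hn : a + b ≤ n) : coeff n (p * q) = 0 := by
  rw [coeff_mul]
  refine Finset.sum_eq_zero fun x hx => ?_
  rw [Finset.HasAntidiagonal.mem_antidiagonal] at hx
  by_cases h : a < x.1
  · rw [hp _ h, zero_mul]
  · rw [hq x.2 (by omega), mul_zero]

lemma Div.mul {R : ℝ≥0} {p q : PS} (hp : Div R p) (hq : Div R q) : Div R (p * q) := by
  obtain ⟨a, K, hK, hpa, hpd⟩ := hp
  obtain ⟨b, L, hL, hqb, hqd⟩ := hq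
  refine ⟨a + b, L * K, ENNReal.mul_ne_top hL hK, fun n hn => ?_, fun M F hF => ?_⟩
  · exact coeff_mul_eq_zero hpa (b := b + 1) (fun m hm => hqb m (by omega)) n (by omega)
  · obtain ⟨g₁, -, h2, h3⟩ := hpd (M + b) F hF
    obtain ⟨g, h4, h5, h6⟩ := hqd M g₁ (ne_top_of_le_ne_top (ENNReal.mul_ne_top hK hF) h2)
    refine ⟨g, h4, h5.trans (by rw [mul_assoc]; gcongr), fun n hn => ?_⟩
    have h7 : coeff n (p * (q * g - g₁)) = 0 :=
      coeff_mul_eq_zero hpa (b := M + b) (fun m hm => by rw [map_sub, h6 m hm, sub_self]) n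
        (by omega)
    rw [mul_sub, map_sub, sub_eq_zero, h3 n (by omega)] at h7
    rw [mul_assoc, h7]

lemma Div.pow {R : ℝ≥0} {p : PS} (hp : Div R p) (k : ℕ) : Div R (p ^ k) := by
  induction k with
  | zero => rw [pow_zero]; exact div_one R
  | succ k ih => rw [pow_succ]; exact ih.mul hp

lemma wnW_sh_le {R : ℝ≥0} (hR : R ≠ 0) (u : PS) :
    wn (wW R) (sh u) ≤ (R : ℝ≥0∞)⁻¹ * wn (wW R) u := by
  have hR' : (R : ℝ≥0∞) ≠ 0 := by exact_mod_cast hR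
  have h1 : (R : ℝ≥0∞) * wn (wW R) (sh u) ≤ wn (wW R) u := by
    unfold wn
    rw [← ENNReal.tsum_mul_left, tsum_eq_zero_add' ENNReal.summable
      (f := fun n => ‖coeff n u‖ₑ * wW R n)]
    refine le_add_left (le_of_eq (tsum_congr fun n => ?_))
    rw [coeff_sh, wW, wW, pow_succ]
    ring
  calc wn (wW R) (sh u) = (R : ℝ≥0∞)⁻¹ * ((R : ℝ≥0∞) * wn (wW R) (sh u)) := by
        rw [← mul_assoc, ENNReal.inv_mul_cancel hR' ENNReal.coe_ne_top, one_mul]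
    _ ≤ _ := by gcongr

lemma lowTri_mul (p : PS) : LowTri (LinearMap.mulLeft ℂ p) := fun _ _ hu => hu.mul_left p

lemma div_X_sub_C_aux {R : ℝ≥0} {z : ℂ} (hz : ‖z‖₊ < R) :
    ∃ K : ℝ≥0∞, K ≠ ⊤ ∧ ∀ (M : ℕ) (F : PS), wn (wW R) F ≠ ⊤ →
      ∃ g, Low M g ∧ wn (wW R) g ≤ K * wn (wW R) F ∧
        ∀ n, M + 1 ≤ n → coeff n ((X - C z) * g) = coeff n F := by
  have hR : R ≠ 0 := (lt_of_le_of_lt zero_le hz).ne'
  have hR' : (R : ℝ≥0∞) ≠ 0 := by exact_mod_cast hR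
  have hε : ‖z‖ₑ * (R : ℝ≥0∞)⁻¹ < 1 := by
    rw [← div_eq_mul_inv, ENNReal.div_lt_iff (Or.inl hR') (Or.inl ENNReal.coe_ne_top), one_mul]
    exact ENNReal.coe_lt_coe.2 hz
  have hC : (R : ℝ≥0∞)⁻¹ ≠ ⊤ := ENNReal.inv_ne_top.2 hR'
  refine ⟨_, perturb_const_ne_top hC hε, fun M F hF => ?_⟩
  obtain ⟨g, h1, h2, h3⟩ := surj_of_perturb (wW_ne_zero hR) (lowTri_mul X) (lowTri_mul (-C z))
    (M := M) (M' := M + 1) hC hε (fun G _ => ⟨hi M (sh G), low_hi _ _,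
      (wn_hi_le _ _ _).trans (wnW_sh_le hR G), fun n hn => by
        obtain ⟨m, rfl⟩ : ∃ m, n = m + 1 := ⟨n - 1, by omega⟩
        rw [LinearMap.mulLeft_apply, coeff_succ_X_mul, coeff_hi (by omega), coeff_sh]⟩)
    (fun g _ => by
      rw [LinearMap.mulLeft_apply, neg_mul, wn_neg, ← smul_eq_C_mul, wn_smul]) F hF
  refine ⟨g, h1, h2, fun n hn => ?_⟩
  rw [← h3 n hn, LinearMap.add_apply, LinearMap.mulLeft_apply, LinearMap.mulLeft_apply]
  congr 1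
  ring

lemma div_X_sub_C {R : ℝ≥0} {z : ℂ} (hz : ‖z‖₊ < R) : Div R (X - C z) := by
  obtain ⟨K, hK, h⟩ := div_X_sub_C_aux hz
  refine ⟨1, K, hK, fun n hn => ?_, h⟩
  rw [map_sub, coeff_X, coeff_C, if_neg (by omega), if_neg (by omega), sub_zero]

/-- exact division by `X - z` at a zero. -/
lemma exists_div_of_ev_eq_zero {R : ℝ≥0} {z : ℂ} (hz : ‖z‖₊ < R) {F : PS}
    (hF : wn (wW R) F ≠ ⊤) (h0 : ev z F = 0) :
    ∃ g, wn (wW R) g ≠ ⊤ ∧ (X - C z) * g = F := by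
  obtain ⟨K, hK, h⟩ := div_X_sub_C_aux hz
  obtain ⟨g, -, h2, h3⟩ := h 0 F hF
  have hg : wn (wW R) g ≠ ⊤ := ne_top_of_le_ne_top (ENNReal.mul_ne_top hK hF) h2
  refine ⟨g, hg, ?_⟩
  have hXC : wn (wW R) (X - C z) ≠ ⊤ := wn_sub_ne_top (wnW_X_ne_top R) (wnW_C_ne_top R z)
  have h4 : F - (X - C z) * g = C (constantCoeff (F - (X - C z) * g)) := by
    ext n
    rcases n with _ | n
    · simp
    · rw [map_sub, h3 (n + 1) (by omega), sub_self, coeff_C, if_neg (by omega)]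
  have h5 := congrArg (ev z) h4
  rw [ev_C, ev_sub hz.le hF (wnW_mul_ne_top hXC hg), ev_mul hz.le hXC hg,
    ev_sub hz.le (wnW_X_ne_top R) (wnW_C_ne_top R z), ev_X, ev_C, h0, sub_self, zero_mul,
    sub_zero] at h5
  rw [← h5, map_zero, sub_eq_zero] at h4
  exact h4.symm

/-- the difference quotient of `exp (c ξ)` at `ξ = 1`. -/
lemma exists_quot (c : ℂ) : ∃ q : PS, wn (wW 2) q ≠ ⊤ ∧
    (X - C 1) * q = ex c - C (Complex.exp c) := by
  have h1 : ‖(1 : ℂ)‖₊ < (2 : ℝ≥0) := by simp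
  refine exists_div_of_ev_eq_zero h1 (wn_sub_ne_top (wnW_ex_ne_top _ _) (wnW_C_ne_top _ _)) ?_
  rw [ev_sub h1.le (wnW_ex_ne_top _ _) (wnW_C_ne_top _ _), ev_ex, ev_C, mul_one, sub_self]

lemma ev_quot_ne_zero {q : PS} (hq : wn (wW 2) q ≠ ⊤)
    (h : (X - C 1) * q = ex 1 - C (Complex.exp 1)) : ev 1 q ≠ 0 := by
  intro h0
  have h1 : ‖(1 : ℂ)‖₊ < (2 : ℝ≥0) := by simp
  obtain ⟨r, hr, hqr⟩ := exists_div_of_ev_eq_zero h1 hq h0
  have hXC : wn (wW 2) (X - C 1) ≠ ⊤ := wn_sub_ne_top (wnW_X_ne_top _) (wnW_C_ne_top _ _)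
  set K : ℝ := (wn (wW 2) r).toReal with hK
  have hK0 : 0 ≤ K := ENNReal.toReal_nonneg
  -- evaluate at `1 + δ`
  set δ : ℝ := 1 / (K + 1) with hδ
  have hδ0 : 0 < δ := by positivity
  have hδ1 : δ ≤ 1 := by rw [hδ, div_le_one (by positivity)]; linarith
  have hz : ‖((1 + δ : ℝ) : ℂ)‖₊ ≤ (2 : ℝ≥0) := by
    rw [← NNReal.coe_le_coe, coe_nnnorm, Complex.norm_real, Real.norm_of_nonneg (by positivity)]
    push_cast
    linarith
  have h2 := congrArg (ev ((1 + δ : ℝ) : ℂ)) h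
  rw [← hqr, ev_mul hz hXC (wnW_mul_ne_top hXC hr), ev_mul hz hXC hr,
    ev_sub hz (wnW_X_ne_top _) (wnW_C_ne_top _ _), ev_X, ev_C,
    ev_sub hz (wnW_ex_ne_top _ _) (wnW_C_ne_top _ _), ev_ex, ev_C, one_mul] at h2
  have h3 : ‖ev ((1 + δ : ℝ) : ℂ) r‖ ≤ K := by
    have := enorm_ev_le hz r
    rw [← ofReal_norm] at this
    exact (ENNReal.ofReal_le_iff_le_toReal hr).1 this
  have h4 : ((Real.exp (1 + δ) - Real.exp 1 : ℝ) : ℂ) = (δ : ℂ) * ((δ : ℂ) * ev ((1 + δ : ℝ) : ℂ) r) := by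
    push_cast at h2 ⊢
    rw [← h2]
    ring
  have h5 : Real.exp (1 + δ) - Real.exp 1 ≤ δ * (δ * K) := by
    have := congrArg norm h4
    rw [Complex.norm_real, norm_mul, norm_mul, Complex.norm_real, Real.norm_of_nonneg hδ0.le] at this
    calc _ ≤ ‖Real.exp (1 + δ) - Real.exp 1‖ := Real.le_norm_self _
      _ = _ := this
      _ ≤ _ := by gcongr
  have h6 : δ ≤ Real.exp (1 + δ) - Real.exp 1 := by
    rw [Real.exp_add]
    have h7 := Real.add_one_le_exp δ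
    have h8 : (1 : ℝ) ≤ Real.exp 1 := Real.one_le_exp zero_le_one
    nlinarith
  have h9 : δ * K < 1 := by
    rw [hδ, div_mul_eq_mul_div, div_lt_one (by positivity)]
    linarith
  nlinarith

end Pool.Agent.P.MP_049749_al
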